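import Pool.Agent.Helper31.IPS.Full
import Pool.Agent.Helper31.IP5.C5
import Pool.Agent.Helper76.IP.E1Fin
import Pool.Agent.Helper27.IP.E2Mk
import Pool.Agent.Helper54.IP.C4Iff

/-!
TH-P: dimension 6, the list of all parameter arrays (the hypothesis `N5 F` is discharged elsewhere).
-/

namespace Pool.Agent.Helper31.IPS

open Pool.Agent.Helper54.IP Pool.Agent.Helper76.IP Pool.Agent.Helper27.IPE2
  Pool.Agent.Helper31.IP5

variable {F : Type*} [Field F]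

theorem E1L_congr {a r : F} {t s f t' s' : ℕ → F} (h : E1L a r t s f)
    (ht : ∀ i, i ≤ 5 → t i = t' i) (hs : ∀ i, i ≤ 5 → s i = s' i) : E1L a r t' s' f := by
  have a0 := ht 0 (by omega)
  have a1 := ht 1 (by omega)
  have a2 := ht 2 (by omega)
  have a3 := ht 3 (by omega)
  have a4 := ht 4 (by omega)
  have a5 := ht 5 (by omega)
  have b0 := hs 0 (by omega)
  have b1 := hs 1 (by omega)
  have b2 := hs 2 (by omega)
  have b3 := hs 3 (by omega)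
  have b4 := hs 4 (by omega)
  have b5 := hs 5 (by omega)
  exact ⟨h.curve, h.a0, h.r0, h.two, h.a1, h.a1', h.r1, h.r1', h.ar, h.ar', h.ar1,
    a0 ▸ h.t0, a1 ▸ h.t1, a2 ▸ h.t2, a3 ▸ h.t3, a4 ▸ h.t4, a5 ▸ h.t5,
    b0 ▸ h.s0, b1 ▸ h.s1, b2 ▸ h.s2, b3 ▸ h.s3, b4 ▸ h.s4, b5 ▸ h.s5,
    h.f2, h.f3, h.f4, h.f5, h.n1, h.n2, h.n3, h.n4, h.n6, h.n7⟩

theorem E2L_congr {a r : F} {t s f t' s' : ℕ → F} (h : E2L a r t s f)
    (ht : ∀ i, i ≤ 5 → t i = t' i) (hs : ∀ i, i ≤ 5 → s i = s' i) : E2L a r t' s' f := by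
  have a0 := ht 0 (by omega)
  have a1 := ht 1 (by omega)
  have a2 := ht 2 (by omega)
  have a3 := ht 3 (by omega)
  have a4 := ht 4 (by omega)
  have a5 := ht 5 (by omega)
  have b0 := hs 0 (by omega)
  have b1 := hs 1 (by omega)
  have b2 := hs 2 (by omega)
  have b3 := hs 3 (by omega)
  have b4 := hs 4 (by omega)
  have b5 := hs 5 (by omega)
  exact ⟨h.curve, h.a0, h.r0, h.a1, h.r1, h.r1', h.r3, h.ra, h.ra2, h.ra3, h.ra4, h.ar, h.ar3,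
    a0 ▸ h.t0, a1 ▸ h.t1, a2 ▸ h.t2, a3 ▸ h.t3, a4 ▸ h.t4, a5 ▸ h.t5,
    b0 ▸ h.s0, b1 ▸ h.s1, b2 ▸ h.s2, b3 ▸ h.s3, b4 ▸ h.s4, b5 ▸ h.s5,
    h.f1, h.f2, h.f3, h.f3', h.f4, h.f5⟩

/-- dimension 6 -/
theorem isPA5_iff (hN : N5 F) (t s f : ℕ → F) : IsPA 5 t s f ↔
    MainL 5 t s f ∨ (∃ a r : F, E1L a r t s f) ∨ ∃ a r : F, E2L a r t s f := by
  refine isPA_frame (m := 5) (by omega)
    (L := fun t s f => (∃ a r : F, E1L a r t s f) ∨ ∃ a r : F, E2L a r t s f)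
    (fun g hc f hf => ?_) ?_ ?_ t s f
  · rcases c5_elim hN g hc with h | h
    · exact Or.inl h
    · exact Or.inr (h f hf)
  · rintro t s f t' s' (⟨a, r, h⟩ | ⟨a, r, h⟩) ht hs
    · exact Or.inl ⟨a, r, E1L_congr h ht hs⟩
    · exact Or.inr ⟨a, r, E2L_congr h ht hs⟩
  · rintro t s f (⟨a, r, h⟩ | ⟨a, r, h⟩)
    · exact e1_isPA h
    · exact e2_isPA h

/-- dimension `m + 1`, when the elimination leaves only the main family -/
theorem isPA_main_iff {m : ℕ} (hm : 1 ≤ m)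
    (elim : ∀ g : GForm F m, g.Closed → ∀ i, i ≤ m → g.t i = g.t 1 ^ i ∧ g.s i = g.t 1 ^ i)
    (t s f : ℕ → F) : IsPA m t s f ↔ MainL m t s f := by
  have h := isPA_frame (F := F) hm (L := fun _ _ _ => False) (fun g hc f _ => Or.inl (elim g hc))
    (fun _ _ _ _ _ h _ _ => h) (fun _ _ _ h => h.elim) t s f
  rw [h, or_false]

end Pool.Agent.Helper31.IPS
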