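import Pool.Agent.Helper31.IPS.Ord
import Pool.Agent.Helper14.IP.Unique

/-!
TH-P: the parameter array in the given order; the main family as parameter arrays.
-/

namespace Pool.Agent.Helper31.IPS

open Matrix Pool.Agent.Helper54.IP Pool.Agent.Helper14.IP

variable {F : Type*} [Field F]

theorem PA_of_mat {V : Type*} [AddCommGroup V] [Module F V] {m : ℕ} (hm : 1 ≤ m) {K Ks : V ≃ₗ[F] V}
    (M : Mat F (m + 1)) (v w : Module.Basis (Fin (m + 1)) F V)
    (hw : ∀ j, K.symm (w j) = M.a j • w j) (hv : ∀ k, Ks (v k) = M.b k • v k)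
    (hX : ∀ k, v k = ∑ j, M.X j k • w j) :
    ∃ (g : GForm F m) (f : ℕ → F), g.Closed ∧ g.IsPhi f ∧
      (∀ i : Fin (m + 1), M.a i = M.a 0 * g.t i) ∧ (∀ i : Fin (m + 1), M.b i = M.b 0 * g.s i) ∧
      SplitForm (m + 1) K Ks (fun i => M.a 0 * g.t i) (fun i => M.b 0 * g.s i)
        (fun i => M.a 0 * M.b 0 * f i) := by
  obtain ⟨g, gt, gs, gG, gr, gc⟩ := M.toGForm
  have ha := M.a_ne 0
  have hb := M.b_ne 0
  have ea : ∀ i : Fin (m + 1), M.a i = M.a 0 * g.t i := by
    intro i
    rw [gt i i.2]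
    field_simp
  have eb : ∀ i : Fin (m + 1), M.b i = M.b 0 * g.s i := by
    intro i
    rw [gs i i.2]
    field_simp
  obtain ⟨x, φ, xA, xB, hφ⟩ := nf_split (by omega) K Ks M v w hw hv hX
    (fun i => M.a 0 * g.t i) (fun i => M.b 0 * g.s i) ea eb
  set f : ℕ → F := fun i => φ i / (M.a 0 * M.b 0) with hf
  have hφf : ∀ i, φ i = M.a 0 * M.b 0 * f i := by
    intro i
    rw [hf]
    field_simp
  have f0 : ∀ k, k < m → f (k + 1) ≠ 0 := fun k hk =>
    div_ne_zero (hφ (k + 1) (by omega) (by omega)) (mul_ne_zero ha hb)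
  have hS : SplitForm (m + 1) K Ks (fun i => M.a 0 * g.t i) (fun i => M.b 0 * g.s i)
      (fun i => M.a 0 * M.b 0 * f i) := by
    refine ⟨x, xA, fun i => ?_⟩
    rw [xB]
    beta_reduce
    rw [← hφf]
  have tinj : ∀ i j, i < j → j < m + 1 → M.a 0 * g.t i ≠ M.a 0 * g.t j :=
    fun i j hij hj h => g.t_inj i j hij (by omega) (mul_left_cancel₀ ha h)
  have sinj : ∀ i j, i < j → j < m + 1 → M.b 0 * g.s i ≠ M.b 0 * g.s j :=
    fun i j hij hj h => g.s_inj i j hij (by omega) (mul_left_cancel₀ hb h)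
  obtain ⟨v', w', h1, h2, h3⟩ := split_bases hS tinj sinj
    (fun k h1 h2 => mul_ne_zero (mul_ne_zero ha hb) (by
      obtain ⟨k, rfl⟩ : ∃ k', k = k' + 1 := ⟨k - 1, by omega⟩
      exact f0 k (by omega)))
  have h3' : ∀ j k : Fin (m + 1), w'.repr (v' k) j = nsum m g.t g.s f j k := by
    intro j k
    rw [h3, nsum]
    exact Finset.sum_congr rfl fun l _ => ec_ef ha hb _ _ _ _ _ _
  have n0 : ∀ t s f : ℕ → F, ∀ k, s 0 = s 0 → nsum m t s f 0 k = 1 := by
    intro t s f k _
    rw [nsum, Finset.sum_range_succ', Finset.sum_eq_zero]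
    · simp [cf]
    · intro l _
      rw [prod_zero_of_lt (Nat.succ_pos l), zero_mul, mul_zero]
  have n0' : ∀ j, nsum m g.t g.s f j 0 = 1 := by
    intro j
    rw [nsum_swap]
    exact n0 _ _ _ _ rfl
  have injv : Function.Injective (fun k : Fin (m + 1) => M.b 0 * g.s k) := inj_t g.swap hb
  have injw : Function.Injective (fun k : Fin (m + 1) => M.a 0 * g.t k) := inj_t g ha
  have cv : ∀ k, v k = v'.repr (v k) k • v' k := fun k =>
    eig_unique v' (Ks : V →ₗ[F] V) _ injv h2 (by
      rw [LinearEquiv.coe_coe, hv, eb k])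
  have cw : ∀ j, w' j = w.repr (w' j) j • w j := fun j => by
    refine eig_unique w (K.symm : V →ₗ[F] V) M.a M.a_inj hw ?_
    rw [LinearEquiv.coe_coe, h1, ea j]
  have hX' : ∀ j k, M.X j k = w.repr (v k) j := by
    intro j k
    rw [hX, map_sum, Finsupp.finsetSum_apply, Finset.sum_eq_single j]
    · rw [map_smul, w.repr_self, Finsupp.smul_apply, Finsupp.single_eq_same, smul_eq_mul, mul_one]
    · intro l _ hl
      rw [map_smul, w.repr_self, Finsupp.smul_apply, Finsupp.single_eq_of_ne (Ne.symm hl),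
        smul_zero]
    · intro h
      exact absurd (Finset.mem_univ _) h
  have hXS : ∀ j k : Fin (m + 1), M.X j k =
      v'.repr (v k) k * w.repr (w' j) j * nsum m g.t g.s f j k := by
    intro j k
    have e1 : v' k = ∑ i, w'.repr (v' k) i • w' i := (w'.sum_repr (v' k)).symm
    rw [hX', cv k, map_smul, Finsupp.smul_apply, smul_eq_mul]
    have e2 : w.repr (v' k) j = w'.repr (v' k) j * w.repr (w' j) j := by
      conv_lhs => rw [e1]
      rw [map_sum, Finsupp.finsetSum_apply, Finset.sum_eq_single j]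
      · rw [map_smul, Finsupp.smul_apply, smul_eq_mul]
      · intro l _ hl
        rw [cw l, map_smul, map_smul, w.repr_self, Finsupp.smul_apply, Finsupp.smul_apply,
          Finsupp.single_eq_of_ne (Ne.symm hl), smul_zero, smul_zero]
      · intro h
        exact absurd (Finset.mem_univ _) h
    have e3 : v'.repr (v'.repr (v k) k • v' k) k = v'.repr (v k) k := by
      rw [map_smul, v'.repr_self, Finsupp.smul_apply, Finsupp.single_eq_same, smul_eq_mul, mul_one]
    rw [e3, e2, h3']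
    ring
  refine ⟨g, f, ⟨gr, gc⟩, ?_, ea, eb, hS⟩
  refine IsPhi_of_nsum f0 fun j k hj hk => ?_
  rw [gG j k (by omega) (by omega), hXS, hXS, hXS, hXS]
  have z0 : ((0 : Fin (m + 1)) : ℕ) = 0 := rfl
  rw [z0]
  simp only
  rw [n0 _ _ _ _ rfl, n0 _ _ _ _ rfl, n0' j]
  have p0 : ∀ k, v'.repr (v k) k ≠ 0 := by
    intro k h
    have := cv k
    rw [h, zero_smul] at this
    exact v.ne_zero k this
  have q0 : ∀ j, w.repr (w' j) j ≠ 0 := by
    intro j h
    have := cw j
    rw [h, zero_smul] at this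
    exact w'.ne_zero j this
  have := p0 0
  have := q0 0
  have := p0 ⟨k, by omega⟩
  have := q0 ⟨j, by omega⟩
  field_simp

variable {V : Type*} [AddCommGroup V] [Module F V] {n m : ℕ}

/-- the coordinates of `K* y` in the split basis -/
theorem split_coord (x : Module.Basis (Fin n) F V) {Ks : V ≃ₗ[F] V} {B φ : ℕ → F}
    (hB : ∀ i : Fin n, Ks (x i) = B i • x i
      + if h : 0 < (i : ℕ) then φ i • x ⟨i - 1, by omega⟩ else 0) (y : V) (k : ℕ) (hk : k < n) :
    x.repr (Ks y) ⟨k, hk⟩ = B k * x.repr y ⟨k, hk⟩ +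
      if h : k + 1 < n then φ (k + 1) * x.repr y ⟨k + 1, h⟩ else 0 := by
  have h : x.coord ⟨k, hk⟩ ∘ₗ (Ks : V →ₗ[F] V) = B k • x.coord ⟨k, hk⟩ +
      if h : k + 1 < n then φ (k + 1) • x.coord ⟨k + 1, h⟩ else 0 := by
    refine x.ext fun i => ?_
    rw [LinearMap.comp_apply, LinearEquiv.coe_coe, hB, map_add, map_smul, LinearMap.add_apply,
      LinearMap.smul_apply, x.coord_apply, x.repr_self, smul_eq_mul]
    obtain ⟨i, hi⟩ := i
    simp only
    congr 1
    · by_cases h1 : k = i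
      · subst h1; rfl
      · rw [Finsupp.single_eq_of_ne (fun h => h1 (Fin.ext_iff.1 h)), mul_zero, smul_zero]
    · by_cases h1 : k + 1 = i
      · subst h1
        have e1 : (⟨k + 1 - 1, by omega⟩ : Fin n) = ⟨k, hk⟩ := Fin.ext (by simp)
        rw [dif_pos (by omega), dif_pos hi, LinearMap.smul_apply, x.coord_apply, map_smul,
          x.coord_apply, x.repr_self, x.repr_self, Finsupp.smul_apply, e1,
          Finsupp.single_eq_same, Finsupp.single_eq_same]
      · have e1 : (x.coord ⟨k, hk⟩) (if h : 0 < i then φ i • x ⟨i - 1, by omega⟩ else 0) = 0 := by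
          split_ifs with h2
          · rw [map_smul, x.coord_apply, x.repr_self, Finsupp.single_apply, if_neg, smul_zero]
            intro h; rw [Fin.ext_iff] at h; simp at h; omega
          · rw [map_zero]
        rw [e1]
        split_ifs with h2
        · rw [LinearMap.smul_apply, x.coord_apply, x.repr_self, Finsupp.single_apply, if_neg,
            smul_zero]
          intro h; rw [Fin.ext_iff] at h; simp at h; omega
        · rfl
  have h1 := LinearMap.congr_fun h y
  rw [LinearMap.comp_apply, LinearMap.add_apply, LinearMap.smul_apply, x.coord_apply,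
    x.coord_apply, LinearEquiv.coe_coe, smul_eq_mul] at h1
  rw [h1]
  congr 1
  split_ifs
  · rw [LinearMap.smul_apply, x.coord_apply, smul_eq_mul]
  · rfl

/-- the split numbers are determined by the pair and the order of the eigenvalues -/
theorem split_unique {K Ks : V ≃ₗ[F] V} {A B φ φ' : ℕ → F} (h : SplitForm n K Ks A B φ)
    (h' : SplitForm n K Ks A B φ') (hB : ∀ i, 0 < i → i < n → B i ≠ B 0) :
    ∀ i, 1 ≤ i → i < n → φ i = φ' i := by
  obtain ⟨x, xA, xB⟩ := h
  obtain ⟨y, yA, yB⟩ := h'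
  intro i hi hin
  have h0n : 0 < n := by omega
  set z := y ⟨0, h0n⟩ with hz
  have z1 : Ks z = B 0 • z := by
    rw [hz, yB ⟨0, h0n⟩]; simp
  have zc : ∀ r k, ∀ hk : k < n, 1 ≤ k → n ≤ k + 1 + r → x.repr z ⟨k, hk⟩ = 0 := by
    intro r
    induction r with
    | zero =>
      intro k hk h1 h2
      have h3 := split_coord x xB z k hk
      rw [dif_neg (by omega), z1, map_smul, Finsupp.smul_apply, smul_eq_mul, add_zero] at h3
      have h4 : (B k - B 0) * x.repr z ⟨k, hk⟩ = 0 := by linear_combination -h3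
      exact (mul_eq_zero.1 h4).resolve_left (sub_ne_zero.2 (hB k (by omega) hk))
    | succ r ih =>
      intro k hk h1 h2
      have h3 := split_coord x xB z k hk
      have h5 : (if h : k + 1 < n then φ (k + 1) * x.repr z ⟨k + 1, h⟩ else 0) = 0 := by
        split_ifs with h
        · rw [ih (k + 1) h (by omega) (by omega), mul_zero]
        · rfl
      rw [h5, z1, map_smul, Finsupp.smul_apply, smul_eq_mul, add_zero] at h3
      have h4 : (B k - B 0) * x.repr z ⟨k, hk⟩ = 0 := by linear_combination -h3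
      exact (mul_eq_zero.1 h4).resolve_left (sub_ne_zero.2 (hB k (by omega) hk))
  set c := x.repr z ⟨0, h0n⟩ with hc
  have key : ∀ k, ∀ hk : k < n, y ⟨k, hk⟩ = c • x ⟨k, hk⟩ := by
    intro k
    induction k with
    | zero =>
      intro hk
      rw [← hz]
      apply x.repr.injective
      ext l
      obtain ⟨l, hl⟩ := l
      rw [map_smul, x.repr_self, Finsupp.smul_apply, smul_eq_mul, Finsupp.single_apply]
      rcases Nat.eq_zero_or_pos l with h | h
      · subst h
        rw [if_pos rfl, mul_one]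
      · rw [if_neg (fun e => by rw [Fin.ext_iff] at e; simp at e; omega), mul_zero]
        exact zc n l hl h (by omega)
    | succ k ih =>
      intro hk
      have h1 := yA ⟨k, by omega⟩
      have h2 := xA ⟨k, by omega⟩
      rw [dif_pos hk] at h1 h2
      rw [ih (by omega), map_smul, h2] at h1
      simp only at h1
      have h3 : y ⟨k + 1, hk⟩ = c • (A k • x ⟨k, by omega⟩ + x ⟨k + 1, hk⟩) -
          A k • c • x ⟨k, by omega⟩ := by rw [h1]; abel
      rw [h3]
      module
  have hc0 : c ≠ 0 := by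
    intro h
    have := key 0 h0n
    rw [h, zero_smul] at this
    exact y.ne_zero _ this
  have h1 := yB ⟨i, hin⟩
  have h2 := xB ⟨i, hin⟩
  have hi0 : 0 < i := by omega
  simp only at h1 h2
  rw [dif_pos hi0] at h1 h2
  rw [key i hin, map_smul, h2, key (i - 1) (by omega)] at h1
  have h3 : (c * (φ i - φ' i)) • x ⟨i - 1, by omega⟩ = 0 := by
    have : c • (B i • x ⟨i, hin⟩ + φ i • x ⟨i - 1, by omega⟩) -
      (B i • c • x ⟨i, hin⟩ + φ' i • c • x ⟨i - 1, by omega⟩) = 0 := by rw [h1, sub_self]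
    rw [← this]
    module
  rcases smul_eq_zero.1 h3 with h4 | h4
  · exact sub_eq_zero.1 ((mul_eq_zero.1 h4).resolve_left hc0)
  · exact absurd h4 (x.ne_zero _)

/-- the order of the bases of a split form from a closed corner -/
theorem pair_ord {g : GForm F m} (hc : g.Closed) {a b : F} (ha : a ≠ 0) (hb : b ≠ 0)
    {K Ks : V ≃ₗ[F] V} (v w : Module.Basis (Fin (m + 1)) F V)
    (hw : ∀ j : Fin (m + 1), K.symm (w j) = (a * g.t j) • w j)
    (hv : ∀ k : Fin (m + 1), Ks (v k) = (b * g.s k) • v k)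
    (hG : ∀ j k : Fin (m + 1), w.repr (v k) j = g.G j k) : Ord (m + 1) K Ks v w := by
  have hw' := symm_diag w K (fun j => a * g.t j)
    (fun j => mul_ne_zero ha (g.t_ne j (by omega))) hw
  have hv' := symm_diag v Ks.symm (fun k => b * g.s k)
    (fun k => mul_ne_zero hb (g.s_ne k (by omega))) (by
      intro k
      rw [LinearEquiv.symm_symm]
      exact hv k)
  refine ⟨?_, ?_, ?_, ?_, ?_, ?_⟩
  · intro i j hij
    obtain ⟨κ, hκ⟩ : ∃ κ, (j : ℕ) = κ + 1 := ⟨j - 1, by omega⟩
    obtain ⟨c, hcc, h0⟩ := colD hc (k := κ) (by omega)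
    rw [LinearMap.toMatrix_apply]
    rw [diag_cols v w (K : V →ₗ[F] V) (fun j => (a * g.t j)⁻¹) hw' j
      (fun l => a⁻¹ * c l) ?_ i, h0 i (by omega), mul_zero]
    intro i'
    rw [hG, hκ]
    have := comb_fin hcc (j := i')
    rw [mul_inv, mul_assoc, this, Finset.mul_sum]
    exact Finset.sum_congr rfl fun l _ => by rw [hG, mul_assoc]
  · intro i j hij
    rw [LinearMap.toMatrix_apply]
    exact hess_v v w hw hG i j hij
  · intro i j hij
    rw [LinearMap.toMatrix_apply, LinearEquiv.coe_coe, hv, map_smul, v.repr_self,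
      Finsupp.smul_apply, Finsupp.single_eq_of_ne hij, smul_zero]
  · intro i j hij
    rw [LinearMap.toMatrix_apply]
    exact hess_w v w hv hG i j hij
  · intro i j hij
    obtain ⟨κ, hκ⟩ : ∃ κ, (i : ℕ) = κ + 1 := ⟨i - 1, by omega⟩
    obtain ⟨c, hcc, h0⟩ := colD hc.swap (k := κ) (by omega)
    rw [LinearMap.toMatrix_apply]
    rw [diag_rows v w (Ks.symm : V →ₗ[F] V) (fun k => (b * g.s k)⁻¹) hv' i
      (fun l => b⁻¹ * c l) ?_ j, h0 j (by omega), mul_zero]
    intro k'
    rw [hG, hκ]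
    have := comb_fin hcc (j := k')
    simp only [GForm.swap_t, GForm.swap_G] at this
    rw [mul_inv, mul_assoc, this, Finset.mul_sum]
    exact Finset.sum_congr rfl fun l _ => by rw [hG, mul_assoc]
  · intro i j hij
    rw [LinearMap.toMatrix_apply, LinearEquiv.coe_coe, hw', map_smul, w.repr_self,
      Finsupp.smul_apply, Finsupp.single_eq_of_ne hij, smul_zero]

/-- geometric closed corners are the main family -/
theorem good_of_geo (hm : 1 ≤ m) {g : GForm F m} (hc : g.Closed) {f : ℕ → F} (hf : g.IsPhi f) {q : F}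
    (ht : ∀ i, i ≤ m → g.t i = q ^ i) (hs : ∀ i, i ≤ m → g.s i = q ^ i) :
    ∃ s : F, Good (m + 1) 1 1 q s ∧ ∀ k, 1 ≤ k → k ≤ m → f k = phi (m + 1) 1 1 q s k := by
  obtain ⟨K, Ks, hS⟩ := exists_split (Pi.basisFun F (Fin (m + 1))) (fun i => 1 * g.t i)
    (fun i => 1 * g.s i) (fun i => 1 * 1 * f i)
    (fun i hi => mul_ne_zero one_ne_zero (g.t_ne i (by omega)))
    (fun i hi => mul_ne_zero one_ne_zero (g.s_ne i (by omega)))
  obtain ⟨v, w, hw, hv, hG⟩ := bases hf one_ne_zero one_ne_zero hS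
  have irr := pair_irred hc one_ne_zero one_ne_zero v w hw hv hG
  obtain ⟨M, mw, mv, mX⟩ := mat_of_ord (pair_ord hc one_ne_zero one_ne_zero v w hw hv hG) irr
  have ea : ∀ i : Fin (m + 1), M.a i = 1 * q ^ (i : ℕ) := by
    intro i
    have h1 := (mw i).symm.trans (hw i)
    rw [← ht i (by omega)]
    exact smul_left_injective F (w.ne_zero i) h1
  have eb : ∀ i : Fin (m + 1), M.b i = 1 * q ^ (i : ℕ) := by
    intro i
    have h1 := (mv i).symm.trans (hv i)
    rw [← hs i (by omega)]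
    exact smul_left_injective F (v.ne_zero i) h1
  obtain ⟨s, s0, s1, hmain⟩ := normal_form (by omega) K Ks M v w mw mv mX 1 1 q ea eb
  have q0 : q ≠ 0 := by
    have h1 := g.t_ne 1 hm
    rw [ht 1 hm, pow_one] at h1
    exact h1
  refine ⟨s, ⟨one_ne_zero, one_ne_zero, q0, s0, fun i h1 h2 => ⟨?_, s1 i h1 h2⟩⟩, ?_⟩
  · have h3 := g.t_inj 0 i (by omega) (by omega)
    rw [g.t0, ht i (by omega)] at h3
    exact h3.symm
  · intro k h1 h2
    have hS1 : SplitForm (m + 1) K Ks (fun i => 1 * g.t i) (fun i => 1 * g.s i)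
        (phi (m + 1) 1 1 q s) := by
      refine split_congr (A := fun i => 1 * q ^ i) (B := fun i => 1 * q ^ i) hmain ?_ ?_ ?_
      · intro i hi
        beta_reduce
        rw [ht i (by omega)]
      · intro i hi
        beta_reduce
        rw [hs i (by omega)]
      · intro i _ _
        rfl
    have h3 := split_unique hS hS1 (fun i h1 h2 h3 => by
      rw [one_mul, one_mul] at h3
      exact g.s_inj 0 i h1 (by omega) h3.symm) k h1 (by omega)
    rw [one_mul, one_mul] at h3
    exact h3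

theorem IsPA_congr {t s f t' s' f' : ℕ → F} (h : IsPA m t s f) (ht : ∀ i, i ≤ m → t i = t' i)
    (hs : ∀ i, i ≤ m → s i = s' i) (hf : ∀ k, 1 ≤ k → k ≤ m → f k = f' k) : IsPA m t' s' f' := by
  obtain ⟨g, hc, gt, gs, gf⟩ := h
  refine ⟨g, hc, fun i hi => (gt i hi).trans (ht i hi), fun i hi => (gs i hi).trans (hs i hi),
    fun k hk => ?_⟩
  rw [← hf (k + 1) (by omega) (by omega)]
  exact gf k hk

/-- the main family as parameter arrays -/
theorem PA_of_good (hm : 1 ≤ m) {q s : F} (hg : Good (m + 1) 1 1 q s) :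
    IsPA m (fun i => q ^ i) (fun i => q ^ i) (phi (m + 1) 1 1 q s) := by
  obtain ⟨K, Ks, hmain⟩ := exists_main (Pi.basisFun F (Fin (m + 1))) 1 1 q s one_ne_zero
    one_ne_zero hg.2.2.1
  obtain ⟨hI, irr⟩ := main_isInvertingPair (by omega) K Ks 1 1 q s one_ne_zero one_ne_zero hg.2.2.1
    (fun i h1 h2 => (hg.2.2.2.2 i h1 h2).1) hg.2.2.2.1 (fun i h1 h2 => (hg.2.2.2.2 i h1 h2).2) hmain
  -- ordered bases
  obtain ⟨v, hv, c1, -, c2, -⟩ := main_basis (by omega) K Ks 1 1 q s one_ne_zero hg.2.2.1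
    (fun i h1 h2 => (hg.2.2.2.2 i h1 h2).1) hg.2.2.2.1 (fun i h1 h2 => (hg.2.2.2.2 i h1 h2).2) hmain
  have hg' := hg.swap
  obtain ⟨w, hw, e1, -, e2, -⟩ := main_basis (by omega) Ks.symm K.symm _ _ _ _ hg'.1 hg'.2.2.1
    (fun i h1 h2 => (hg'.2.2.2.2 i h1 h2).1) hg'.2.2.2.1
    (fun i h1 h2 => (hg'.2.2.2.2 i h1 h2).2) (isMain_swap (by omega) hg hmain)
  set w' : Module.Basis (Fin (m + 1)) F (Fin (m + 1) → F) := w.reindex Fin.revPerm with hw'
  have wr : ∀ j, w' j = w (Fin.rev j) := by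
    intro j
    rw [hw', Module.Basis.reindex_apply, Fin.revPerm_symm, Fin.revPerm_apply]
  have hwq : ∀ j : Fin (m + 1), K.symm (w' j) = (q ^ (j : ℕ)) • w' j := by
    intro j
    rw [wr, hw, Fin.val_rev, one_mul]
    congr 1
    have : q ^ (m + 1 - 1) = q ^ (j : ℕ) * q ^ (m + 1 - ((j : ℕ) + 1)) := by
      rw [← pow_add]; congr 1; omega
    rw [this, inv_pow, mul_assoc, mul_inv_cancel₀ (pow_ne_zero _ hg.2.2.1), mul_one]
  have hwK : ∀ j : Fin (m + 1), K (w' j) = (q ^ (j : ℕ))⁻¹ • w' j :=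
    symm_diag w' K _ (fun j => pow_ne_zero _ hg.2.2.1) hwq
  have hvq : ∀ j : Fin (m + 1), Ks (v j) = (q ^ (j : ℕ)) • v j := by
    intro j
    rw [hv, one_mul]
  have ord : Ord (m + 1) K Ks v w' := by
    refine ⟨?_, ?_, ?_, ?_, ?_, ?_⟩
    · intro i j hij
      rw [LinearMap.toMatrix_apply, LinearEquiv.coe_coe]
      exact c2 i j hij
    · intro i j hij
      rw [LinearMap.toMatrix_apply, LinearEquiv.coe_coe]
      exact c1 i j hij
    · intro i j hij
      rw [LinearMap.toMatrix_apply, LinearEquiv.coe_coe, hvq, map_smul, v.repr_self,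
        Finsupp.smul_apply, Finsupp.single_eq_of_ne hij, smul_zero]
    · intro i j hij
      rw [LinearMap.toMatrix_apply, LinearEquiv.coe_coe, wr, hw',
        Module.Basis.repr_reindex_apply, Fin.revPerm_symm, Fin.revPerm_apply]
      have := e1 (Fin.rev i) (Fin.rev j) (by rw [Fin.val_rev, Fin.val_rev]; omega)
      rw [LinearEquiv.symm_symm] at this
      exact this
    · intro i j hij
      rw [LinearMap.toMatrix_apply, LinearEquiv.coe_coe, wr, hw',
        Module.Basis.repr_reindex_apply, Fin.revPerm_symm, Fin.revPerm_apply]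
      exact e2 (Fin.rev i) (Fin.rev j) (by rw [Fin.val_rev, Fin.val_rev]; omega)
    · intro i j hij
      rw [LinearMap.toMatrix_apply, LinearEquiv.coe_coe, hwK, map_smul, w'.repr_self,
        Finsupp.smul_apply, Finsupp.single_eq_of_ne hij, smul_zero]
  obtain ⟨M, mw, mv, mX⟩ := mat_of_ord ord irr
  have ea : ∀ i : Fin (m + 1), M.a i = q ^ (i : ℕ) := by
    intro i
    exact smul_left_injective F (w'.ne_zero i) ((mw i).symm.trans (hwq i))
  have eb : ∀ i : Fin (m + 1), M.b i = q ^ (i : ℕ) := by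
    intro i
    exact smul_left_injective F (v.ne_zero i) ((mv i).symm.trans (hvq i))
  obtain ⟨g, f, hc, hf, ga, gb, hS⟩ := PA_of_mat hm M v w' mw mv mX
  have a0 : M.a 0 = 1 := by rw [ea]; simp
  have b0 : M.b 0 = 1 := by rw [eb]; simp
  have gt : ∀ i, i ≤ m → g.t i = q ^ i := by
    intro i hi
    have h1 := ga ⟨i, by omega⟩
    rw [ea, a0, one_mul] at h1
    exact h1.symm
  have gs : ∀ i, i ≤ m → g.s i = q ^ i := by
    intro i hi
    have h1 := gb ⟨i, by omega⟩
    rw [eb, b0, one_mul] at h1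
    exact h1.symm
  refine ⟨g, hc, gt, gs, ?_⟩
  have hS1 : SplitForm (m + 1) K Ks (fun i => M.a 0 * g.t i) (fun i => M.b 0 * g.s i)
      (phi (m + 1) 1 1 q s) := by
    refine split_congr (A := fun i => 1 * q ^ i) (B := fun i => 1 * q ^ i) hmain ?_ ?_ ?_
    · intro i hi
      beta_reduce
      rw [a0, gt i (by omega)]
    · intro i hi
      beta_reduce
      rw [b0, gs i (by omega)]
    · intro i _ _
      rfl
  intro k hk
  have h3 := split_unique hS hS1 (fun i h1 h2 h3 => by
    rw [b0, one_mul, one_mul] at h3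
    exact g.s_inj 0 i h1 (by omega) h3.symm) (k + 1) (by omega) (by omega)
  beta_reduce at h3
  rw [a0, b0, one_mul, one_mul] at h3
  rw [← h3]
  exact hf k hk

/-- the main parameter arrays of dimension `m + 1` -/
def MainL (m : ℕ) (t s f : ℕ → F) : Prop :=
  ∃ q σ : F, Good (m + 1) 1 1 q σ ∧ (∀ i, i ≤ m → t i = q ^ i) ∧ (∀ i, i ≤ m → s i = q ^ i) ∧
    ∀ k, 1 ≤ k → k ≤ m → f k = phi (m + 1) 1 1 q σ k

theorem MainL.isPA (hm : 1 ≤ m) {t s f : ℕ → F} (h : MainL m t s f) : IsPA m t s f := by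
  obtain ⟨q, σ, hg, ht, hs, hf⟩ := h
  exact IsPA_congr (PA_of_good hm hg) (fun i hi => (ht i hi).symm) (fun i hi => (hs i hi).symm)
    (fun k h1 h2 => (hf k h1 h2).symm)

/-- the frame: from the elimination theorem for closed corners and the constructions to the list of
all parameter arrays -/
theorem isPA_frame (hm : 1 ≤ m) {L : (ℕ → F) → (ℕ → F) → (ℕ → F) → Prop}
    (elim : ∀ g : GForm F m, g.Closed → ∀ f : ℕ → F, g.IsPhi f →
      (∀ i, i ≤ m → g.t i = g.t 1 ^ i ∧ g.s i = g.t 1 ^ i) ∨ L g.t g.s f)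
    (congr : ∀ t s f t' s' : ℕ → F, L t s f → (∀ i, i ≤ m → t i = t' i) →
      (∀ i, i ≤ m → s i = s' i) → L t' s' f)
    (con : ∀ t s f, L t s f → IsPA m t s f) (t s f : ℕ → F) :
    IsPA m t s f ↔ MainL m t s f ∨ L t s f := by
  constructor
  · rintro ⟨g, hc, ht, hs, hf⟩
    rcases elim g hc f hf with h | h
    · left
      obtain ⟨σ, hg, hφ⟩ := good_of_geo hm hc hf (fun i hi => (h i hi).1) (fun i hi => (h i hi).2)
      exact ⟨g.t 1, σ, hg, fun i hi => by rw [← ht i hi, (h i hi).1],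
        fun i hi => by rw [← hs i hi, (h i hi).2], hφ⟩
    · right
      exact congr _ _ _ _ _ h ht hs
  · rintro (h | h)
    · exact h.isPA hm
    · exact con _ _ _ h

end Pool.Agent.Helper31.IPS
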