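import Pool.Agent.Helper31.IPS.ListsIff
import Pool.Agent.Helper31.IPS.C6
import Pool.Agent.Helper54.IP.C4Iff
import Pool.Agent.Helper54.IP.D5PA
import Pool.Agent.Helper82.IP.IsPA4
import Pool.Agent.Helper36.IP.W5Fin
import Pool.Agent.Helper27.IP.N5Fin
import Pool.Agent.Helper82.IP.NDeadK2
import Pool.Agent.Helper85.IP.K2LeafOf
import Pool.Agent.Helper16.IP.K21A
import Pool.Agent.Helper43.IPL.K21B

/-!
TH-P: the list of the parameter arrays in every dimension.
-/

namespace Pool.Agent.Helper31.IPS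

open Pool.Agent.Helper54.IP Pool.Agent.Results.MP_d2f54f_al.Irreducible

variable {F : Type*} [Field F]

/-- the elimination theorem for `m ≥ 6` -/
theorem elim_six {m : ℕ} (hm : 6 ≤ m) (g : GForm F m) :
    ∀ i, i + 1 < m → g.t i = g.t 1 ^ i ∧ g.s i = g.t 1 ^ i :=
  Pool.Agent.Helper82.IP.elim_K2 (Pool.Agent.Helper85.IP.k2_leaf_of hm
    Pool.Agent.Helper16.IP.k21A Pool.Agent.Helper43.IPL.k21_B) g hm

theorem isPA4 (t s f : ℕ → F) : IsPA 4 t s f ↔ MainL 4 t s f ∨ Pool.Agent.Helper82.IP.D5L t s f ∨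
    Pool.Agent.Helper16.IP.D5S t s f ∨ Pool.Agent.Helper36.IP.W5Ex t s f :=
  Pool.Agent.Helper82.IP.isPA4_iff_of (fun _ _ _ h => d5_isPA h)
    (fun _ hc _ hf W => Pool.Agent.Helper36.IP.w5_elim hc W hf)
    (fun _ _ _ _ _ h ht hs => h.congr ht hs) (fun _ _ _ h => h.isPA) t s f

/-- the parameter arrays of dimension `m + 1` are the arrays of the list -/
theorem isArray_iff (m : ℕ) (t s f : ℕ → F) : IsPA m t s f ↔ IsArray (m + 1) t s f := by
  match m with
  | 0 => exact isPA0_iff t s f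
  | 1 => exact (isPA1_iff t s f).trans (Array2_iff t s f).symm
  | 2 => exact (isPA2_iff t s f).trans (Array3_iff t s f).symm
  | 3 =>
    rw [isPA3_iff, IsArray]
    simp only [ArrayD4_iff, ArrayN4_iff, ArrayM4_iff]
  | 4 =>
    rw [isPA4, IsArray, Pool.Agent.Helper36.IP.W5Ex]
    simp only [MainArray_iff, ArrayD5_iff, ArrayR5_iff, ArrayW5_iff]
  | 5 =>
    rw [isPA5_iff (Pool.Agent.Helper27.IP.n5 F), IsArray]
    simp only [MainArray_iff, ArrayE6_iff, ArrayF6_iff]
  | m + 6 =>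
    rw [isPA_iff_large (by omega) (elim_six (by omega)), IsArray]
    exact (MainArray_iff (m + 6) t s f).symm

end Pool.Agent.Helper31.IPS
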