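import Pool.Agent.Helper31.IPS.Exists

/-!
TH-P: the pairs of dimension 2 and 1.
-/

namespace Pool.Agent.Helper31.IPS

open Pool.Agent.Helper54.IP

variable {F : Type*} [Field F]

def sq2 (x : F) : ℕ → F
  | 0 => 1
  | _ => x

def tb2 (p : F) : ℕ → ℕ → F
  | 0, _ => 1
  | _ + 1, 0 => 1
  | _, _ => p

/-- The parameter arrays of the irreducible inverting pairs of dimension 2. -/
structure L2 (t s f : ℕ → F) : Prop where
  t0 : t 0 = 1
  s0 : s 0 = 1
  t1n : t 1 ≠ 0
  s1n : s 1 ≠ 0
  t1d : t 1 ≠ 1
  s1d : s 1 ≠ 1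
  f1 : f 1 ≠ 0
  fn : f 1 + (t 1 - 1) * (s 1 - 1) ≠ 0

theorem L2.isPA {t s f : ℕ → F} (h : L2 t s f) : IsPA 1 t s f := by
  obtain ⟨t0, s0, t1n, s1n, t1d, s1d, f1, fn⟩ := h
  have t1 := sub_ne_zero.2 t1d
  have s1 := sub_ne_zero.2 s1d
  refine ⟨{
    t := sq2 (t 1)
    s := sq2 (s 1)
    G := tb2 (1 + (t 1 - 1) * (s 1 - 1) / f 1)
    H := tb2 (1 + (t 1 - 1) * (s 1 - 1) / f 1)
    lam := fun _ => 1 - (s 1 - 1) / f 1
    mu := fun _ => -(t 1 * (s 1 - 1)) / f 1
    lam' := fun _ => 1 - (t 1 - 1) / f 1
    mu' := fun _ => -(s 1 * (t 1 - 1)) / f 1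
    t0 := rfl
    s0 := rfl
    t_ne := ?_
    s_ne := ?_
    t_inj := ?_
    s_inj := ?_
    G0 := ?_
    G0' := ?_
    H0 := ?_
    H0' := ?_
    U1 := ?_
    U2 := ?_
    V1 := ?_
    V2 := ?_
    lam_ne := ?_
    mu_ne := ?_
    lm_ne := ?_
    lam'_ne := ?_
    mu'_ne := ?_
    lm'_ne := ?_ }, ⟨?_, ?_⟩, ?_, ?_, ?_⟩
  · intro i hi
    interval_cases i
    · exact one_ne_zero
    · exact t1n
  · intro i hi
    interval_cases i
    · exact one_ne_zero
    · exact s1n
  · intro i j hij hj
    interval_cases j <;> interval_cases i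
    exact fun e => t1d e.symm
  · intro i j hij hj
    interval_cases j <;> interval_cases i
    exact fun e => s1d e.symm
  · intro j _; cases j <;> rfl
  · intro k _; rfl
  · intro j _; cases j <;> rfl
  · intro k _; rfl
  · intro j k hj hk
    interval_cases j <;> interval_cases k <;> simp only [sq2, tb2] <;> field_simp <;> ring
  · intro j k hj hk
    interval_cases j <;> interval_cases k <;> simp only [sq2, tb2] <;> field_simp <;> ring
  · intro j k hj hk
    interval_cases j <;> interval_cases k <;> simp only [sq2, tb2] <;> field_simp <;> ring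
  · intro j k hj hk
    interval_cases j <;> interval_cases k <;> simp only [sq2, tb2] <;> field_simp <;> ring
  · intro k _ e
    have h1 : (s 1 - 1) / f 1 = 0 := by linear_combination -e
    exact div_ne_zero s1 f1 h1
  · intro k _
    exact div_ne_zero (neg_ne_zero.2 (mul_ne_zero t1n s1)) f1
  · intro k _ e
    apply fn
    field_simp at e
    linear_combination e
  · intro k _ e
    have h1 : (t 1 - 1) / f 1 = 0 := by linear_combination -e
    exact div_ne_zero t1 f1 h1
  · intro k _
    exact div_ne_zero (neg_ne_zero.2 (mul_ne_zero s1n t1)) f1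
  · intro k _ e
    apply fn
    field_simp at e
    linear_combination e
  · intro j hj
    interval_cases j <;> simp only [sq2, tb2, pow_one]
  · intro j hj
    interval_cases j <;> simp only [sq2, tb2, pow_one]
  · intro i hi
    interval_cases i
    · exact t0.symm
    · rfl
  · intro i hi
    interval_cases i
    · exact s0.symm
    · rfl
  · intro k hk
    interval_cases k
    simp only [Finset.range_zero, Finset.prod_empty, one_mul, zero_add, Finset.range_one,
      Finset.prod_singleton, sq2]
    field_simp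
    ring

theorem isPA1_iff (t s f : ℕ → F) : IsPA 1 t s f ↔ L2 t s f := by
  constructor
  · rintro ⟨g, hc, ht, hs, hf⟩
    have e0 := ht 0 (by omega)
    have e1 := ht 1 (by omega)
    have d0 := hs 0 (by omega)
    have d1 := hs 1 (by omega)
    rw [g.t0] at e0
    rw [g.s0] at d0
    have h1 := hf 0 (by omega)
    simp only [Finset.range_zero, Finset.prod_empty, one_mul, zero_add, Finset.range_one,
      Finset.prod_singleton, g.s0] at h1
    have f0 := IsPhi_ne hf (k := 0) (by omega)
    have hG := hc.G_ne (j := 1) le_rfl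
    have u := g.U1 1 0 le_rfl (by omega)
    rw [zero_add, g.G0 1 le_rfl, g.H0 1 le_rfl] at u
    refine ⟨e0.symm, d0.symm, ?_, ?_, ?_, ?_, f0, ?_⟩
    · rw [← e1]; exact g.t_ne 1 le_rfl
    · rw [← d1]; exact g.s_ne 1 le_rfl
    · rw [← e1, ← g.t0]; exact (g.t_inj 0 1 (by omega) le_rfl).symm
    · rw [← d1, ← g.s0]; exact (g.s_inj 0 1 (by omega) le_rfl).symm
    · rw [← e1, ← d1]
      intro h
      apply mul_ne_zero f0 hG
      rw [u, zero_add]
      linear_combination h + (g.t 1 - 1) * h1
  · exact fun h => h.isPA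

/-- dimension 1 -/
theorem classify_one {V : Type*} [AddCommGroup V] [Module F V] (K Ks : V ≃ₗ[F] V) :
    (IsInvertingPair 1 K Ks ∧ Irred K Ks) ↔
      ∃ a b : F, a ≠ 0 ∧ b ≠ 0 ∧ SplitForm 1 K Ks (fun _ => a) (fun _ => b) (fun _ => 0) := by
  constructor
  · rintro ⟨⟨⟨e, -, -, -⟩, -⟩, -⟩
    have h : ∀ y : V, y = e.repr y 0 • e 0 := by
      intro y
      conv_lhs => rw [← e.sum_repr y]
      rw [Fin.sum_univ_one]
    have h0 := e.ne_zero 0
    refine ⟨e.repr (K.symm (e 0)) 0, e.repr (Ks (e 0)) 0, ?_, ?_, e, ?_, ?_⟩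
    · intro h1
      have h2 := h (K.symm (e 0))
      rw [h1, zero_smul] at h2
      exact h0 (by simpa using h2)
    · intro h1
      have h2 := h (Ks (e 0))
      rw [h1, zero_smul] at h2
      exact h0 (by simpa using h2)
    · intro i
      have : i = 0 := Subsingleton.elim _ _
      subst this
      rw [dif_neg (by simp), add_zero]
      exact h _
    · intro i
      have : i = 0 := Subsingleton.elim _ _
      subst this
      rw [dif_neg (by simp), add_zero]
      exact h _
  · rintro ⟨a, b, ha, hb, x, hA, hB⟩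
    have hA0 := hA 0
    have hB0 := hB 0
    rw [dif_neg (by simp), add_zero] at hA0 hB0
    refine ⟨⟨⟨x, ?_, ?_, ?_⟩, ⟨x, ?_, ?_, ?_⟩⟩, ⟨x 0, 0, x.ne_zero 0⟩, fun U _ _ => ?_⟩
    · intro i j hij; omega
    · intro i j hij; omega
    · intro i j hij; exact absurd (Subsingleton.elim i j) hij
    · intro i j hij; omega
    · intro i j hij; omega
    · intro i j hij; exact absurd (Subsingleton.elim i j) hij
    · by_cases hU : U = ⊥
      · exact Or.inl hU
      right
      obtain ⟨u, hu, hu0⟩ := (Submodule.ne_bot_iff U).1 hU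
      have h : ∀ y : V, y = x.repr y 0 • x 0 := by
        intro y
        conv_lhs => rw [← x.sum_repr y]
        rw [Fin.sum_univ_one]
      have h1 : x.repr u 0 ≠ 0 := by
        intro h1
        apply hu0
        rw [h u, h1, zero_smul]
      have h2 : x 0 ∈ U := by
        have : x 0 = (x.repr u 0)⁻¹ • u := by
          rw [eq_inv_smul_iff₀ h1]
          exact (h u).symm
        rw [this]
        exact U.smul_mem _ hu
      rw [eq_top_iff]
      intro y _
      rw [h y]
      exact U.smul_mem _ h2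

end Pool.Agent.Helper31.IPS
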