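import Pool.Agent.Helper31.IPS.C6

/-!
TH-P: dimension `n ≥ 7`: from the weak elimination theorem to the list of all parameter arrays.
-/

namespace Pool.Agent.Helper31.IPS

open Pool.Agent.Helper54.IP

variable {F : Type*} [Field F] {m : ℕ}

theorem tail_s (hm : 4 ≤ m)
    (elim : ∀ g : GForm F m, ∀ i, i + 1 < m → g.t i = g.t 1 ^ i ∧ g.s i = g.t 1 ^ i)
    (g : GForm F m) (hc : g.Closed) (i : ℕ) (hi : i ≤ m) : g.s i = g.t 1 ^ i := by
  rcases Nat.lt_or_ge (i + 1) m with h | h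
  · exact (elim g i h).2
  have hq : g.t 1 ≠ 0 := g.t_ne 1 (by omega)
  have key : ∀ k, k + 1 < m → g.s (m - k) * g.t 1 ^ k = g.s m := by
    intro k hk
    have h1 := (elim (g.rev hc) k hk).2
    simp only [GForm.rev_t, GForm.rev_s] at h1
    have h2 := g.s_ne m le_rfl
    rw [inv_pow, div_eq_iff h2] at h1
    rw [h1]
    have := pow_ne_zero k hq
    field_simp
  have h2 := key (m - 2) (by omega)
  have e2 : m - (m - 2) = 2 := by omega
  rw [e2, (elim g 2 (by omega)).2, ← pow_add, show 2 + (m - 2) = m by omega] at h2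
  have h3 := key (m - i) (by omega)
  have e3 : m - (m - i) = i := by omega
  rw [e3, ← h2, show g.t 1 ^ m = g.t 1 ^ i * g.t 1 ^ (m - i) by rw [← pow_add]; congr 1; omega]
    at h3
  exact mul_right_cancel₀ (pow_ne_zero _ hq) h3

/-- the full elimination theorem for closed corners from the weak one -/
theorem elim_closed (hm : 4 ≤ m)
    (elim : ∀ g : GForm F m, ∀ i, i + 1 < m → g.t i = g.t 1 ^ i ∧ g.s i = g.t 1 ^ i)
    (g : GForm F m) (hc : g.Closed) (i : ℕ) (hi : i ≤ m) :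
    g.t i = g.t 1 ^ i ∧ g.s i = g.t 1 ^ i := by
  refine ⟨?_, tail_s hm elim g hc i hi⟩
  have h1 := tail_s hm elim g.swap hc.swap i hi
  simp only [GForm.swap_t, GForm.swap_s] at h1
  rw [h1, (elim g 1 (by omega)).2, pow_one]

/-- dimension `m + 1 ≥ 7` -/
theorem isPA_iff_large (hm : 4 ≤ m)
    (elim : ∀ g : GForm F m, ∀ i, i + 1 < m → g.t i = g.t 1 ^ i ∧ g.s i = g.t 1 ^ i)
    (t s f : ℕ → F) : IsPA m t s f ↔ MainL m t s f :=
  isPA_main_iff (by omega) (fun g hc i hi => elim_closed hm elim g hc i hi) t s f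

end Pool.Agent.Helper31.IPS
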