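import Pool.Agent.Helper54.IP.CForm

/-!
TH-P: the columns of a closed corner: `t G_k` is a combination of `G_0, .., G_(k+1)` and `t⁻¹ G_k` is a
combination of `G_(k-1), .., G_m`.
-/

namespace Pool.Agent.Helper31.IPS

open Pool.Agent.Helper54.IP Finset

variable {F : Type*} [Field F] {m : ℕ}

/-- `y` is the combination `c` of the columns of `g` -/
def Comb (g : GForm F m) (y : ℕ → F) (c : ℕ → F) : Prop :=
  ∀ j, j ≤ m → y j = ∑ l ∈ range (m + 1), c l * g.G j l

theorem Comb.col (g : GForm F m) {k : ℕ} (hk : k ≤ m) :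
    Comb g (fun j => g.G j k) (fun l => if l = k then 1 else 0) := by
  intro j _
  beta_reduce
  rw [Finset.sum_eq_single k]
  · rw [if_pos rfl, one_mul]
  · intro l _ hl
    rw [if_neg hl, zero_mul]
  · intro h
    exact absurd (mem_range.2 (by omega)) h

theorem Comb.add {g : GForm F m} {y z c d : ℕ → F} (h : Comb g y c) (h' : Comb g z d) (a b : F) :
    Comb g (fun j => a * y j + b * z j) (fun l => a * c l + b * d l) := by
  intro j hj
  beta_reduce
  rw [h j hj, h' j hj, mul_sum, mul_sum, ← sum_add_distrib]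
  exact sum_congr rfl fun l _ => by ring

/-- `t^k H_k` is a combination of `G_0, .., G_k` -/
theorem colH (g : GForm F m) : ∀ k, k ≤ m → ∃ c : ℕ → F,
    Comb g (fun j => g.t j ^ k * g.H j k) c ∧ ∀ l, k < l → c l = 0 := by
  intro k
  induction k with
  | zero =>
    intro _
    refine ⟨fun l => if l = 0 then 1 else 0, fun j hj => ?_, fun l hl => if_neg (by omega)⟩
    have := Comb.col g (k := 0) (by omega) j hj
    simp only at this ⊢
    rw [← this, pow_zero, g.H0 j hj, g.G0 j hj, one_mul]
  | succ k ih =>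
    intro hk
    obtain ⟨c, hc, h0⟩ := ih (by omega)
    have hl : 1 - g.lam k ≠ 0 := sub_ne_zero.2 (g.lam_ne k (by omega)).symm
    refine ⟨fun l => (1 - g.mu k) / (1 - g.lam k) * (if l = k + 1 then 1 else 0) +
      (g.mu k - (1 - g.mu k) * g.lam k / (1 - g.lam k)) * c l, fun j hj => ?_, fun l hl => ?_⟩
    · rw [← (Comb.col g hk).add hc _ _ j hj]
      simp only
      rw [g.U2 j k hj (by omega), g.U1 j k hj (by omega)]
      field_simp
      ring
    · beta_reduce
      rw [if_neg (by omega), h0 l (by omega)]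
      ring

theorem colU (g : GForm F m) {k : ℕ} (hk : k < m) : ∃ c : ℕ → F,
    Comb g (fun j => g.t j * g.G j k) c ∧ (∀ l, k + 1 < l → c l = 0) ∧ c (k + 1) ≠ 0 := by
  obtain ⟨c, hc, h0⟩ := colH g k (by omega)
  have hl : 1 - g.lam k ≠ 0 := sub_ne_zero.2 (g.lam_ne k hk).symm
  refine ⟨fun l => (1 - g.lam k)⁻¹ * (if l = k + 1 then 1 else 0) +
      (-(g.lam k / (1 - g.lam k))) * c l, fun j hj => ?_, fun l hl => ?_, ?_⟩
  · rw [← (Comb.col g (k := k + 1) hk).add hc _ _ j hj]
    simp only
    rw [g.U1 j k hj (by omega)]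
    field_simp
    ring
  · beta_reduce
    rw [if_neg (by omega), h0 l (by omega)]
    ring
  · beta_reduce
    rw [if_pos rfl, h0 (k + 1) (by omega), mul_zero, add_zero, mul_one]
    exact inv_ne_zero hl

/-- `t^(k-1) H_k` is a combination of `G_k, .., G_m` -/
theorem colH' {g : GForm F m} (h : g.Closed) : ∀ p k, k + p = m → ∃ c : ℕ → F,
    Comb g (fun j => (g.t j)⁻¹ * (g.t j ^ k * g.H j k)) c ∧ ∀ l, l < k → c l = 0 := by
  intro p
  induction p with
  | zero =>
    intro k hk
    have hk : k = m := by omega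
    subst hk
    refine ⟨fun l => if l = k then 1 else 0, fun j hj => ?_, fun l hl => if_neg (by omega)⟩
    have := Comb.col g (k := k) le_rfl j hj
    simp only at this ⊢
    rw [← this, ← h.row j hj, inv_mul_cancel_left₀ (g.t_ne j hj)]
  | succ p ih =>
    intro k hk
    obtain ⟨c, hc, h0⟩ := ih (k + 1) (by omega)
    have hl := g.mu_ne k (by omega)
    refine ⟨fun l => (-((1 - g.mu k) / g.mu k)) * (if l = k then 1 else 0) +
      (g.mu k)⁻¹ * c l, fun j hj => ?_, fun l hl => ?_⟩
    · rw [← (Comb.col g (k := k) (by omega)).add hc _ _ j hj]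
      simp only
      rw [g.U2 j k hj (by omega)]
      have := g.t_ne j hj
      field_simp
      ring
    · beta_reduce
      rw [if_neg (by omega), h0 l (by omega)]
      ring

theorem colD {g : GForm F m} (h : g.Closed) {k : ℕ} (hk : k < m) : ∃ c : ℕ → F,
    Comb g (fun j => (g.t j)⁻¹ * g.G j (k + 1)) c ∧ ∀ l, l < k → c l = 0 := by
  obtain ⟨c, hc, h0⟩ := colH' h (m - k) k (by omega)
  refine ⟨fun l => (1 - g.lam k) * (if l = k then 1 else 0) + g.lam k * c l, fun j hj => ?_,
    fun l hl => ?_⟩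
  · rw [← (Comb.col g (k := k) (by omega)).add hc _ _ j hj]
    simp only
    rw [g.U1 j k hj (by omega)]
    have := g.t_ne j hj
    field_simp
  · beta_reduce
    rw [if_neg (by omega), h0 l (by omega)]
    ring

end Pool.Agent.Helper31.IPS
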