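import Pool.Agent.Helper31.IPS.Cyc

/-!
TH-P: the conjugacy criterion, general dimension.
-/

namespace Pool.Agent.Helper31.IPS

open Pool.Agent.Helper54.IP Pool.Agent.Helper14.IP Finset

variable {F : Type*} [Field F] {m : ℕ} {V V' : Type*} [AddCommGroup V] [Module F V]
  [AddCommGroup V'] [Module F V']

theorem hess_v {g : GForm F m} {a : F} {K : V ≃ₗ[F] V} (v w : Module.Basis (Fin (m + 1)) F V)
    (hw : ∀ j : Fin (m + 1), K.symm (w j) = (a * g.t j) • w j)
    (hG : ∀ j k : Fin (m + 1), w.repr (v k) j = g.G j k) (i j : Fin (m + 1))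
    (hij : (j : ℕ) + 1 < i) : v.repr ((K.symm : V →ₗ[F] V) (v j)) i = 0 := by
  obtain ⟨c, hcc, h0, -⟩ := colU g (k := j) (by omega)
  rw [diag_cols v w (K.symm : V →ₗ[F] V) (fun j => a * g.t j) hw j
    (fun l => a * c l) ?_ i, h0 i (by omega), mul_zero]
  intro i'
  rw [hG]
  have := comb_fin hcc (j := i')
  rw [mul_assoc, this, mul_sum]
  exact sum_congr rfl fun l _ => by rw [hG, mul_assoc]

theorem hess_w {g : GForm F m} {b : F} {Ks : V ≃ₗ[F] V} (v w : Module.Basis (Fin (m + 1)) F V)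
    (hv : ∀ k : Fin (m + 1), Ks (v k) = (b * g.s k) • v k)
    (hG : ∀ j k : Fin (m + 1), w.repr (v k) j = g.G j k) (i j : Fin (m + 1))
    (hij : (i : ℕ) + 1 < j) : w.repr ((Ks : V →ₗ[F] V) (w j)) i = 0 := by
  obtain ⟨c, hcc, h0, -⟩ := colU g.swap (k := i) (by omega)
  rw [diag_rows v w (Ks : V →ₗ[F] V) (fun k => b * g.s k) hv i
    (fun l => b * c l) ?_ j, h0 j (by omega), mul_zero]
  intro k'
  rw [hG]
  have := comb_fin hcc (j := k')
  simp only [GForm.swap_t, GForm.swap_G] at this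
  rw [mul_assoc, this, mul_sum]
  exact sum_congr rfl fun l _ => by rw [hG, mul_assoc]

/-- the eigenbases of a split form from a parameter array -/
theorem bases_PA {t s f : ℕ → F} (h : IsPA m t s f) {a b : F} (ha : a ≠ 0) (hb : b ≠ 0)
    {K Ks : V ≃ₗ[F] V}
    (hS : SplitForm (m + 1) K Ks (fun i => a * t i) (fun i => b * s i) (fun i => a * b * f i)) :
    ∃ (v w : Module.Basis (Fin (m + 1)) F V) (g : GForm F m), g.Closed ∧
      (∀ i, i ≤ m → g.t i = t i) ∧ (∀ i, i ≤ m → g.s i = s i) ∧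
      (∀ j : Fin (m + 1), K.symm (w j) = (a * g.t j) • w j) ∧
      (∀ k : Fin (m + 1), Ks (v k) = (b * g.s k) • v k) ∧
      (∀ j k : Fin (m + 1), w.repr (v k) j = g.G j k) ∧
      ∀ j k : Fin (m + 1), g.G j k = nsum m t s f j k := by
  obtain ⟨g, hc, ht, hs, hf⟩ := h
  obtain ⟨v, w, hw, hv, hG⟩ := bases hf ha hb
    (split_congr hS (fun i hi => by beta_reduce; rw [ht i (by omega)]) (fun i hi => by
      beta_reduce; rw [hs i (by omega)]) (fun i _ _ => rfl))
  refine ⟨v, w, g, hc, ht, hs, hw, hv, hG, fun j k => ?_⟩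
  rw [G_nsum hf (by omega) (by omega), nsum, nsum]
  refine sum_congr rfl fun l hl => ?_
  rw [mem_range] at hl
  congr 1
  congr 1
  · refine prod_congr rfl fun i hi => ?_
    rw [mem_range] at hi
    rw [ht j (by omega), ht i (by omega)]
  · refine prod_congr rfl fun i hi => ?_
    rw [mem_range] at hi
    rw [hs k (by omega), hs i (by omega)]

/-- The rotation `(p, r)` takes the array `(t, s, f)` to `(t', s', f')`. -/
def Rot (m : ℕ) (a b : F) (t s f : ℕ → F) (a' b' : F) (t' s' f' : ℕ → F) (p r : Fin (m + 1)) :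
    Prop :=
  (∀ i : Fin (m + 1), a' * t' i = a * t (i + p : Fin (m + 1))) ∧
  (∀ i : Fin (m + 1), b' * s' i = b * s (i + r : Fin (m + 1))) ∧
  (∀ j : Fin (m + 1), nsum m t s f j r ≠ 0) ∧
  (∀ k : Fin (m + 1), nsum m t s f p k ≠ 0) ∧
  ∀ j k : Fin (m + 1), nsum m t' s' f' j k *
      (nsum m t s f (j + p : Fin (m + 1)) r * nsum m t s f p (k + r : Fin (m + 1))) =
    nsum m t s f (j + p : Fin (m + 1)) (k + r : Fin (m + 1)) * nsum m t s f p r

theorem inj_t (g : GForm F m) {a : F} (ha : a ≠ 0) :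
    Function.Injective (fun k : Fin (m + 1) => a * g.t k) := by
  intro i j h
  have h := mul_left_cancel₀ ha h
  rcases lt_trichotomy i j with h1 | h1 | h1
  · exact absurd h (g.t_inj i j h1 (by omega))
  · exact h1
  · exact absurd h.symm (g.t_inj j i h1 (by omega))

/-- two split forms of the same pair differ by a rotation -/
theorem rot_of_split {t s f t' s' f' : ℕ → F} (h : IsPA m t s f) (h' : IsPA m t' s' f')
    {a b a' b' : F} (ha : a ≠ 0) (hb : b ≠ 0) (ha' : a' ≠ 0) (hb' : b' ≠ 0) {K Ks : V ≃ₗ[F] V}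
    (hS : SplitForm (m + 1) K Ks (fun i => a * t i) (fun i => b * s i) (fun i => a * b * f i))
    (hS' : SplitForm (m + 1) K Ks (fun i => a' * t' i) (fun i => b' * s' i)
      (fun i => a' * b' * f' i)) : ∃ p r : Fin (m + 1), Rot m a b t s f a' b' t' s' f' p r := by
  obtain ⟨v, w, g, hc, ht, hs, hw, hv, hG, hN⟩ := bases_PA h ha hb hS
  obtain ⟨v', w', g', hc', ht', hs', hw', hv', hG', hN'⟩ := bases_PA h' ha' hb' hS'
  have Mv : ∀ k : Fin (m + 1), ∃ i : Fin (m + 1), b' * g'.s k = b * g.s i ∧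
      ∃ c : F, c ≠ 0 ∧ v' k = c • v i := fun k =>
    eig_match Ks v (fun k => b * g.s k) (inj_t g.swap hb) hv (v' k) (v'.ne_zero k) _ (hv' k)
  choose σ hσ c hc0 hvc using Mv
  have Mw : ∀ k : Fin (m + 1), ∃ i : Fin (m + 1), a' * g'.t k = a * g.t i ∧
      ∃ c : F, c ≠ 0 ∧ w' k = c • w i := fun k =>
    eig_match K.symm w (fun k => a * g.t k) (inj_t g ha) hw (w' k) (w'.ne_zero k) _ (hw' k)
  choose τ hτ d hd0 hwd using Mw
  have oσ := cyc_order (K.symm : V →ₗ[F] V) v v' σ c hc0 hvc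
    (fun k => step_v (b := b) hc ha v w hw hG k) (fun i j hij => hess_v v' w' hw' hG' i j hij)
  have oτ := cyc_order' (Ks : V →ₗ[F] V) w w' τ d hd0 hwd
    (fun i => step_w (a := a) hc hb v w hv hG i) (fun i j hij => hess_w v' w' hv' hG' i j hij)
  have τinj : Function.Injective τ := by
    intro i j hij
    rw [oτ i, oτ j] at hij
    exact add_left_cancel hij
  have τsurj : Function.Surjective τ := Finite.surjective_of_injective τinj
  -- comparison
  have cmp : ∀ j k : Fin (m + 1), g'.G j k * d j = c k * g.G (τ j) (σ k) := by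
    intro j k
    have e1 : v' k = ∑ i : Fin (m + 1), g'.G i k • w' i := by
      conv_lhs => rw [← w'.sum_repr (v' k)]
      exact sum_congr rfl fun i _ => by rw [hG']
    have e2 : w.repr (v' k) (τ j) = w.repr (∑ i : Fin (m + 1), g'.G i k • w' i) (τ j) := by
      rw [← e1]
    rw [hvc, map_smul, Finsupp.smul_apply, hG, smul_eq_mul, map_sum, Finsupp.finsetSum_apply,
      sum_eq_single j] at e2
    · rw [hwd, map_smul, map_smul, Finsupp.smul_apply, Finsupp.smul_apply, w.repr_self,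
        Finsupp.single_eq_same, smul_eq_mul, smul_eq_mul, mul_one] at e2
      exact e2.symm
    · intro i _ hi
      rw [hwd, map_smul, map_smul, Finsupp.smul_apply, Finsupp.smul_apply, w.repr_self,
        Finsupp.single_eq_of_ne (fun h => hi (τinj h.symm)), smul_zero, smul_zero]
    · intro h
      exact absurd (mem_univ _) h
  have c0k : ∀ k : Fin (m + 1), d 0 = c k * g.G (τ 0) (σ k) := by
    intro k
    have := cmp 0 k
    rw [Fin.val_zero, g'.G0' k (by omega), one_mul] at this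
    exact this
  have cj0 : ∀ j : Fin (m + 1), d j = c 0 * g.G (τ j) (σ 0) := by
    intro j
    have := cmp j 0
    rw [Fin.val_zero, g'.G0 j (by omega), one_mul] at this
    exact this
  have ne1 : ∀ k : Fin (m + 1), g.G (τ 0) (σ k) ≠ 0 := by
    intro k h
    apply hd0 0
    rw [c0k k, h, mul_zero]
  have ne2 : ∀ j : Fin (m + 1), g.G (τ j) (σ 0) ≠ 0 := by
    intro j h
    apply hd0 j
    rw [cj0 j, h, mul_zero]
  refine ⟨τ 0, σ 0, ?_, ?_, ?_, ?_, ?_⟩
  · intro i
    rw [← ht' i (by omega), hτ i, oτ i, add_comm (τ 0) i,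
      ht _ (Nat.lt_succ_iff.1 (i + τ 0).2)]
  · intro i
    rw [← hs' i (by omega), hσ i, oσ i, add_comm (σ 0) i,
      hs _ (Nat.lt_succ_iff.1 (i + σ 0).2)]
  · intro j
    obtain ⟨i, rfl⟩ := τsurj j
    rw [← hN]
    exact ne2 i
  · intro k
    rw [← hN]
    have := ne1 (k - σ 0)
    rwa [oσ, add_sub_cancel] at this
  · intro j k
    have n1 := ne1 k
    have n2 := ne2 j
    have n3 := ne1 0
    have e1 := cmp j k
    have e2 := c0k k
    have e3 := cj0 j
    have e4 := cj0 0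
    rw [oτ j, oσ k] at e1
    rw [oσ k] at e2
    rw [oτ j] at e3
    rw [← hN, ← hN, ← hN, ← hN, ← hN', add_comm j, add_comm k]
    have hc00 := hc0 0
    apply mul_left_cancel₀ hc00
    rw [e3] at e1
    linear_combination (g.G (τ 0) (σ 0 + k : Fin (m + 1))) * e1 -
      g.G (τ 0 + j : Fin (m + 1)) (σ 0 + k : Fin (m + 1)) * e2 +
      g.G (τ 0 + j : Fin (m + 1)) (σ 0 + k : Fin (m + 1)) * e4

/-- a rotation gives conjugate pairs -/
theorem conj_of_rot {t s f t' s' f' : ℕ → F} (h : IsPA m t s f) (h' : IsPA m t' s' f')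
    {a b a' b' : F} (ha : a ≠ 0) (hb : b ≠ 0) (ha' : a' ≠ 0) (hb' : b' ≠ 0)
    {K Ks : V ≃ₗ[F] V} {K' Ks' : V' ≃ₗ[F] V'}
    (hS : SplitForm (m + 1) K Ks (fun i => a * t i) (fun i => b * s i) (fun i => a * b * f i))
    (hS' : SplitForm (m + 1) K' Ks' (fun i => a' * t' i) (fun i => b' * s' i)
      (fun i => a' * b' * f' i)) {p r : Fin (m + 1)}
    (hR : Rot m a b t s f a' b' t' s' f' p r) :
    ∃ g : V ≃ₗ[F] V', (∀ v, g (K v) = K' (g v)) ∧ ∀ v, g (Ks v) = Ks' (g v) := by
  obtain ⟨v, w, g, hc, ht, hs, hw, hv, hG, hN⟩ := bases_PA h ha hb hS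
  obtain ⟨v', w', g', hc', ht', hs', hw', hv', hG', hN'⟩ := bases_PA h' ha' hb' hS'
  obtain ⟨r1, r2, r3, r4, r5⟩ := hR
  set γ : Fin (m + 1) → F := fun j => (nsum m t s f j r)⁻¹ with hγ
  have γ0 : ∀ j, γ j ≠ 0 := fun j => inv_ne_zero (r3 j)
  set w'' : Module.Basis (Fin (m + 1)) F V' :=
    (w'.reindex (Equiv.addRight p)).unitsSMul (fun j => Units.mk0 (γ j) (γ0 j)) with hw''
  have ew : ∀ j, w'' j = γ j • w' (j - p) := by
    intro j
    rw [hw'', Module.Basis.unitsSMul_apply, Module.Basis.reindex_apply, Units.smul_def,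
      Units.val_mk0, Equiv.addRight_symm, Equiv.coe_addRight]
    beta_reduce
    rw [← sub_eq_add_neg]
  set T : V ≃ₗ[F] V' := w.equiv w'' (Equiv.refl _) with hT
  have eT : ∀ j, T (w j) = γ j • w' (j - p) := fun j => by rw [hT, Module.Basis.equiv_apply,
    Equiv.refl_apply, ew]
  -- image of the eigenvectors of `Ks`
  have ev : ∀ k, T (v k) = (nsum m t s f p k / nsum m t s f p r) • v' (k - r) := by
    intro k
    have e1 : v k = ∑ j : Fin (m + 1), g.G j k • w j := by
      conv_lhs => rw [← w.sum_repr (v k)]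
      exact sum_congr rfl fun i _ => by rw [hG]
    have e2 : v' (k - r) = ∑ j : Fin (m + 1), g'.G j (k - r : Fin (m + 1)) • w' j := by
      conv_lhs => rw [← w'.sum_repr (v' (k - r))]
      exact sum_congr rfl fun i _ => by rw [hG']
    rw [e1, e2, map_sum, smul_sum]
    rw [← Equiv.sum_comp (Equiv.addRight p) (fun i => T (g.G i k • w i))]
    refine sum_congr rfl fun j _ => ?_
    have e3 : (Equiv.addRight p) j = j + p := rfl
    rw [e3, map_smul, eT, add_sub_cancel_right, smul_smul, smul_smul]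
    congr 1
    have e4 := r5 j (k - r)
    rw [sub_add_cancel] at e4
    rw [hN, hN', hγ]
    have n1 := r3 (j + p)
    have n2 := r4 r
    have n3 := r4 k
    beta_reduce
    field_simp
    linear_combination -e4
  have e1 : ∀ y, T (K.symm y) = K'.symm (T y) := by
    intro y
    have : (T : V →ₗ[F] V') ∘ₗ (K.symm : V →ₗ[F] V) = (K'.symm : V' →ₗ[F] V') ∘ₗ (T : V →ₗ[F] V') := by
      refine w.ext fun i => ?_
      simp only [LinearMap.comp_apply, LinearEquiv.coe_coe]
      rw [hw, map_smul, eT, map_smul, hw', smul_smul, smul_smul, mul_comm]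
      congr 1
      have := r1 (i - p)
      rw [sub_add_cancel] at this
      rw [ht i (by omega), ht' _ (Nat.lt_succ_iff.1 (i - p).2), ← this]
    exact LinearMap.congr_fun this y
  have e2 : ∀ y, T (Ks y) = Ks' (T y) := by
    intro y
    have : (T : V →ₗ[F] V') ∘ₗ (Ks : V →ₗ[F] V) = (Ks' : V' →ₗ[F] V') ∘ₗ (T : V →ₗ[F] V') := by
      refine v.ext fun i => ?_
      simp only [LinearMap.comp_apply, LinearEquiv.coe_coe]
      rw [hv, map_smul, ev, map_smul, hv', smul_smul, smul_smul, mul_comm]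
      congr 1
      have := r2 (i - r)
      rw [sub_add_cancel] at this
      rw [hs i (by omega), hs' _ (Nat.lt_succ_iff.1 (i - r).2), ← this]
    exact LinearMap.congr_fun this y
  refine ⟨T, fun y => ?_, e2⟩
  have := e1 (K y)
  rw [LinearEquiv.symm_apply_apply] at this
  rw [this, LinearEquiv.apply_symm_apply]

/-- **the conjugacy criterion** -/
theorem conj_iff {t s f t' s' f' : ℕ → F} (h : IsPA m t s f) (h' : IsPA m t' s' f')
    {a b a' b' : F} (ha : a ≠ 0) (hb : b ≠ 0) (ha' : a' ≠ 0) (hb' : b' ≠ 0)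
    {K Ks : V ≃ₗ[F] V} {K' Ks' : V' ≃ₗ[F] V'}
    (hS : SplitForm (m + 1) K Ks (fun i => a * t i) (fun i => b * s i) (fun i => a * b * f i))
    (hS' : SplitForm (m + 1) K' Ks' (fun i => a' * t' i) (fun i => b' * s' i)
      (fun i => a' * b' * f' i)) :
    (∃ g : V ≃ₗ[F] V', (∀ v, g (K v) = K' (g v)) ∧ ∀ v, g (Ks v) = Ks' (g v)) ↔
      ∃ p r : Fin (m + 1), Rot m a b t s f a' b' t' s' f' p r := by
  constructor
  · rintro ⟨g, h1, h2⟩
    exact rot_of_split h h' ha hb ha' hb' (split_transport hS g h1 h2) hS'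
  · rintro ⟨p, r, hR⟩
    exact conj_of_rot h h' ha hb ha' hb' hS hS' hR

end Pool.Agent.Helper31.IPS
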