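import Pool.Agent.Helper31.IPS.C2
import Pool.Agent.Helper14.IP.Order

/-!
TH-P: the order of the eigenvectors is unique up to a cyclic rotation.
-/

namespace Pool.Agent.Helper31.IPS

open Pool.Agent.Helper54.IP Pool.Agent.Helper14.IP Finset

variable {F : Type*} [Field F] {m : ℕ}

/-- `t^k H_k` is a combination of `G_0, .., G_k`, with a nonzero coefficient of `G_0` -/
theorem colH0 (g : GForm F m) : ∀ k, k ≤ m → ∃ c : ℕ → F,
    Comb g (fun j => g.t j ^ k * g.H j k) c ∧ c 0 ≠ 0 := by
  intro k
  induction k with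
  | zero =>
    intro _
    refine ⟨fun l => if l = 0 then 1 else 0, fun j hj => ?_, by simp⟩
    have := Comb.col g (k := 0) (by omega) j hj
    simp only at this ⊢
    rw [← this, pow_zero, g.H0 j hj, g.G0 j hj, one_mul]
  | succ k ih =>
    intro hk
    obtain ⟨c, hc, h0⟩ := ih (by omega)
    have hl : 1 - g.lam k ≠ 0 := sub_ne_zero.2 (g.lam_ne k (by omega)).symm
    refine ⟨fun l => (1 - g.mu k) / (1 - g.lam k) * (if l = k + 1 then 1 else 0) +
      (g.mu k - (1 - g.mu k) * g.lam k / (1 - g.lam k)) * c l, fun j hj => ?_, ?_⟩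
    · rw [← (Comb.col g hk).add hc _ _ j hj]
      simp only
      rw [g.U2 j k hj (by omega), g.U1 j k hj (by omega)]
      field_simp
      ring
    · beta_reduce
      rw [if_neg (by omega), mul_zero, zero_add]
      refine mul_ne_zero (fun h => g.lm_ne k (by omega) ?_) h0
      field_simp at h
      linear_combination -h

/-- the last column wraps around -/
theorem colC {g : GForm F m} (h : g.Closed) : ∃ c : ℕ → F,
    Comb g (fun j => g.t j * g.G j m) c ∧ c 0 ≠ 0 := by
  obtain ⟨c, hc, h0⟩ := colH0 g m le_rfl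
  refine ⟨c, fun j hj => ?_, h0⟩
  rw [← hc j hj]
  exact h.row j hj

variable {V : Type*} [AddCommGroup V] [Module F V]

/-- `K⁻¹ v_k` has a nonzero `v_(k+1)`-coordinate, cyclically -/
theorem step_v {g : GForm F m} (hc : g.Closed) {a b : F} (ha : a ≠ 0)
    {K : V ≃ₗ[F] V} (v w : Module.Basis (Fin (m + 1)) F V)
    (hw : ∀ j : Fin (m + 1), K.symm (w j) = (a * g.t j) • w j)
    (hG : ∀ j k : Fin (m + 1), w.repr (v k) j = g.G j k) (k : Fin (m + 1)) :
    v.repr (K.symm (v k)) (k + 1) ≠ 0 := by
  have key : ∀ c : ℕ → F, Comb g (fun j => g.t j * g.G j k) c → ∀ i : Fin (m + 1),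
      v.repr ((K.symm : V →ₗ[F] V) (v k)) i = a * c i := by
    intro c hcc i
    refine diag_cols v w (K.symm : V →ₗ[F] V) (fun j => a * g.t j) hw k
      (fun l => a * c l) ?_ i
    intro i'
    rw [hG]
    have := comb_fin hcc (j := i')
    rw [mul_assoc, this, mul_sum]
    exact sum_congr rfl fun l _ => by rw [hG, mul_assoc]
  rcases Nat.lt_or_ge (k : ℕ) m with hk | hk
  · obtain ⟨c, hcc, -, h0⟩ := colU g hk
    have h1 := key c hcc (k + 1)
    rw [LinearEquiv.coe_coe] at h1
    rw [h1]
    have h2 : ((k + 1 : Fin (m + 1)) : ℕ) = k + 1 := by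
      rw [Fin.val_add_one_of_lt]
      exact Fin.lt_def.2 (by rw [Fin.val_last]; exact hk)
    rw [h2]
    exact mul_ne_zero ha h0
  · have hkm : (k : ℕ) = m := by omega
    obtain ⟨c, hcc, h0⟩ := colC hc
    have hkl : k = Fin.last m := Fin.ext (by rw [Fin.val_last]; exact hkm)
    have h1 := key c (by rw [hkm]; exact hcc) (k + 1)
    rw [LinearEquiv.coe_coe] at h1
    rw [h1]
    have h2 : (k + 1 : Fin (m + 1)) = 0 := by rw [hkl, Fin.last_add_one]
    rw [h2]
    exact mul_ne_zero ha h0

/-- the matrix of `K*` in the basis `w`: nonzero superdiagonal, cyclically -/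
theorem step_w {g : GForm F m} (hc : g.Closed) {a b : F} (hb : b ≠ 0)
    {Ks : V ≃ₗ[F] V} (v w : Module.Basis (Fin (m + 1)) F V)
    (hv : ∀ k : Fin (m + 1), Ks (v k) = (b * g.s k) • v k)
    (hG : ∀ j k : Fin (m + 1), w.repr (v k) j = g.G j k) (i : Fin (m + 1)) :
    w.repr (Ks (w (i + 1))) i ≠ 0 := by
  have key : ∀ c : ℕ → F, Comb g.swap (fun j => g.swap.t j * g.swap.G j i) c →
      ∀ j : Fin (m + 1), w.repr ((Ks : V →ₗ[F] V) (w j)) i = b * c j := by
    intro c hcc j
    refine diag_rows v w (Ks : V →ₗ[F] V) (fun k => b * g.s k) hv i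
      (fun l => b * c l) ?_ j
    intro k'
    rw [hG]
    have := comb_fin hcc (j := k')
    simp only [GForm.swap_t, GForm.swap_G] at this
    rw [mul_assoc, this, mul_sum]
    exact sum_congr rfl fun l _ => by rw [hG, mul_assoc]
  rcases Nat.lt_or_ge (i : ℕ) m with hk | hk
  · obtain ⟨c, hcc, -, h0⟩ := colU g.swap hk
    have h1 := key c hcc (i + 1)
    rw [LinearEquiv.coe_coe] at h1
    rw [h1]
    have h2 : ((i + 1 : Fin (m + 1)) : ℕ) = i + 1 := by
      rw [Fin.val_add_one_of_lt]
      exact Fin.lt_def.2 (by rw [Fin.val_last]; exact hk)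
    rw [h2]
    exact mul_ne_zero hb h0
  · have hkm : (i : ℕ) = m := by omega
    obtain ⟨c, hcc, h0⟩ := colC hc.swap
    have hkl : i = Fin.last m := Fin.ext (by rw [Fin.val_last]; exact hkm)
    have h1 := key c (by rw [hkm]; exact hcc) (i + 1)
    rw [LinearEquiv.coe_coe] at h1
    rw [h1]
    have h2 : (i + 1 : Fin (m + 1)) = 0 := by rw [hkl, Fin.last_add_one]
    rw [h2]
    exact mul_ne_zero hb h0

/-- the order of an eigenbasis in which `T` is upper Hessenberg is unique up to rotation -/
theorem cyc_order (T : V →ₗ[F] V) (v v' : Module.Basis (Fin (m + 1)) F V)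
    (σ : Fin (m + 1) → Fin (m + 1)) (c : Fin (m + 1) → F) (hc : ∀ k, c k ≠ 0)
    (hv : ∀ k, v' k = c k • v (σ k))
    (step : ∀ k : Fin (m + 1), v.repr (T (v k)) (k + 1) ≠ 0)
    (hess : ∀ i j : Fin (m + 1), (j : ℕ) + 1 < i → v'.repr (T (v' j)) i = 0) :
    ∀ k, σ k = σ 0 + k := by
  have main : ∀ n : ℕ, ∀ k : Fin (m + 1), (k : ℕ) ≤ n → σ k = σ 0 + k := by
    intro n
    induction n with
    | zero =>
      intro k hk
      have : k = 0 := Fin.ext (by simpa using hk)
      rw [this, add_zero]
    | succ n ih =>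
      intro k hk
      rcases Nat.lt_or_ge n (k : ℕ) with h | h
      swap
      · exact ih k h
      have hkn : (k : ℕ) = n + 1 := by omega
      -- the predecessor
      set l : Fin (m + 1) := ⟨n, by omega⟩ with hl
      have hl1 : l + 1 = k := by
        apply Fin.ext
        rw [Fin.val_add_one_of_lt (Fin.lt_def.2 (by rw [Fin.val_last, hl]; simp only; omega)), hl,
          hkn]
      have hs := step (σ l)
      have e1 : v.repr (T (v' l)) (σ l + 1) ≠ 0 := by
        rw [hv, map_smul, map_smul, Finsupp.smul_apply, smul_eq_mul]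
        exact mul_ne_zero (hc _) hs
      have e2 : T (v' l) = ∑ i, v'.repr (T (v' l)) i • v' i := (v'.sum_repr _).symm
      rw [e2, map_sum, Finsupp.finsetSum_apply] at e1
      obtain ⟨i, -, hi⟩ := exists_ne_zero_of_sum_ne_zero e1
      rw [map_smul, Finsupp.smul_apply, smul_eq_mul] at hi
      have h1 := left_ne_zero_of_mul hi
      have h2 := right_ne_zero_of_mul hi
      have h3 : (i : ℕ) ≤ n + 1 := by
        by_contra h3
        exact h1 (hess i l (by rw [hl]; simp only; omega))
      have h4 : σ i = σ l + 1 := by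
        by_contra h4
        apply h2
        rw [hv, map_smul, Finsupp.smul_apply, v.repr_self, Finsupp.single_eq_of_ne (Ne.symm h4),
          smul_zero]
      rw [ih l (by rw [hl]), add_assoc, hl1] at h4
      rcases Nat.lt_or_ge n (i : ℕ) with h5 | h5
      · have : i = k := Fin.ext (by omega)
        rw [← this]
        rw [this] at h4 ⊢
        exact h4
      · rw [ih i h5] at h4
        have h6 := add_left_cancel h4
        have h7 := congrArg Fin.val h6
        omega
  exact fun k => main m k (by omega)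

theorem fin_rev (k : Fin (m + 1)) : Fin.rev k = -1 - k := by
  have h1 : Fin.rev k + k + 1 = 0 := by
    apply Fin.ext
    rw [Fin.val_add, Fin.val_add, Fin.val_rev]
    rcases Nat.eq_zero_or_pos m with h | h
    · subst h; simp
    have h2 : ((1 : Fin (m + 1)) : ℕ) = 1 := by
      rw [Fin.val_one']; exact Nat.mod_eq_of_lt (by omega)
    rw [h2, show m + 1 - ((k : ℕ) + 1) + (k : ℕ) = m by omega, Nat.mod_eq_of_lt (by omega : m < m + 1),
      Nat.mod_self]
    rfl
  rw [← sub_eq_zero]
  rw [← h1]
  abel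

/-- the dual version, for lower Hessenberg -/
theorem cyc_order' (T : V →ₗ[F] V) (v v' : Module.Basis (Fin (m + 1)) F V)
    (σ : Fin (m + 1) → Fin (m + 1)) (c : Fin (m + 1) → F) (hc : ∀ k, c k ≠ 0)
    (hv : ∀ k, v' k = c k • v (σ k))
    (step : ∀ k : Fin (m + 1), v.repr (T (v (k + 1))) k ≠ 0)
    (hess : ∀ i j : Fin (m + 1), (i : ℕ) + 1 < j → v'.repr (T (v' j)) i = 0) :
    ∀ k, σ k = σ 0 + k := by
  have h := cyc_order T (v.reindex Fin.revPerm) (v'.reindex Fin.revPerm)
    (fun k => Fin.rev (σ (Fin.rev k))) (fun k => c (Fin.rev k)) (fun k => hc _) (fun k => by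
      rw [Module.Basis.reindex_apply, Module.Basis.reindex_apply]
      simp only [Fin.revPerm_symm, Fin.revPerm_apply, Fin.rev_rev]
      exact hv _) (fun k => by
      rw [Module.Basis.reindex_apply, Module.Basis.repr_reindex_apply]
      simp only [Fin.revPerm_symm, Fin.revPerm_apply]
      have e : Fin.rev k = Fin.rev (k + 1) + 1 := by
        rw [fin_rev, fin_rev]
        abel
      rw [e]
      exact step _) (fun i j hij => by
      rw [Module.Basis.reindex_apply, Module.Basis.repr_reindex_apply]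
      simp only [Fin.revPerm_symm, Fin.revPerm_apply]
      apply hess
      rw [Fin.val_rev, Fin.val_rev]
      omega)
  intro k
  have h1 := h (Fin.rev k)
  have h2 := h (Fin.rev 0)
  simp only [Fin.rev_rev] at h1 h2
  simp only [fin_rev] at h1 h2
  have e1 : σ k = -(-1 - σ k) - 1 := by abel
  have e2 : σ 0 = -(-1 - σ 0) - 1 := by abel
  rw [e1, e2, h1, h2]
  abel

end Pool.Agent.Helper31.IPS
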