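import Pool.Agent.Helper54.IP.Defs

/-!
TH-P: the split form of a pair and its two eigenbases.
-/

namespace Pool.Agent.Helper31.IPS

open Finset

variable {F : Type*} [Field F] {V : Type*} [AddCommGroup V] [Module F V] {n : ℕ}

/-- The split form: in some basis `x` (`x_n = 0`, `x_(-1) = 0`)
`K⁻¹ x_i = A_i x_i + x_(i+1)`, `K* x_i = B_i x_i + φ_i x_(i-1)`. -/
def SplitForm (n : ℕ) (K Ks : V ≃ₗ[F] V) (A B φ : ℕ → F) : Prop :=
  ∃ x : Module.Basis (Fin n) F V,
    (∀ i : Fin n, K.symm (x i) = A i • x i
      + if h : (i : ℕ) + 1 < n then x ⟨i + 1, h⟩ else 0) ∧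
    (∀ i : Fin n, Ks (x i) = B i • x i
      + if h : 0 < (i : ℕ) then φ i • x ⟨i - 1, by omega⟩ else 0)

/-- a basis extended by zero -/
noncomputable def ext0 (x : Module.Basis (Fin n) F V) (i : ℕ) : V := if h : i < n then x ⟨i, h⟩ else 0

theorem ext0_lt (x : Module.Basis (Fin n) F V) {i : ℕ} (h : i < n) : ext0 x i = x ⟨i, h⟩ := by
  rw [ext0, dif_pos h]

theorem ext0_fin (x : Module.Basis (Fin n) F V) (i : Fin n) : ext0 x i = x i := by
  rw [ext0_lt x i.2]

theorem sum_fin (x : Module.Basis (Fin n) F V) (c : ℕ → F) :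
    ∑ l : Fin n, c l • x l = ∑ l ∈ range n, c l • ext0 x l := by
  rw [← Fin.sum_univ_eq_sum_range (fun l => c l • ext0 x l)]
  exact sum_congr rfl fun l _ => by rw [ext0_fin]

/-- coefficients of the eigenvectors of `Ks` -/
def ec (B φ : ℕ → F) (k l : ℕ) : F := ∏ i ∈ range l, ((B k - B i) / φ (i + 1))

theorem ec_succ (B φ : ℕ → F) (k l : ℕ) (h : φ (l + 1) ≠ 0) :
    ec B φ k (l + 1) * φ (l + 1) = ec B φ k l * (B k - B l) := by
  rw [ec, prod_range_succ, ← ec]
  field_simp

theorem ec_zero_of_lt (B φ : ℕ → F) {k l : ℕ} (h : k < l) : ec B φ k l = 0 :=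
  prod_eq_zero (mem_range.2 h) (by rw [sub_self, zero_div])

section eig

variable (x : Module.Basis (Fin n) F V) {K Ks : V ≃ₗ[F] V} {A B φ : ℕ → F}

/-- eigenvectors of `Ks` -/
theorem eig_v (hB : ∀ i : Fin n, Ks (x i) = B i • x i
      + if h : 0 < (i : ℕ) then φ i • x ⟨i - 1, by omega⟩ else 0)
    (hφ : ∀ k, 1 ≤ k → k < n → φ k ≠ 0) (k : Fin n) :
    Ks (∑ l : Fin n, ec B φ k l • x l) = B k • ∑ l : Fin n, ec B φ k l • x l := by
  rw [sum_fin x (ec B φ k)]
  have hB0 : ∀ h : 0 < n, Ks (ext0 x 0) = B 0 • ext0 x 0 := by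
    intro h
    rw [ext0_lt x h, hB ⟨0, h⟩]
    simp
  have hB1 : ∀ i, i + 1 < n → Ks (ext0 x (i + 1)) = B (i + 1) • ext0 x (i + 1)
      + φ (i + 1) • ext0 x i := by
    intro i hi
    rw [ext0_lt x hi, hB ⟨i + 1, hi⟩, ext0_lt x (show i < n by omega)]
    simp
  have key : ∀ p, p < n → Ks (∑ l ∈ range (p + 1), ec B φ k l • ext0 x l) =
      B k • (∑ l ∈ range p, ec B φ k l • ext0 x l) + (ec B φ k p * B p) • ext0 x p := by
    intro p
    induction p with
    | zero =>
      intro hp
      rw [zero_add, range_one, sum_singleton, map_smul, hB0 hp, range_zero, sum_empty, smul_zero,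
        zero_add, smul_smul]
    | succ p ih =>
      intro hp
      rw [sum_range_succ, map_add, ih (by omega), map_smul, hB1 p hp, smul_add, smul_smul,
        smul_smul, ec_succ _ _ _ _ (hφ (p + 1) (by omega) hp), sum_range_succ, smul_add, smul_smul]
      have : (ec B φ (k : ℕ) p * (B k - B p)) • ext0 x p =
          (B k * ec B φ k p) • ext0 x p - (ec B φ k p * B p) • ext0 x p := by
        rw [← sub_smul]
        congr 1
        ring
      rw [this]
      abel
  obtain ⟨m, rfl⟩ : ∃ m, n = m + 1 := ⟨n - 1, by have := k.2; omega⟩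
  rw [key m (by omega), sum_range_succ, smul_add, smul_smul]
  congr 1
  rcases Nat.lt_or_ge (k : ℕ) m with h | h
  · rw [ec_zero_of_lt _ _ h, zero_mul, mul_zero]
  · have : (k : ℕ) = m := by have := k.2; omega
    rw [this, mul_comm]

/-- coefficients of the eigenfunctionals of `K⁻¹` -/
def ef (A : ℕ → F) (j l : ℕ) : F := ∏ i ∈ range l, (A j - A i)

theorem ef_zero_of_lt (A : ℕ → F) {j l : ℕ} (h : j < l) : ef A j l = 0 :=
  prod_eq_zero (mem_range.2 h) (sub_self _)

/-- the eigenfunctionals of `K⁻¹` -/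
noncomputable def om (A : ℕ → F) (j : ℕ) : V →ₗ[F] F := x.constr F (fun l : Fin n => ef A j l)

theorem om_x (A : ℕ → F) (j : ℕ) (l : Fin n) : om x A j (x l) = ef A j l := by
  rw [om, x.constr_basis]

theorem om_eig (hA : ∀ i : Fin n, K.symm (x i) = A i • x i
      + if h : (i : ℕ) + 1 < n then x ⟨i + 1, h⟩ else 0) {j : ℕ} (hj : j < n) (y : V) :
    om x A j (K.symm y) = A j * om x A j y := by
  have : om x A j ∘ₗ (K.symm : V →ₗ[F] V) = A j • om x A j := by
    refine x.ext fun l => ?_
    rw [LinearMap.comp_apply, LinearMap.smul_apply, LinearEquiv.coe_coe, hA, map_add, map_smul,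
      om_x]
    have e : ef A j (l + 1) = ef A j l * (A j - A l) := by rw [ef, prod_range_succ, ← ef]
    by_cases h : (l : ℕ) + 1 < n
    · rw [dif_pos h, om_x, e, smul_eq_mul, smul_eq_mul]
      ring
    · rw [dif_neg h, map_zero, add_zero, smul_eq_mul, smul_eq_mul]
      have hl : n = l + 1 := by have := l.2; omega
      have : ef A j (l + 1) = 0 ∨ j = l := by
        rcases Nat.lt_or_ge j l with h | h
        · left
          exact ef_zero_of_lt A (by omega)
        · right
          omega
      rcases this with h | h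
      · rw [e] at h
        linear_combination -h
      · rw [h]
  have h2 := LinearMap.congr_fun this y
  simpa using h2

/-- the coordinates `om_j` -/
theorem om_equiv (A : ℕ → F) (hA : ∀ i j, i < j → j < n → A i ≠ A j) :
    ∃ e : V ≃ₗ[F] (Fin n → F), ∀ y j, e y j = om x A j y := by
  classical
  haveI : FiniteDimensional F V := Module.Basis.finiteDimensional_of_finite x
  set L : V →ₗ[F] (Fin n → F) := LinearMap.pi (fun j : Fin n => om x A j) with hL
  have inj : Function.Injective L := by
    rw [injective_iff_map_eq_zero]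
    intro y hy
    have h1 : ∀ j : ℕ, (hj : j < n) → x.repr y ⟨j, hj⟩ = 0 := by
      intro j
      induction j using Nat.strong_induction_on with
      | _ j ih =>
        intro hj
        have h2 : om x A j y = 0 := congrFun hy ⟨j, hj⟩
        have h3 : y = ∑ l, x.repr y l • x l := (x.sum_repr y).symm
        rw [h3, map_sum, Finset.sum_eq_single (⟨j, hj⟩ : Fin n)] at h2
        · rw [map_smul, om_x, smul_eq_mul] at h2
          refine (mul_eq_zero.1 h2).resolve_right (show ef A j j ≠ 0 from ?_)
          rw [ef, prod_ne_zero_iff]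
          intro i hi
          exact sub_ne_zero.2 (hA i j (mem_range.1 hi) hj).symm
        · intro l _ hl
          rw [map_smul, om_x, smul_eq_mul]
          have hl' : (l : ℕ) ≠ j := fun h => hl (Fin.ext h)
          rcases Nat.lt_or_ge (l : ℕ) j with h | h
          · rw [ih l h l.2, zero_mul]
          · rw [ef_zero_of_lt A (by omega), mul_zero]
        · intro h
          exact absurd (mem_univ _) h
    rw [← x.sum_repr y]
    refine sum_eq_zero fun l _ => ?_
    rw [h1 l l.2, zero_smul]
  have hfr : Module.finrank F V = Module.finrank F (Fin n → F) := by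
    rw [Module.finrank_eq_card_basis x, Module.finrank_fin_fun, Fintype.card_fin]
  exact ⟨LinearMap.linearEquivOfInjective L inj hfr, fun y j => rfl⟩

/-- the two eigenbases of a split form -/
theorem split_bases (hx : SplitForm n K Ks A B φ) (hA : ∀ i j, i < j → j < n → A i ≠ A j)
    (hB : ∀ i j, i < j → j < n → B i ≠ B j) (hφ : ∀ k, 1 ≤ k → k < n → φ k ≠ 0) :
    ∃ v w : Module.Basis (Fin n) F V, (∀ j : Fin n, K.symm (w j) = A j • w j) ∧
      (∀ k : Fin n, Ks (v k) = B k • v k) ∧
      ∀ j k : Fin n, w.repr (v k) j = ∑ l ∈ range n, ec B φ k l * ef A j l := by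
  classical
  obtain ⟨x, xA, xB⟩ := hx
  haveI : FiniteDimensional F V := Module.Basis.finiteDimensional_of_finite x
  obtain ⟨e, he⟩ := om_equiv x A hA
  rcases Nat.eq_zero_or_pos n with rfl | hn
  · exact ⟨x, x, fun j => j.elim0, fun j => j.elim0, fun j => j.elim0⟩
  set w : Module.Basis (Fin n) F V := Module.Basis.ofEquivFun e with hw
  have wr : ∀ y j, w.repr y j = om x A j y := by
    intro y j
    rw [← he, hw]
    simp
  set vv : Fin n → V := fun k => ∑ l : Fin n, ec B φ k l • x l with hvv
  have v1 : ∀ k, Ks (vv k) = B k • vv k := fun k => eig_v x xB hφ k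
  have v0 : ∀ k, vv k ≠ 0 := by
    intro k h
    have h1 : x.repr (vv k) ⟨0, hn⟩ = 1 := by
      rw [hvv]
      simp only [map_sum, map_smul, Module.Basis.repr_self, Finsupp.finsetSum_apply,
        Finsupp.smul_apply, smul_eq_mul]
      rw [Finset.sum_eq_single (⟨0, hn⟩ : Fin n)]
      · simp [ec]
      · intro l _ hl
        rw [Finsupp.single_eq_of_ne (Ne.symm hl), mul_zero]
      · intro h
        exact absurd (mem_univ _) h
    rw [h, map_zero] at h1
    exact zero_ne_one h1
  have li : LinearIndependent F vv := by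
    refine Module.End.eigenvectors_linearIndependent' (Ks : V →ₗ[F] V) (fun k : Fin n => B k) ?_ vv
      (fun k => ?_)
    · intro i j h
      rcases lt_trichotomy i j with h1 | h1 | h1
      · exact absurd h (hB i j h1 j.2)
      · exact h1
      · exact absurd h.symm (hB j i h1 i.2)
    · rw [Module.End.hasEigenvector_iff, Module.End.mem_eigenspace_iff]
      exact ⟨v1 k, v0 k⟩
  have hcard : Fintype.card (Fin n) = Module.finrank F V := by
    rw [Module.finrank_eq_card_basis x]
  haveI : Nonempty (Fin n) := ⟨⟨0, hn⟩⟩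
  set v := basisOfLinearIndependentOfCardEqFinrank li hcard with hv
  have vx : ∀ k, v k = vv k := fun k => by
    rw [hv, coe_basisOfLinearIndependentOfCardEqFinrank]
  refine ⟨v, w, fun j => ?_, fun k => ?_, fun j k => ?_⟩
  · apply w.repr.injective
    ext i
    rw [wr, om_eig x xA i.2, ← wr, map_smul, Finsupp.smul_apply, smul_eq_mul, w.repr_self]
    rcases eq_or_ne i j with h | h
    · rw [h]
    · rw [Finsupp.single_eq_of_ne h, mul_zero, mul_zero]
  · rw [vx]
    exact v1 k
  · rw [wr, vx, hvv]
    simp only [map_sum, map_smul, om_x, smul_eq_mul]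
    rw [← Fin.sum_univ_eq_sum_range (fun l => ec B φ k l * ef A j l)]

end eig

end Pool.Agent.Helper31.IPS
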