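import Pool.Agent.Helper31.IPS.Split

/-!
TH-P: every split form occurs; the data of a split form determine the pair up to conjugation.
-/

namespace Pool.Agent.Helper31.IPS

open Pool.Agent.Helper54.IP

variable {F : Type*} [Field F] {V V' : Type*} [AddCommGroup V] [Module F V] [AddCommGroup V']
  [Module F V'] {n : ℕ}

/-- **(c)** every split form with nonzero eigenvalues occurs -/
theorem exists_split (x : Module.Basis (Fin n) F V) (A B φ : ℕ → F) (hA0 : ∀ i, i < n → A i ≠ 0)
    (hB0 : ∀ i, i < n → B i ≠ 0) : ∃ K Ks : V ≃ₗ[F] V, SplitForm n K Ks A B φ := by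
  classical
  haveI : FiniteDimensional F V := Module.Basis.finiteDimensional_of_finite x
  set P : V →ₗ[F] V := x.constr F (fun i : Fin n => A i • x i
      + if h : (i : ℕ) + 1 < n then x ⟨i + 1, h⟩ else 0) with hP
  set Q : V →ₗ[F] V := x.constr F (fun i : Fin n => B i • x i
      + if h : 0 < (i : ℕ) then φ i • x ⟨i - 1, by omega⟩ else 0) with hQ
  have eP : ∀ i : Fin n, P (x i) = A i • x i
      + if h : (i : ℕ) + 1 < n then x ⟨i + 1, h⟩ else 0 := fun i => by rw [hP, x.constr_basis]
  have eQ : ∀ i : Fin n, Q (x i) = B i • x i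
      + if h : 0 < (i : ℕ) then φ i • x ⟨i - 1, by omega⟩ else 0 := fun i => by
    rw [hQ, x.constr_basis]
  have mP : IsUnit (LinearMap.det P) := by
    rw [← LinearMap.det_toMatrix x, Matrix.det_of_lowerTriangular]
    · rw [isUnit_iff_ne_zero, Finset.prod_ne_zero_iff]
      intro i _
      rw [LinearMap.toMatrix_apply, eP, map_add, map_smul, Module.Basis.repr_self]
      have : (x.repr (if h : (i : ℕ) + 1 < n then x ⟨i + 1, h⟩ else 0)) i = 0 := by
        split_ifs with h
        · rw [Module.Basis.repr_self, Finsupp.single_apply, if_neg]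
          intro h1; rw [Fin.ext_iff] at h1; simp at h1
        · simp
      rw [Finsupp.add_apply, this]
      simpa using hA0 i i.2
    · intro i j hij
      have hij : (i : ℕ) < j := hij
      rw [LinearMap.toMatrix_apply, eP, map_add, map_smul, Module.Basis.repr_self,
        Finsupp.add_apply, Finsupp.smul_apply, Finsupp.single_apply, if_neg]
      · have : (x.repr (if h : (j : ℕ) + 1 < n then x ⟨j + 1, h⟩ else 0)) i = 0 := by
          split_ifs with h
          · rw [Module.Basis.repr_self, Finsupp.single_apply, if_neg]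
            intro h1; rw [Fin.ext_iff] at h1; simp at h1; omega
          · simp
        rw [this]; simp
      · intro h1; rw [Fin.ext_iff] at h1; omega
  have mQ : IsUnit (LinearMap.det Q) := by
    rw [← LinearMap.det_toMatrix x, Matrix.det_of_upperTriangular]
    · rw [isUnit_iff_ne_zero, Finset.prod_ne_zero_iff]
      intro i _
      rw [LinearMap.toMatrix_apply, eQ, map_add, map_smul, Module.Basis.repr_self]
      have : (x.repr (if h : 0 < (i : ℕ) then φ i • x ⟨i - 1, by omega⟩ else 0)) i = 0 := by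
        split_ifs with h
        · rw [map_smul, Module.Basis.repr_self, Finsupp.smul_apply, Finsupp.single_apply, if_neg]
          · simp
          · intro h1; rw [Fin.ext_iff] at h1; simp at h1; omega
        · simp
      rw [Finsupp.add_apply, this]
      simpa using hB0 i i.2
    · intro i j hij
      have hij : (j : ℕ) < i := hij
      rw [LinearMap.toMatrix_apply, eQ, map_add, map_smul, Module.Basis.repr_self,
        Finsupp.add_apply, Finsupp.smul_apply, Finsupp.single_apply, if_neg]
      · have : (x.repr (if h : 0 < (j : ℕ) then φ j • x ⟨j - 1, by omega⟩ else 0)) i = 0 := by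
          split_ifs with h
          · rw [map_smul, Module.Basis.repr_self, Finsupp.smul_apply, Finsupp.single_apply, if_neg]
            · simp
            · intro h1; rw [Fin.ext_iff] at h1; simp at h1; omega
          · simp
        rw [this]; simp
      · intro h1; rw [Fin.ext_iff] at h1; omega
  refine ⟨(LinearEquiv.ofIsUnitDet (v := x) (v' := x) (f := P) (by rwa [LinearMap.det_toMatrix])).symm,
    LinearEquiv.ofIsUnitDet (v := x) (v' := x) (f := Q) (by rwa [LinearMap.det_toMatrix]), x, ?_, ?_⟩
  · intro i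
    exact eP i
  · intro i
    exact eQ i

/-- **(d)** the data of a split form determine the pair up to conjugation -/
theorem split_conj {K Ks : V ≃ₗ[F] V} {K' Ks' : V' ≃ₗ[F] V'} {A B φ : ℕ → F}
    (h : SplitForm n K Ks A B φ) (h' : SplitForm n K' Ks' A B φ) :
    ∃ g : V ≃ₗ[F] V', (∀ v, g (K v) = K' (g v)) ∧ ∀ v, g (Ks v) = Ks' (g v) := by
  obtain ⟨x, h1, h2⟩ := h
  obtain ⟨x', h1', h2'⟩ := h'
  set g : V ≃ₗ[F] V' := x.equiv x' (Equiv.refl _) with hg
  have gx : ∀ i, g (x i) = x' i := fun i => by rw [hg]; simp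
  have e1 : ∀ v, g (K.symm v) = K'.symm (g v) := by
    intro v
    have : (g : V →ₗ[F] V') ∘ₗ (K.symm : V →ₗ[F] V) = (K'.symm : V' →ₗ[F] V') ∘ₗ (g : V →ₗ[F] V') := by
      refine x.ext fun i => ?_
      simp only [LinearMap.comp_apply, LinearEquiv.coe_coe]
      rw [h1, gx, h1', map_add, map_smul, gx]
      congr 1
      split_ifs
      · rw [gx]
      · rw [map_zero]
    exact LinearMap.congr_fun this v
  have e2 : ∀ v, g (Ks v) = Ks' (g v) := by
    intro v
    have : (g : V →ₗ[F] V') ∘ₗ (Ks : V →ₗ[F] V) = (Ks' : V' →ₗ[F] V') ∘ₗ (g : V →ₗ[F] V') := by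
      refine x.ext fun i => ?_
      simp only [LinearMap.comp_apply, LinearEquiv.coe_coe]
      rw [h2, gx, h2', map_add, map_smul, gx]
      congr 1
      split_ifs
      · rw [map_smul, gx]
      · rw [map_zero]
    exact LinearMap.congr_fun this v
  refine ⟨g, fun v => ?_, e2⟩
  have := e1 (K v)
  rw [LinearEquiv.symm_apply_apply] at this
  rw [this, LinearEquiv.apply_symm_apply]

/-- transport of the split form -/
theorem split_transport {K Ks : V ≃ₗ[F] V} {K' Ks' : V' ≃ₗ[F] V'} {A B φ : ℕ → F}
    (h : SplitForm n K Ks A B φ) (g : V ≃ₗ[F] V')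
    (h1 : ∀ v, g (K v) = K' (g v)) (h2 : ∀ v, g (Ks v) = Ks' (g v)) :
    SplitForm n K' Ks' A B φ := by
  obtain ⟨x, hA, hB⟩ := h
  have h3 : ∀ v, g (K.symm v) = K'.symm (g v) := by
    intro v
    apply K'.injective
    rw [← h1, LinearEquiv.apply_symm_apply, LinearEquiv.apply_symm_apply]
  refine ⟨x.map g, fun i => ?_, fun i => ?_⟩
  · rw [Module.Basis.map_apply, ← h3, hA, map_add, map_smul]
    congr 1
    split_ifs
    · rw [Module.Basis.map_apply]
    · rw [map_zero]
  · rw [Module.Basis.map_apply, ← h2, hB, map_add, map_smul]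
    congr 1
    split_ifs
    · rw [map_smul, Module.Basis.map_apply]
    · rw [map_zero]

/-- only the entries below `n` (and the split numbers `1 ≤ i < n`) of the data matter -/
theorem split_congr {K Ks : V ≃ₗ[F] V} {A B φ A' B' φ' : ℕ → F} (h : SplitForm n K Ks A B φ)
    (hA : ∀ i, i < n → A i = A' i) (hB : ∀ i, i < n → B i = B' i)
    (hφ : ∀ i, 1 ≤ i → i < n → φ i = φ' i) : SplitForm n K Ks A' B' φ' := by
  obtain ⟨x, xA, xB⟩ := h
  refine ⟨x, fun i => ?_, fun i => ?_⟩
  · rw [xA, hA i i.2]
  · rw [xB, hB i i.2]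
    congr 1
    split_ifs with h
    · rw [hφ i h i.2]
    · rfl

/-- the classification for any list of arrays -/
theorem classify {m : ℕ} (hm : 1 ≤ m) (K Ks : V ≃ₗ[F] V) :
    (IsInvertingPair (m + 1) K Ks ∧ Irred K Ks) ↔
      ∃ (a b : F) (t s f : ℕ → F), a ≠ 0 ∧ b ≠ 0 ∧ IsPA m t s f ∧
        SplitForm (m + 1) K Ks (fun i => a * t i) (fun i => b * s i) (fun i => a * b * f i) :=
  ⟨fun ⟨h, irr⟩ => PA_of_pair hm h irr, fun ⟨_, _, _, _, _, ha, hb, h, hS⟩ => pair_of_PA h ha hb hS⟩

end Pool.Agent.Helper31.IPS
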