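import Pool.Agent.Helper31.IPS.C7

/-!
TH-P: the general form of the final statement, from the list of the parameter arrays.
-/

namespace Pool.Agent.Helper31.IPS

open Pool.Agent.Helper54.IP

universe u v w

variable {F : Type u} [Field F] {m : ℕ}

theorem isPA0_iff (t s f : ℕ → F) : IsPA 0 t s f ↔ t 0 = 1 ∧ s 0 = 1 := by
  constructor
  · rintro ⟨g, -, ht, hs, -⟩
    have h1 := ht 0 le_rfl
    have h2 := hs 0 le_rfl
    rw [g.t0] at h1
    rw [g.s0] at h2
    exact ⟨h1.symm, h2.symm⟩
  · rintro ⟨ht, hs⟩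
    refine ⟨{
      t := fun _ => 1
      s := fun _ => 1
      G := fun _ _ => 1
      H := fun _ _ => 1
      lam := fun _ => 0
      mu := fun _ => 0
      lam' := fun _ => 0
      mu' := fun _ => 0
      t0 := rfl
      s0 := rfl
      t_ne := fun _ _ => one_ne_zero
      s_ne := fun _ _ => one_ne_zero
      t_inj := fun i j hij hj => by omega
      s_inj := fun i j hij hj => by omega
      G0 := fun _ _ => rfl
      G0' := fun _ _ => rfl
      H0 := fun _ _ => rfl
      H0' := fun _ _ => rfl
      U1 := fun j k _ hk => by omega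
      U2 := fun j k _ hk => by omega
      V1 := fun j k hj _ => by omega
      V2 := fun j k hj _ => by omega
      lam_ne := fun k hk => by omega
      mu_ne := fun k hk => by omega
      lm_ne := fun k hk => by omega
      lam'_ne := fun k hk => by omega
      mu'_ne := fun k hk => by omega
      lm'_ne := fun k hk => by omega }, ⟨?_, ?_⟩, ?_, ?_, ?_⟩
    · intro j _
      simp
    · intro k _
      simp
    · intro i hi
      have : i = 0 := by omega
      rw [this, ht]
    · intro i hi
      have : i = 0 := by omega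
      rw [this, hs]
    · intro k hk
      omega

/-- the classification for every `m`, including `m = 0` -/
theorem classify' {V : Type*} [AddCommGroup V] [Module F V] (K Ks : V ≃ₗ[F] V) :
    (IsInvertingPair (m + 1) K Ks ∧ Irred K Ks) ↔
      ∃ (a b : F) (t s f : ℕ → F), a ≠ 0 ∧ b ≠ 0 ∧ IsPA m t s f ∧
        SplitForm (m + 1) K Ks (fun i => a * t i) (fun i => b * s i) (fun i => a * b * f i) := by
  rcases Nat.eq_zero_or_pos m with h | h
  · subst h
    rw [zero_add, classify_one]
    constructor
    · rintro ⟨a, b, ha, hb, hS⟩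
      refine ⟨a, b, fun _ => 1, fun _ => 1, fun _ => 0, ha, hb, (isPA0_iff _ _ _).2 ⟨rfl, rfl⟩, ?_⟩
      exact split_congr hS (fun i _ => (mul_one a).symm) (fun i _ => (mul_one b).symm)
        (fun i _ _ => (mul_zero _).symm)
    · rintro ⟨a, b, t, s, f, ha, hb, hA, hS⟩
      obtain ⟨h1, h2⟩ := (isPA0_iff _ _ _).1 hA
      refine ⟨a, b, ha, hb, split_congr hS (fun i hi => ?_) (fun i hi => ?_) (fun i h1 h2 => ?_)⟩
      · have : i = 0 := by omega
        subst this
        beta_reduce
        rw [h1, mul_one]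
      · have : i = 0 := by omega
        subst this
        beta_reduce
        rw [h2, mul_one]
      · omega
  · exact classify h K Ks

/-- the final statement in dimension `m + 1` for a list `A` of all parameter arrays -/
theorem final_of {A : (ℕ → F) → (ℕ → F) → (ℕ → F) → Prop}
    (hA : ∀ t s f, IsPA m t s f ↔ A t s f) :
    (∀ (V : Type v) [AddCommGroup V] [Module F V] (K Ks : V ≃ₗ[F] V),
      (IsInvertingPair (m + 1) K Ks ∧ Irred K Ks) ↔
        ∃ (a b : F) (t s f : ℕ → F), a ≠ 0 ∧ b ≠ 0 ∧ A t s f ∧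
        SplitForm (m + 1) K Ks (fun i => a * t i) (fun i => b * s i) (fun i => a * b * f i)) ∧
    (∀ (V : Type v) [AddCommGroup V] [Module F V], Module.finrank F V = m + 1 →
      ∀ (a b : F) (t s f : ℕ → F), a ≠ 0 → b ≠ 0 → A t s f →
        ∃ K Ks : V ≃ₗ[F] V,
          SplitForm (m + 1) K Ks (fun i => a * t i) (fun i => b * s i) (fun i => a * b * f i)) ∧
    (∀ (V : Type v) [AddCommGroup V] [Module F V] (V' : Type w) [AddCommGroup V'] [Module F V']
      (K Ks : V ≃ₗ[F] V) (K' Ks' : V' ≃ₗ[F] V') (a b a' b' : F) (t s f t' s' f' : ℕ → F),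
      a ≠ 0 → b ≠ 0 → a' ≠ 0 → b' ≠ 0 → A t s f → A t' s' f' →
      SplitForm (m + 1) K Ks (fun i => a * t i) (fun i => b * s i) (fun i => a * b * f i) →
      SplitForm (m + 1) K' Ks' (fun i => a' * t' i) (fun i => b' * s' i)
        (fun i => a' * b' * f' i) →
      ((∃ g : V ≃ₗ[F] V', (∀ v, g (K v) = K' (g v)) ∧ ∀ v, g (Ks v) = Ks' (g v)) ↔
        ∃ p r : Fin (m + 1), Rot m a b t s f a' b' t' s' f' p r)) := by
  refine ⟨?_, ?_, ?_⟩
  · intro V _ _ K Ks
    rw [classify']
    simp only [hA]
  · intro V _ _ hV a b t s f ha hb h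
    haveI : FiniteDimensional F V := Module.finite_of_finrank_pos (by omega)
    obtain ⟨g, hc, ht, hs, -⟩ := (hA _ _ _).2 h
    refine exists_split ((Module.finBasis F V).reindex (finCongr hV)) _ _ _ (fun i hi => ?_)
      (fun i hi => ?_)
    · beta_reduce
      rw [← ht i (by omega)]
      exact mul_ne_zero ha (g.t_ne i (by omega))
    · beta_reduce
      rw [← hs i (by omega)]
      exact mul_ne_zero hb (g.s_ne i (by omega))
  · intro V _ _ V' _ _ K Ks K' Ks' a b a' b' t s f t' s' f' ha hb ha' hb' h h' hS hS'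
    exact conj_iff ((hA _ _ _).2 h) ((hA _ _ _).2 h') ha hb ha' hb' hS hS'

end Pool.Agent.Helper31.IPS
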