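import Mathlib

/-!
MP_d2f54f_al, irreducible inverting pairs: the definitions of the statement.

The data of a pair of dimension `n` are two nonzero scalars `a, b` and an array `(t, s, f)`: the
eigenvalues of `K⁻¹` are `a t_0, .., a t_(n-1)`, those of `K*` are `b s_0, .., b s_(n-1)`, and the
split numbers are `a b f_1, .., a b f_(n-1)`.
-/

namespace Pool.Agent.Results.MP_d2f54f_al.Irreducible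

universe u v w

variable {F : Type u} [Field F]

/-- `(K, Ks)` is an inverting pair on `V`, of dimension `n` (conditions 1 and 2 of the problem). -/
def IsInvertingPair {V : Type v} [AddCommGroup V] [Module F V] (n : ℕ) (K Ks : V ≃ₗ[F] V) : Prop :=
  (∃ e : Module.Basis (Fin n) F V,
    (∀ i j : Fin n, (i : ℕ) + 1 < j → LinearMap.toMatrix e e (K : V →ₗ[F] V) i j = 0) ∧
    (∀ i j : Fin n, (j : ℕ) + 1 < i → LinearMap.toMatrix e e (K.symm : V →ₗ[F] V) i j = 0) ∧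
    (∀ i j : Fin n, i ≠ j → LinearMap.toMatrix e e (Ks : V →ₗ[F] V) i j = 0)) ∧
  (∃ e : Module.Basis (Fin n) F V,
    (∀ i j : Fin n, (i : ℕ) + 1 < j → LinearMap.toMatrix e e (Ks : V →ₗ[F] V) i j = 0) ∧
    (∀ i j : Fin n, (j : ℕ) + 1 < i → LinearMap.toMatrix e e (Ks.symm : V →ₗ[F] V) i j = 0) ∧
    (∀ i j : Fin n, i ≠ j → LinearMap.toMatrix e e (K : V →ₗ[F] V) i j = 0))

/-- `V ≠ 0` and no subspace except `0` and `V` is invariant under both maps. -/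
def IsIrreducible {V : Type v} [AddCommGroup V] [Module F V] (K Ks : V ≃ₗ[F] V) : Prop :=
  Nontrivial V ∧ ∀ U : Submodule F V, (∀ u ∈ U, K u ∈ U) → (∀ u ∈ U, Ks u ∈ U) → U = ⊥ ∨ U = ⊤

/-- The pair has the data `(a, b, t, s, f)`: in some basis `x_0, .., x_(n-1)` (with `x_n = x_(-1) = 0`)
`K⁻¹ x_i = a t_i x_i + x_(i+1)` and `Ks x_i = b s_i x_i + a b f_i x_(i-1)`. -/
def HasData {V : Type v} [AddCommGroup V] [Module F V] (n : ℕ) (K Ks : V ≃ₗ[F] V) (a b : F)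
    (t s f : ℕ → F) : Prop :=
  ∃ x : Module.Basis (Fin n) F V,
    (∀ i : Fin n, K.symm (x i) = (a * t i) • x i
      + if h : (i : ℕ) + 1 < n then x ⟨i + 1, h⟩ else 0) ∧
    (∀ i : Fin n, Ks (x i) = (b * s i) • x i
      + if h : 0 < (i : ℕ) then (a * b * f i) • x ⟨i - 1, by omega⟩ else 0)

/-- The main array of dimension `n` with the parameters `q, c`: `t_i = s_i = q ^ i` and
`f_k = q^(k-1) (1 - q^k) (q^(n-k) - 1) / (1 + c q^(n-k))`, where `q, c` are nonzero, `q ^ i ≠ 1` and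
`1 + c q ^ i ≠ 0` for `1 ≤ i < n`. -/
def IsMain (n : ℕ) (q c : F) (t s f : ℕ → F) : Prop :=
  q ≠ 0 ∧ c ≠ 0 ∧ (∀ i, 1 ≤ i → i < n → q ^ i ≠ 1 ∧ 1 + c * q ^ i ≠ 0) ∧
    (∀ i, i < n → t i = q ^ i) ∧ (∀ i, i < n → s i = q ^ i) ∧
    ∀ k, 1 ≤ k → k < n →
      f k = q ^ (k - 1) * (1 - q ^ k) * (q ^ (n - k) - 1) / (1 + c * q ^ (n - k))

/-- The main arrays of dimension `n`. -/
def MainArray (n : ℕ) (t s f : ℕ → F) : Prop := ∃ q c : F, IsMain n q c t s f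

/-- The arrays of dimension 2. -/
structure Array2 (t s f : ℕ → F) : Prop where
  t0 : t 0 = 1
  s0 : s 0 = 1
  t1n : t 1 ≠ 0
  s1n : s 1 ≠ 0
  t1d : t 1 ≠ 1
  s1d : s 1 ≠ 1
  f1 : f 1 ≠ 0
  fn : f 1 + (t 1 - 1) * (s 1 - 1) ≠ 0

/-- The arrays of dimension 3. -/
structure Array3 (t s f : ℕ → F) : Prop where
  t0 : t 0 = 1
  s0 : s 0 = 1
  st : s 2 = t 2
  t1n : t 1 ≠ 0
  t2n : t 2 ≠ 0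
  s1n : s 1 ≠ 0
  t1d : t 1 ≠ 1
  t2d : t 2 ≠ 1
  s1d : s 1 ≠ 1
  t12 : t 1 ≠ t 2
  s12 : s 1 ≠ t 2
  eq : (f 1 - (t 2 - 1)) * (f 2 + t 2 * (t 2 - 1)) = -(t 1 * s 1 * (t 2 - 1) ^ 2)
  f1 : f 1 ≠ 0
  f2 : f 2 ≠ 0
  ft : f 1 + (t 1 - 1) * (t 2 - 1) ≠ 0
  fs : f 1 + (s 1 - 1) * (t 2 - 1) ≠ 0

/-- The arrays of dimension 4, first family (`e` is a free parameter). -/
structure ArrayD4 (t s f : ℕ → F) (e : F) : Prop where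
  t0 : t 0 = 1
  s0 : s 0 = 1
  s1 : s 1 = t 1
  s2 : s 2 = t 2
  s3 : s 3 = t 3
  t3 : t 3 = t 1 * t 2
  n1 : t 1 ≠ 0
  n2 : t 2 ≠ 0
  d1 : t 1 ≠ 1
  d2 : t 2 ≠ 1
  d12 : t 2 ≠ t 1
  d3 : t 3 ≠ 1
  e0 : e ≠ 0
  e1 : 1 + e ≠ 0
  e2 : t 1 - 1 + t 1 * e ≠ 0
  e3 : t 1 - 1 - e ≠ 0
  e4 : (t 1 - 1) * (t 1 + t 2) + (t 1 ^ 2 - t 2) * e ≠ 0
  e5 : (t 1 - 1) * (t 1 + t 2) + t 1 * (t 2 - 1) * e ≠ 0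
  f1 : f 1 * (t 1 - 1 + t 1 * e) = (t 1 - 1) * (t 3 - 1)
  f2 : f 2 * e = (t 2 - 1) * ((t 1 - 1) * (t 1 + t 2) + (t 1 ^ 2 - t 2) * e)
  f3 : f 3 * (t 1 - 1 - e) = -(t 3 * (t 1 - 1) * (t 3 - 1))

/-- The arrays of dimension 4, second family. -/
structure ArrayN4 (t s f : ℕ → F) : Prop where
  t0 : t 0 = 1
  s0 : s 0 = 1
  s1 : s 1 = -t 2
  s2 : s 2 = -t 1
  s3 : s 3 = t 3
  t3 : t 3 = t 1 * t 2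
  n1 : t 1 ≠ 0
  n2 : t 2 ≠ 0
  d1 : t 1 ≠ 1
  d2 : t 2 ≠ 1
  d1' : t 1 ≠ -1
  d2' : t 2 ≠ -1
  d12 : t 2 ≠ t 1
  d3 : t 3 ≠ 1
  f1 : f 1 = t 3 - 1
  f2 : f 2 ≠ 0
  f2' : f 2 ≠ -((t 1 + 1) * (t 2 - 1) * (t 2 - t 1))
  f3 : f 3 = -(t 3 * (t 3 - 1))

/-- The arrays of dimension 4, third family (characteristic not 2). -/
structure ArrayM4 (t s f : ℕ → F) : Prop where
  two : (2 : F) ≠ 0
  t0 : t 0 = 1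
  s0 : s 0 = 1
  s3 : s 3 = -t 3
  t2 : t 2 * (t 1 * (t 3 - 1) + 2 * t 3) = t 3 * (2 * t 1 - t 3 + 1)
  s2 : s 2 * (s 1 * (t 3 + 1) + 2 * t 3) = t 3 * (2 * s 1 + t 3 + 1)
  n1 : t 1 ≠ 0
  n2 : s 1 ≠ 0
  n3 : t 3 ≠ 0
  n4 : t 2 ≠ 0
  n5 : s 2 ≠ 0
  d1 : t 1 ≠ 1
  d2 : s 1 ≠ 1
  d3 : t 3 ≠ 1
  d3' : t 3 ≠ -1
  d4 : t 1 + s 1 ≠ 0
  d5 : t 1 ≠ t 3
  d6 : s 1 + t 3 ≠ 0
  d7 : t 1 ^ 2 + t 3 ≠ 0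
  d8 : s 1 ^ 2 ≠ t 3
  d9 : t 1 * t 3 - 3 * t 1 + 3 * t 3 - 1 ≠ 0
  d10 : s 1 * t 3 + 3 * s 1 + 3 * t 3 + 1 ≠ 0
  k0 : t 1 * t 3 - t 1 + s 1 * t 3 + s 1 + 2 * t 3 ≠ 0
  k1 : 2 * t 1 * s 1 + t 1 * t 3 - t 1 - s 1 * t 3 + s 1 + 2 * t 3 ≠ 0
  k2 : -2 * t 1 * s 1 - t 1 * t 3 - t 1 + s 1 * t 3 + s 1 + 2 * t 3 ≠ 0
  k3 : -t 1 ^ 2 * s 1 * t 3 - t 1 ^ 2 * s 1 - 2 * t 1 ^ 2 * t 3 - t 1 * s 1 ^ 2 * t 3 +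
    t 1 * s 1 ^ 2 + t 1 * t 3 ^ 2 - t 1 * t 3 - 2 * s 1 ^ 2 * t 3 - s 1 * t 3 ^ 2 - s 1 * t 3 ≠ 0
  f1 : f 1 * (2 * t 1 * s 1 + t 1 * t 3 + t 1 - s 1 * t 3 + s 1) =
    (t 1 + s 1) * (t 3 ^ 2 - 1)
  f2 : f 2 * (2 * (t 1 * (t 3 - 1) + 2 * t 3) * (s 1 * (t 3 + 1) + 2 * t 3)) =
    -((t 3 ^ 2 - 1) * (2 * t 1 ^ 2 * s 1 ^ 2 + t 1 ^ 2 * s 1 * t 3 + t 1 ^ 2 * s 1 -
      t 1 * s 1 ^ 2 * t 3 + t 1 * s 1 ^ 2 + t 1 * t 3 ^ 2 - t 1 * t 3 + s 1 * t 3 ^ 2 +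
      s 1 * t 3 + 2 * t 3 ^ 2))
  f3 : f 3 * (t 1 * t 3 - t 1 + s 1 * t 3 + s 1 + 2 * t 3) =
    -(t 3 * (4 * t 1 * s 1 - t 1 * t 3 ^ 2 + 4 * t 1 * t 3 + t 1 - s 1 * t 3 ^ 2 -
      4 * s 1 * t 3 + s 1 - 4 * t 3 ^ 2))
  f1' : f 1 ≠ 0
  f2' : f 2 ≠ 0
  f3' : f 3 ≠ 0

/-- The arrays of dimension 5, first exceptional family: points of the surface `q = r = 0`. -/
structure ArrayD5 (t s f : ℕ → F) : Prop where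
  t0 : t 0 = 1
  s0 : s 0 = 1
  s1 : s 1 = t 1
  s2 : s 2 = t 2
  s3 : s 3 = t 3
  s4 : s 4 = t 4
  n1 : t 1 ≠ 0
  n2 : t 2 ≠ 0
  n3 : t 3 ≠ 0
  n4 : t 4 ≠ 0
  d01 : t 1 ≠ 1
  d02 : t 2 ≠ 1
  d03 : t 3 ≠ 1
  d04 : t 4 ≠ 1
  d12 : t 1 ≠ t 2
  d13 : t 1 ≠ t 3
  d14 : t 1 ≠ t 4
  d23 : t 2 ≠ t 3
  d24 : t 2 ≠ t 4
  d34 : t 3 ≠ t 4
  q : (1 - t 2) * (t 4 - t 1 ^ 2 * t 3) + (t 1 - t 3) * (t 4 - t 1 * t 2) = 0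
  r : (t 4 - t 2) * (t 4 ^ 2 - t 1 * t 3 ^ 2) + t 4 * (t 3 - t 1) * (t 4 - t 2 * t 3) = 0
  cd : t 3 + t 4 ≠ 0
  x0 : t 4 + (t 1 + 1) * t 3 ≠ 0
  y0 : t 1 * t 3 + t 1 * t 4 + t 4 ≠ 0
  a1 : t 1 + 1 ≠ 0
  ac : t 1 * t 3 + t 4 ≠ 0
  bd : t 2 ^ 2 ≠ t 4
  f1 : f 1 * (t 4 + (t 1 + 1) * t 3) = (t 3 + t 4) * (t 4 - 1)
  f2 : t 4 * f 2 = -(t 1 * t 4 * (1 + t 1 + t 2 - t 3 - t 4) + t 1 * t 2 * t 3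
    - t 2 * t 3 * t 4 * (1 + t 1))
  f3 : t 4 * f 3 = t 3 * t 4 + t 1 * t 2 * t 4 + t 1 * t 2 * t 3 + t 1 * t 3 * t 4
    - t 2 * t 3 * t 4 - t 3 ^ 2 * t 4 - t 3 * t 4 ^ 2 - t 1 * t 2 * t 3 * t 4
  f4 : f 4 * (t 1 * t 3 + t 1 * t 4 + t 4) = -(t 4 ^ 2 * (t 1 + 1) * (t 4 - 1))
  f2n : f 2 ≠ 0
  f3n : f 3 ≠ 0

/-- The arrays of dimension 5, second exceptional family (the reversed pairs of the first). -/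
structure ArrayR5 (t s f : ℕ → F) : Prop where
  t0 : t 0 = 1
  s0 : s 0 = 1
  s1 : s 1 * t 3 = t 4
  s2 : s 2 * t 2 = t 4
  s3 : s 3 * t 1 = t 4
  s4 : s 4 = t 4
  n1 : t 1 ≠ 0
  n2 : t 2 ≠ 0
  n3 : t 3 ≠ 0
  n4 : t 4 ≠ 0
  d01 : t 1 ≠ 1
  d02 : t 2 ≠ 1
  d03 : t 3 ≠ 1
  d04 : t 4 ≠ 1
  d12 : t 1 ≠ t 2
  d13 : t 1 ≠ t 3
  d14 : t 1 ≠ t 4
  d23 : t 2 ≠ t 3
  d24 : t 2 ≠ t 4
  d34 : t 3 ≠ t 4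
  q : (1 - t 2) * (t 4 - t 1 ^ 2 * t 3) + (t 1 - t 3) * (t 4 - t 1 * t 2) = 0
  r : (t 4 - t 2) * (t 4 ^ 2 - t 1 * t 3 ^ 2) + t 4 * (t 3 - t 1) * (t 4 - t 2 * t 3) = 0
  cd : t 3 + t 4 ≠ 0
  x0 : t 4 + (t 1 + 1) * t 3 ≠ 0
  y0 : t 1 * t 3 + t 1 * t 4 + t 4 ≠ 0
  a1 : t 1 + 1 ≠ 0
  ac : t 1 * t 3 + t 4 ≠ 0
  bd : t 2 ^ 2 ≠ t 4
  g2n : t 1 * t 2 * t 3 * t 4 + t 2 * t 3 * t 4 + t 1 * t 3 * t 4 - t 1 * t 2 * t 4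
    - t 1 * t 2 * t 3 + t 1 * t 4 ^ 2 - t 1 ^ 2 * t 4 - t 1 * t 4 ≠ 0
  g3n : t 1 * t 2 * t 3 * t 4 + t 3 ^ 2 * t 4 + t 3 * t 4 ^ 2 + t 2 * t 3 * t 4
    - t 1 * t 3 * t 4 - t 1 * t 2 * t 4 - t 1 * t 2 * t 3 - t 3 * t 4 ≠ 0
  f1 : f 1 * (t 1 * t 3 + t 1 * t 4 + t 4) = (t 4 - 1) * (t 1 * t 3 + t 4)
  f2 : t 3 * t 4 * f 2 = t 2 * t 3 ^ 2 * t 4 - t 1 * t 3 * t 4 + t 1 * t 3 * t 4 ^ 2
    + t 1 * t 3 ^ 2 * t 4 - t 1 * t 2 * t 3 ^ 2 - t 1 ^ 2 * t 3 * t 4 - t 1 ^ 2 * t 2 * t 4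
    + t 1 ^ 2 * t 2 * t 3 * t 4
  f3 : t 1 * t 4 * f 3 = -(t 2 * t 3 ^ 2 * t 4 - t 1 * t 3 * t 4 + t 1 * t 3 * t 4 ^ 2
    + t 1 * t 3 ^ 2 * t 4 - t 1 * t 2 * t 3 ^ 2 - t 1 ^ 2 * t 3 * t 4 - t 1 ^ 2 * t 2 * t 4
    + t 1 ^ 2 * t 2 * t 3 * t 4)
  f4 : f 4 * (t 4 + (t 1 + 1) * t 3) = -(t 4 * (t 4 - 1) * (t 1 * t 3 + t 4))

/-- The arrays of dimension 5, third exceptional family (characteristic not 2 or 3): `w` is a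
primitive cube root of unity, `e` a root of `e ^ 2 = 2 (1 + 2 w) e + 1`, and `f 1` is free. -/
structure ArrayW5 (t s f : ℕ → F) (w e : F) : Prop where
  hw : w ^ 2 + w + 1 = 0
  he : e ^ 2 = 2 * (1 + 2 * w) * e + 1
  n6 : (6 : F) ≠ 0
  t0 : t 0 = 1
  t1 : t 1 = (1 + w) * e
  t2 : t 2 = -(w * e)
  t3 : t 3 = -e
  t4 : t 4 = w ^ 2 * e ^ 2
  s0 : s 0 = 1
  s1 : s 1 = w * e
  s2 : s 2 = -((1 + w) * e)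
  s3 : s 3 = e
  s4 : s 4 = w * e ^ 2
  f1 : f 1 ≠ 0
  n2 : f 1 + (3 + (1 + 2 * w) * e) ≠ 0
  n3 : 2 * f 1 + (3 + (1 + 2 * w) * e) ≠ 0
  n4 : f 1 + (w * e + 5 * w - 13 * e + 4) ≠ 0
  n5 : f 1 + (w * e - 5 * w + 14 * e - 1) ≠ 0
  f2 : f 2 = 3 + 5 * (1 + 2 * w) * e
  f3 : f 3 = -(3 + 5 * (1 + 2 * w) * e)
  f4 : f 4 * (2 * f 1 + (3 + (1 + 2 * w) * e)) =
    (27 + 49 * (1 + 2 * w) * e) * (f 1 + (3 + (1 + 2 * w) * e))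

/-- The arrays of dimension 6, first exceptional family: over a curve in `(a, r)`, `f 1` free. -/
structure ArrayE6 (t s f : ℕ → F) (a r : F) : Prop where
  curve : r ^ 2 + (1 + a) * (1 + a + a ^ 2) * r + a ^ 3 = 0
  a0 : a ≠ 0
  r0 : r ≠ 0
  two : (2 : F) ≠ 0
  a1 : a ≠ 1
  a1' : a ≠ -1
  r1 : r ≠ 1
  r1' : r ≠ -1
  ar : r ≠ a
  ar' : r ≠ -a
  ar1 : a * r ≠ 1
  t0 : t 0 = 1
  t1 : t 1 = a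
  t2 : t 2 = -a
  t3 : t 3 = -r
  t4 : t 4 = r
  t5 : t 5 = a * r
  s0 : s 0 = 1
  s1 : s 1 = a
  s2 : s 2 = -a
  s3 : s 3 = -r
  s4 : s 4 = r
  s5 : s 5 = a * r
  f2 : f 2 = a * (a + 1) * (r - 1)
  f3 : f 3 * ((a + 1) * ((a + 1) * f 1 - (a * r - 1))) =
    -((r - a) * (r + a) * (r * f 1 + (a + 1) * (r + a)))
  f4 : f 4 = -(r * (a + 1) * (r - 1))
  f5 : f 5 * ((a + 1) * (a ^ 2 + 1) * f 1 - (a * r - 1)) = -(a ^ 4 * r * (a * r - 1) * f 1)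
  n1 : f 1 ≠ 0
  n2 : (a + 1) * f 1 - (a * r - 1) ≠ 0
  n3 : r * f 1 + (a + 1) * (r + a) ≠ 0
  n4 : (a + 1) * (a ^ 2 + 1) * f 1 - (a * r - 1) ≠ 0
  n6 : (a + 1) * (a ^ 2 + 1) * f 1 + (r ^ 2 - 1) * (a * r - 1) ≠ 0
  n7 : f 1 + (a - 1) * (a * r - 1) ≠ 0

/-- The arrays of dimension 6, second exceptional family: over a curve in `(a, r)`, `f 3` free. -/
structure ArrayF6 (t s f : ℕ → F) (a r : F) : Prop where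
  curve : r ^ 2 * a ^ 2 + a * (r - 1) * (r + 1) ^ 2 - r = 0
  a0 : a ≠ 0
  r0 : r ≠ 0
  a1 : a ≠ 1
  r1 : r ≠ 1
  r1' : r ≠ -1
  r3 : r ^ 2 + r + 1 ≠ 0
  ra : r * a ≠ 1
  ra2 : r ^ 2 * a ≠ 1
  ra3 : r ^ 3 * a ≠ 1
  ra4 : r ^ 3 * a ^ 2 ≠ 1
  ar : a + r ≠ 0
  ar3 : a + r ^ 3 ≠ 0
  t0 : t 0 = 1
  t1 : t 1 = a
  t2 : t 2 = r ^ 2 * a
  t3 : t 3 = r * a
  t4 : t 4 = r ^ 3 * a
  t5 : t 5 = r ^ 3 * a ^ 2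
  s0 : s 0 = 1
  s1 : s 1 = a
  s2 : s 2 = r ^ 2 * a
  s3 : s 3 = r * a
  s4 : s 4 = r ^ 3 * a
  s5 : s 5 = r ^ 3 * a ^ 2
  f1 : f 1 = (r + 1) * (r ^ 2 * a - 1)
  f2 : f 2 = a * (r - 1) * (a - f 1)
  f3 : f 3 ≠ 0
  f3' : f 3 * ((r + 1) * (r ^ 2 * a - 1)) ≠
    r * a * (r - 1) * (r * a - 1) * (r ^ 5 * a ^ 2 - 1)
  f4 : f 4 = -(r ^ 3 * f 2)
  f5 : f 5 = -(a ^ 3 * r ^ 3 * f 1)

/-- The list of the arrays of dimension `n`. -/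
def IsArray (n : ℕ) (t s f : ℕ → F) : Prop :=
  match n with
  | 0 => False
  | 1 => t 0 = 1 ∧ s 0 = 1
  | 2 => Array2 t s f
  | 3 => Array3 t s f
  | 4 => (∃ e, ArrayD4 t s f e) ∨ ArrayN4 t s f ∨ ArrayM4 t s f
  | 5 => MainArray 5 t s f ∨ ArrayD5 t s f ∨ ArrayR5 t s f ∨ ∃ w e, ArrayW5 t s f w e
  | 6 => MainArray 6 t s f ∨ (∃ a r, ArrayE6 t s f a r) ∨ ∃ a r, ArrayF6 t s f a r
  | n + 7 => MainArray (n + 7) t s f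

/-- `N_(j,k) = ∑_(l<n) ∏_(i<l) (t_j - t_i) (s_k - s_i) / f_(i+1)`: the pairing of the eigenvectors
of `K*` with those of `K⁻¹`. -/
noncomputable def N (n : ℕ) (t s f : ℕ → F) (j k : ℕ) : F :=
  ∑ l ∈ Finset.range n, ∏ i ∈ Finset.range l, (t j - t i) * (s k - s i) / f (i + 1)

/-- The pairs `(K, Ks)` and `(K', Ks')` are conjugate (isomorphic). -/
def Conjugate {V : Type v} [AddCommGroup V] [Module F V] {V' : Type w} [AddCommGroup V']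
    [Module F V'] (K Ks : V ≃ₗ[F] V) (K' Ks' : V' ≃ₗ[F] V') : Prop :=
  ∃ g : V ≃ₗ[F] V', (∀ v, g (K v) = K' (g v)) ∧ ∀ v, g (Ks v) = Ks' (g v)

/-- The rotation by `(p, r)` of the two orders of the eigenvectors (indices modulo `n = m + 1`)
takes the data `(a, b, t, s, f)` to `(a', b', t', s', f')`. -/
def IsRotation (m : ℕ) (a b : F) (t s f : ℕ → F) (a' b' : F) (t' s' f' : ℕ → F)
    (p r : Fin (m + 1)) : Prop :=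
  (∀ i : Fin (m + 1), a' * t' i = a * t (i + p : Fin (m + 1))) ∧
  (∀ i : Fin (m + 1), b' * s' i = b * s (i + r : Fin (m + 1))) ∧
  (∀ j : Fin (m + 1), N (m + 1) t s f j r ≠ 0) ∧
  (∀ k : Fin (m + 1), N (m + 1) t s f p k ≠ 0) ∧
  ∀ j k : Fin (m + 1), N (m + 1) t' s' f' j k *
      (N (m + 1) t s f (j + p : Fin (m + 1)) r * N (m + 1) t s f p (k + r : Fin (m + 1))) =
    N (m + 1) t s f (j + p : Fin (m + 1)) (k + r : Fin (m + 1)) * N (m + 1) t s f p r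

end Pool.Agent.Results.MP_d2f54f_al.Irreducible
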