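import Pool.Agent.Helper31.IPS.Lists
import Pool.Agent.Helper31.IPS.Final
import Pool.Agent.Helper16.IP.D5S
import Pool.Agent.Helper54.IP.C3Mk
import Pool.Agent.Helper36.IP.W5List

/-!
TH-P: the lists of the final statement are those of the modules.
-/

namespace Pool.Agent.Helper31.IPS

open Pool.Agent.Helper54.IP Pool.Agent.Results.MP_d2f54f_al.Irreducible

variable {F : Type*} [Field F]

theorem Array2_iff (t s f : ℕ → F) : Array2 t s f ↔ Pool.Agent.Helper31.IPS.L2 t s f :=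
  ⟨fun h => ⟨h.t0, h.s0, h.t1n, h.s1n, h.t1d, h.s1d, h.f1, h.fn⟩,
  fun h => ⟨h.t0, h.s0, h.t1n, h.s1n, h.t1d, h.s1d, h.f1, h.fn⟩⟩

theorem Array3_iff (t s f : ℕ → F) : Array3 t s f ↔ Pool.Agent.Helper54.IP.L3 t s f :=
  ⟨fun h => ⟨h.t0, h.s0, h.st, h.t1n, h.t2n, h.s1n, h.t1d, h.t2d, h.s1d, h.t12, h.s12, h.eq,
    h.f1, h.f2, h.ft, h.fs⟩,
  fun h => ⟨h.t0, h.s0, h.st, h.t1n, h.t2n, h.s1n, h.t1d, h.t2d, h.s1d, h.t12, h.s12, h.eq,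
    h.f1, h.f2, h.ft, h.fs⟩⟩

theorem ArrayD4_iff (t s f : ℕ → F) (e : F) : ArrayD4 t s f e ↔ Pool.Agent.Helper54.IP.D4 t s f e :=
  ⟨fun h => ⟨h.t0, h.s0, h.s1, h.s2, h.s3, h.t3, h.n1, h.n2, h.d1, h.d2, h.d12, h.d3, h.e0,
    h.e1, h.e2, h.e3, h.e4, h.e5, h.f1, h.f2, h.f3⟩,
  fun h => ⟨h.t0, h.s0, h.s1, h.s2, h.s3, h.t3, h.n1, h.n2, h.d1, h.d2, h.d12, h.d3, h.e0, h.e1,
    h.e2, h.e3, h.e4, h.e5, h.f1, h.f2, h.f3⟩⟩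

theorem ArrayN4_iff (t s f : ℕ → F) : ArrayN4 t s f ↔ Pool.Agent.Helper54.IP.N4 t s f :=
  ⟨fun h => ⟨h.t0, h.s0, h.s1, h.s2, h.s3, h.t3, h.n1, h.n2, h.d1, h.d2, h.d1', h.d2', h.d12,
    h.d3, h.f1, h.f2, h.f2', h.f3⟩,
  fun h => ⟨h.t0, h.s0, h.s1, h.s2, h.s3, h.t3, h.n1, h.n2, h.d1, h.d2, h.d1', h.d2', h.d12,
    h.d3, h.f1, h.f2, h.f2', h.f3⟩⟩

theorem ArrayM4_iff (t s f : ℕ → F) : ArrayM4 t s f ↔ Pool.Agent.Helper54.IP.M4 t s f :=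
  ⟨fun h => ⟨h.two, h.t0, h.s0, h.s3, h.t2, h.s2, h.n1, h.n2, h.n3, h.n4, h.n5, h.d1, h.d2,
    h.d3, h.d3', h.d4, h.d5, h.d6, h.d7, h.d8, h.d9, h.d10, h.k0, h.k1, h.k2, h.k3, h.f1, h.f2,
    h.f3, h.f1', h.f2', h.f3'⟩,
  fun h => ⟨h.two, h.t0, h.s0, h.s3, h.t2, h.s2, h.n1, h.n2, h.n3, h.n4, h.n5, h.d1, h.d2, h.d3,
    h.d3', h.d4, h.d5, h.d6, h.d7, h.d8, h.d9, h.d10, h.k0, h.k1, h.k2, h.k3, h.f1, h.f2, h.f3,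
    h.f1', h.f2', h.f3'⟩⟩

theorem ArrayD5_iff (t s f : ℕ → F) : ArrayD5 t s f ↔ Pool.Agent.Helper82.IP.D5L t s f :=
  ⟨fun h => ⟨h.t0, h.s0, h.s1, h.s2, h.s3, h.s4, h.n1, h.n2, h.n3, h.n4, h.d01, h.d02, h.d03,
    h.d04, h.d12, h.d13, h.d14, h.d23, h.d24, h.d34, h.q, h.r, h.cd, h.x0, h.y0, h.a1, h.ac,
    h.bd, h.f1, h.f2, h.f3, h.f4, h.f2n, h.f3n⟩,
  fun h => ⟨h.t0, h.s0, h.s1, h.s2, h.s3, h.s4, h.n1, h.n2, h.n3, h.n4, h.d01, h.d02, h.d03,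
    h.d04, h.d12, h.d13, h.d14, h.d23, h.d24, h.d34, h.q, h.r, h.cd, h.x0, h.y0, h.a1, h.ac,
    h.bd, h.f1, h.f2, h.f3, h.f4, h.f2n, h.f3n⟩⟩

theorem ArrayR5_iff (t s f : ℕ → F) : ArrayR5 t s f ↔ Pool.Agent.Helper16.IP.D5S t s f :=
  ⟨fun h => ⟨h.t0, h.s0, h.s1, h.s2, h.s3, h.s4, h.n1, h.n2, h.n3, h.n4, h.d01, h.d02, h.d03,
    h.d04, h.d12, h.d13, h.d14, h.d23, h.d24, h.d34, h.q, h.r, h.cd, h.x0, h.y0, h.a1, h.ac,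
    h.bd, h.g2n, h.g3n, h.f1, h.f2, h.f3, h.f4⟩,
  fun h => ⟨h.t0, h.s0, h.s1, h.s2, h.s3, h.s4, h.n1, h.n2, h.n3, h.n4, h.d01, h.d02, h.d03,
    h.d04, h.d12, h.d13, h.d14, h.d23, h.d24, h.d34, h.q, h.r, h.cd, h.x0, h.y0, h.a1, h.ac,
    h.bd, h.g2n, h.g3n, h.f1, h.f2, h.f3, h.f4⟩⟩

theorem ArrayW5_iff (t s f : ℕ → F) (w e : F) : ArrayW5 t s f w e ↔ Pool.Agent.Helper36.IP.W5L w e t s f :=
  ⟨fun h => ⟨h.hw, h.he, h.n6, h.t0, h.t1, h.t2, h.t3, h.t4, h.s0, h.s1, h.s2, h.s3, h.s4, h.f1,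
    h.n2, h.n3, h.n4, h.n5, h.f2, h.f3, h.f4⟩,
  fun h => ⟨h.hw, h.he, h.n6, h.t0, h.t1, h.t2, h.t3, h.t4, h.s0, h.s1, h.s2, h.s3, h.s4, h.f1,
    h.n2, h.n3, h.n4, h.n5, h.f2, h.f3, h.f4⟩⟩

theorem ArrayE6_iff (t s f : ℕ → F) (a r : F) : ArrayE6 t s f a r ↔ Pool.Agent.Helper76.IP.E1L a r t s f :=
  ⟨fun h => ⟨h.curve, h.a0, h.r0, h.two, h.a1, h.a1', h.r1, h.r1', h.ar, h.ar', h.ar1, h.t0,
    h.t1, h.t2, h.t3, h.t4, h.t5, h.s0, h.s1, h.s2, h.s3, h.s4, h.s5, h.f2, h.f3, h.f4, h.f5,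
    h.n1, h.n2, h.n3, h.n4, h.n6, h.n7⟩,
  fun h => ⟨h.curve, h.a0, h.r0, h.two, h.a1, h.a1', h.r1, h.r1', h.ar, h.ar', h.ar1, h.t0,
    h.t1, h.t2, h.t3, h.t4, h.t5, h.s0, h.s1, h.s2, h.s3, h.s4, h.s5, h.f2, h.f3, h.f4, h.f5,
    h.n1, h.n2, h.n3, h.n4, h.n6, h.n7⟩⟩

theorem ArrayF6_iff (t s f : ℕ → F) (a r : F) : ArrayF6 t s f a r ↔ Pool.Agent.Helper27.IPE2.E2L a r t s f :=
  ⟨fun h => ⟨h.curve, h.a0, h.r0, h.a1, h.r1, h.r1', h.r3, h.ra, h.ra2, h.ra3, h.ra4, h.ar,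
    h.ar3, h.t0, h.t1, h.t2, h.t3, h.t4, h.t5, h.s0, h.s1, h.s2, h.s3, h.s4, h.s5, h.f1, h.f2,
    h.f3, h.f3', h.f4, h.f5⟩,
  fun h => ⟨h.curve, h.a0, h.r0, h.a1, h.r1, h.r1', h.r3, h.ra, h.ra2, h.ra3, h.ra4, h.ar,
    h.ar3, h.t0, h.t1, h.t2, h.t3, h.t4, h.t5, h.s0, h.s1, h.s2, h.s3, h.s4, h.s5, h.f1, h.f2,
    h.f3, h.f3', h.f4, h.f5⟩⟩

theorem MainArray_iff (m : ℕ) (t s f : ℕ → F) : MainArray (m + 1) t s f ↔ MainL m t s f := by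
  constructor
  · rintro ⟨q, c, hq, hc, h1, ht, hs, hf⟩
    refine ⟨q, c, ⟨one_ne_zero, one_ne_zero, hq, hc, h1⟩, fun i hi => ht i (by omega),
      fun i hi => hs i (by omega), fun k h1 h2 => ?_⟩
    rw [hf k h1 (by omega), phi, one_mul, one_mul]
  · rintro ⟨q, c, ⟨-, -, hq, hc, h1⟩, ht, hs, hf⟩
    refine ⟨q, c, hq, hc, h1, fun i hi => ht i (by omega), fun i hi => hs i (by omega),
      fun k h1 h2 => ?_⟩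
    rw [hf k h1 (by omega), phi, one_mul, one_mul]

theorem good_of_main {n : ℕ} {q c a b : F} {t s f : ℕ → F} (h : IsMain n q c t s f) (ha : a ≠ 0)
    (hb : b ≠ 0) : Pool.Agent.Helper14.IP.Good n a b q c :=
  ⟨ha, hb, h.1, h.2.1, h.2.2.1⟩

theorem isMain_of_main {V : Type*} [AddCommGroup V] [Module F V] {n : ℕ} {K Ks : V ≃ₗ[F] V}
    {q c a b : F} {t s f : ℕ → F} (h : IsMain n q c t s f) (hD : HasData n K Ks a b t s f) :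
    Pool.Agent.Helper54.IP.IsMain n K Ks a b q c := by
  obtain ⟨-, -, -, ht, hs, hf⟩ := h
  obtain ⟨x, hK, hKs⟩ := hD
  refine ⟨x, fun i => ?_, fun i => ?_⟩
  · rw [hK, ht i i.2]
  · rw [hKs, hs i i.2]
    congr 1
    by_cases h0 : 0 < (i : ℕ)
    · rw [dif_pos h0, dif_pos h0, hf i h0 i.2, phi, mul_div_assoc', mul_assoc (a * b),
        mul_assoc (a * b)]
    · rw [dif_neg h0, dif_neg h0]

theorem N_eq (m : ℕ) (t s f : ℕ → F) (j k : ℕ) : N (m + 1) t s f j k = nsum m t s f j k := by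
  rw [N, nsum]
  refine Finset.sum_congr rfl fun l _ => ?_
  rw [cf, ← Finset.prod_mul_distrib, ← Finset.prod_mul_distrib]
  refine Finset.prod_congr rfl fun i _ => ?_
  rw [div_eq_mul_inv, mul_comm]

theorem IsRotation_iff (m : ℕ) (a b : F) (t s f : ℕ → F) (a' b' : F) (t' s' f' : ℕ → F)
    (p r : Fin (m + 1)) : IsRotation m a b t s f a' b' t' s' f' p r ↔
      Rot m a b t s f a' b' t' s' f' p r := by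
  rw [IsRotation, Rot]
  simp only [N_eq]

end Pool.Agent.Helper31.IPS
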