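import Pool.Agent.Helper14.IP.Newton
import Pool.Agent.Helper54.IP.CTools

/-!
TH-P: the Newton (duality) expansion of a corner,
`G j k = ∑_l ∏_{i<l} (t j - t i) (s k - s i) / f (i + 1)`, `f` the split numbers.
-/

namespace Pool.Agent.Helper31.IPS

open Pool.Agent.Helper54.IP Pool.Agent.Helper14.IP Polynomial Finset

variable {F : Type*} [Field F] {m : ℕ}

/-- the coefficient of the expansion -/
def cf (f : ℕ → F) (l : ℕ) : F := ∏ i ∈ range l, (f (i + 1))⁻¹

/-- the Newton sum -/
def nsum (m : ℕ) (t s f : ℕ → F) (j k : ℕ) : F :=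
  ∑ l ∈ range (m + 1), cf f l * ((∏ i ∈ range l, (t j - t i)) * ∏ i ∈ range l, (s k - s i))

theorem prod_zero_of_lt {t : ℕ → F} {j l : ℕ} (h : j < l) : ∏ i ∈ range l, (t j - t i) = 0 :=
  prod_eq_zero (mem_range.2 h) (sub_self _)

theorem IsPhi_ne {g : GForm F m} {f : ℕ → F} (h : g.IsPhi f) {k : ℕ} (hk : k < m) :
    f (k + 1) ≠ 0 := by
  intro h0
  have h1 := h k hk
  rw [h0, zero_mul] at h1
  exact prod_s_ne g (k := k + 1) le_rfl (by omega) h1.symm

/-- `cf f k * N'_k (s k) = ∏_{i<k} (1 - lam i)` -/
theorem cf_lam {g : GForm F m} {f : ℕ → F} (h : g.IsPhi f) : ∀ k, k ≤ m →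
    cf f k * ∏ i ∈ range k, (g.s k - g.s i) = ∏ i ∈ range k, (1 - g.lam i) := by
  intro k
  induction k with
  | zero => intro _; simp [cf]
  | succ k ih =>
    intro hk
    have h1 := ih (by omega)
    have h2 := h k (by omega)
    have h3 := IsPhi_ne h (k := k) (by omega)
    rw [prod_range_succ (fun i => 1 - g.lam i), ← h1, cf, prod_range_succ, ← cf, ← h2]
    field_simp

theorem cf_lam' {g : GForm F m} {f : ℕ → F} (h : g.IsPhi f) {k : ℕ} (hk : k ≤ m) :
    cf f k * ∏ i ∈ range k, (g.t k - g.t i) = ∏ i ∈ range k, (1 - g.lam' i) := by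
  have h1 := cf_lam h k hk
  have h2 := newton_diag g hk
  have h3 := prod_s_ne g (k := k) le_rfl hk
  apply mul_right_cancel₀ h3
  rw [← h2, ← h1]
  ring

/-- the split numbers of the swap are the same -/
theorem IsPhi_swap {g : GForm F m} {f : ℕ → F} (h : g.IsPhi f) : g.swap.IsPhi f := by
  intro k hk
  have h1 := h k hk
  have h2 := dg g hk
  have h3 := prod_s_ne g (k := k + 1) le_rfl (by omega)
  have h4 := prod_s_ne g (k := k) le_rfl (by omega)
  have h5 : 1 - g.lam k ≠ 0 := sub_ne_zero.2 (g.lam_ne k hk).symm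
  simp only [GForm.swap_s, GForm.swap_lam]
  apply mul_left_cancel₀ (mul_ne_zero h4 h5)
  rw [← h1] at h2
  apply mul_left_cancel₀ (IsPhi_ne h hk)
  linear_combination (-(f (k + 1) * 1)) * h2

/-- `E_{j k}` of column `k` is a polynomial of degree `< k` -/
theorem col_E {g : GForm F m} {f : ℕ → F} (h : g.IsPhi f) {k : ℕ} (hk : k ≤ m)
    (h0 : ∀ j, j < k → g.G j k = nsum m g.t g.s f j k) {j : ℕ} (hj : j ≤ m) :
    g.G j k = nsum m g.t g.s f j k := by
  obtain ⟨p, r, hp, -, hc, h1, -⟩ := col_poly g k hk
  set q : F[X] := ∑ l ∈ range (k + 1),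
    C (cf f l * ∏ i ∈ range l, (g.s k - g.s i)) * ∏ i ∈ range l, (X - C (g.t i)) with hq
  have hqe : ∀ j, j ≤ m → q.eval (g.t j) = nsum m g.t g.s f j k := by
    intro j hj
    rw [hq, eval_finset_sum, nsum]
    have : range (m + 1) = range (k + 1) ∪ (range (m + 1)).filter (fun l => k < l) := by
      ext l
      simp only [mem_range, mem_union, mem_filter]
      omega
    rw [← sum_subset (s₁ := range (k + 1)) (s₂ := range (m + 1))
      (range_subset_range.2 (by omega))]
    · refine sum_congr rfl fun l _ => ?_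
      rw [eval_mul, eval_C, eval_prod]
      simp only [eval_sub, eval_X, eval_C]
      ring
    · intro l _ hl
      have hl : k < l := by
        have := mt mem_range.2 hl
        omega
      rw [prod_zero_of_lt (t := g.s) hl, mul_zero, mul_zero]
  have hmon : ∀ l, (∏ i ∈ range l, (X - C (g.t i)) : F[X]).Monic := fun l =>
    monic_prod_of_monic _ _ fun i _ => monic_X_sub_C _
  have hdeg : ∀ l, (∏ i ∈ range l, (X - C (g.t i)) : F[X]).natDegree = l := by
    intro l
    rw [natDegree_prod_of_monic _ _ fun i _ => monic_X_sub_C _]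
    simp
  have hd : (p - q).degree < k := by
    rw [degree_lt_iff_coeff_zero]
    intro n hn
    rw [coeff_sub]
    rcases Nat.eq_or_lt_of_le hn with rfl | hn
    · rw [hc, hq, finset_sum_coeff, sum_range_succ, sum_eq_zero, zero_add, coeff_C_mul]
      · have := (hmon k).coeff_natDegree
        rw [hdeg] at this
        rw [this, mul_one, cf_lam h k hk, sub_self]
      · intro l hl
        have hl := mem_range.1 hl
        rw [coeff_C_mul, coeff_eq_zero_of_natDegree_lt (by rw [hdeg]; exact hl), mul_zero]
    · rw [coeff_eq_zero_of_natDegree_lt (by omega), hq, finset_sum_coeff, sum_eq_zero, sub_self]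
      intro l hl
      have hl := mem_range.1 hl
      rw [coeff_C_mul, coeff_eq_zero_of_natDegree_lt (by rw [hdeg]; omega), mul_zero]
  have inj : Set.InjOn g.t ((range k : Finset ℕ) : Set ℕ) := by
    intro a ha b hb hab
    have ha : a < k := by simpa using ha
    have hb : b < k := by simpa using hb
    rcases lt_trichotomy a b with h | h | h
    · exact absurd hab (g.t_inj a b h (by omega))
    · exact h
    · exact absurd hab.symm (g.t_inj b a h (by omega))
  have hz : p - q = 0 := by
    refine eq_zero_of_degree_lt_of_eval_index_eq_zero (range k) inj ?_ ?_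
    · rw [card_range]
      exact hd
    · intro i hi
      have hi := mem_range.1 hi
      rw [eval_sub, h1 i (by omega), hqe i (by omega), h0 i hi, sub_self]
  rw [← h1 j hj, ← hqe j hj, sub_eq_zero.1 hz]

theorem nsum_swap (t s f : ℕ → F) (j k : ℕ) : nsum m t s f j k = nsum m s t f k j := by
  rw [nsum, nsum]
  refine sum_congr rfl fun l _ => ?_
  rw [mul_comm (∏ i ∈ range l, (t j - t i))]

/-- **the duality expansion** -/
theorem G_eq {g : GForm F m} {f : ℕ → F} (h : g.IsPhi f) : ∀ p, ∀ j k, j ≤ m → k ≤ m →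
    (j < p ∨ k < p) → g.G j k = nsum m g.t g.s f j k := by
  intro p
  induction p with
  | zero => intro j k _ _ h; omega
  | succ p ih =>
    intro j k hj hk hjk
    have key1 : p ≤ m → ∀ j, j ≤ m → g.G j p = nsum m g.t g.s f j p := fun hp j hj =>
      col_E h hp (fun j hj => ih j p (by omega) hp (Or.inl hj)) hj
    have key2 : p ≤ m → ∀ k, k ≤ m → g.G p k = nsum m g.t g.s f p k := by
      intro hp k hk
      have := col_E (IsPhi_swap h) hp (j := k) (fun j hj => by
        rw [nsum_swap]
        exact ih p j hp (by omega) (Or.inr hj)) hk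
      rw [nsum_swap] at this
      exact this
    rcases hjk with hjk | hjk
    · rcases Nat.lt_succ_iff_lt_or_eq.1 hjk with h1 | rfl
      · exact ih j k hj hk (Or.inl h1)
      · exact key2 hj k hk
    · rcases Nat.lt_succ_iff_lt_or_eq.1 hjk with h1 | rfl
      · exact ih j k hj hk (Or.inr h1)
      · exact key1 hk j hj

theorem G_nsum {g : GForm F m} {f : ℕ → F} (h : g.IsPhi f) {j k : ℕ} (hj : j ≤ m) (hk : k ≤ m) :
    g.G j k = nsum m g.t g.s f j k :=
  G_eq h (m + 1) j k hj hk (Or.inl (by omega))

/-- the converse: a corner with the expansion has split numbers `f` -/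
theorem IsPhi_of_nsum {g : GForm F m} {f : ℕ → F} (hf : ∀ k, k < m → f (k + 1) ≠ 0)
    (h : ∀ j k, j ≤ m → k ≤ m → g.G j k = nsum m g.t g.s f j k) : g.IsPhi f := by
  have key : ∀ k, k ≤ m → cf f k * ∏ i ∈ range k, (g.s k - g.s i) =
      ∏ i ∈ range k, (1 - g.lam i) := by
    intro k hk
    obtain ⟨p, r, hp, -, hc, h1, -⟩ := col_poly g k hk
    set q : F[X] := ∑ l ∈ range (k + 1),
      C (cf f l * ∏ i ∈ range l, (g.s k - g.s i)) * ∏ i ∈ range l, (X - C (g.t i)) with hq
    have hqe : ∀ j, j ≤ m → q.eval (g.t j) = nsum m g.t g.s f j k := by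
      intro j hj
      rw [hq, eval_finset_sum, nsum]
      rw [← sum_subset (s₁ := range (k + 1)) (s₂ := range (m + 1))
        (range_subset_range.2 (by omega))]
      · refine sum_congr rfl fun l _ => ?_
        rw [eval_mul, eval_C, eval_prod]
        simp only [eval_sub, eval_X, eval_C]
        ring
      · intro l _ hl
        have hl : k < l := by
          have := mt mem_range.2 hl
          omega
        rw [prod_zero_of_lt (t := g.s) hl, mul_zero, mul_zero]
    have hmon : ∀ l, (∏ i ∈ range l, (X - C (g.t i)) : F[X]).Monic := fun l =>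
      monic_prod_of_monic _ _ fun i _ => monic_X_sub_C _
    have hdeg : ∀ l, (∏ i ∈ range l, (X - C (g.t i)) : F[X]).natDegree = l := by
      intro l
      rw [natDegree_prod_of_monic _ _ fun i _ => monic_X_sub_C _]
      simp
    have hd : (p - q).degree < ((range (k + 1)).card : ℕ) := by
      rw [degree_lt_iff_coeff_zero]
      intro n hn
      rw [card_range] at hn
      rw [coeff_sub, coeff_eq_zero_of_natDegree_lt (by omega), hq, finset_sum_coeff,
        sum_eq_zero, sub_self]
      intro l hl
      have hl := mem_range.1 hl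
      rw [coeff_C_mul, coeff_eq_zero_of_natDegree_lt (by rw [hdeg]; omega), mul_zero]
    have inj : Set.InjOn g.t ((range (k + 1) : Finset ℕ) : Set ℕ) := by
      intro a ha b hb hab
      have ha : a < k + 1 := by simpa using ha
      have hb : b < k + 1 := by simpa using hb
      rcases lt_trichotomy a b with h | h | h
      · exact absurd hab (g.t_inj a b h (by omega))
      · exact h
      · exact absurd hab.symm (g.t_inj b a h (by omega))
    have hz : p - q = 0 := by
      refine eq_zero_of_degree_lt_of_eval_index_eq_zero (range (k + 1)) inj hd ?_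
      intro i hi
      have hi := mem_range.1 hi
      rw [eval_sub, h1 i (by omega), hqe i (by omega), h i k (by omega) hk, sub_self]
    have e := congrArg (fun p => coeff p k) hz
    simp only [coeff_sub, coeff_zero] at e
    rw [hc, hq, finset_sum_coeff, sum_range_succ, sum_eq_zero, zero_add, coeff_C_mul] at e
    · have := (hmon k).coeff_natDegree
      rw [hdeg] at this
      rw [this, mul_one] at e
      exact (sub_eq_zero.1 e).symm
    · intro l hl
      have hl := mem_range.1 hl
      rw [coeff_C_mul, coeff_eq_zero_of_natDegree_lt (by rw [hdeg]; exact hl), mul_zero]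
  intro k hk
  have h1 := key k (by omega)
  have h2 := key (k + 1) (by omega)
  have h3 := hf k hk
  have h4 : cf f k ≠ 0 := prod_ne_zero_iff.2 fun i hi =>
    inv_ne_zero (hf i (by have := mem_range.1 hi; omega))
  rw [prod_range_succ (fun i => 1 - g.lam i), ← h1, cf, prod_range_succ, ← cf] at h2
  apply mul_left_cancel₀ h4
  have h5 : (f (k + 1))⁻¹ * f (k + 1) = 1 := inv_mul_cancel₀ h3
  linear_combination (-f (k + 1)) * h2
    + (cf f k * ∏ i ∈ range (k + 1), (g.s (k + 1) - g.s i)) * h5

end Pool.Agent.Helper31.IPS
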