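import Pool.Agent.Helper31.IPS.Newton
import Pool.Agent.Helper31.IPS.Eig
import Pool.Agent.Helper31.IPS.Cols

/-!
TH-P: a split form whose data come from a closed corner is an irreducible inverting pair.
-/

namespace Pool.Agent.Helper31.IPS

open Pool.Agent.Helper54.IP Finset

variable {F : Type*} [Field F] {V : Type*} [AddCommGroup V] [Module F V] {n m : ℕ}

theorem repr_diag (w : Module.Basis (Fin n) F V) (T : V →ₗ[F] V) (α : Fin n → F)
    (hT : ∀ j, T (w j) = α j • w j) (y : V) (j : Fin n) :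
    w.repr (T y) j = α j * w.repr y j := by
  have h : w.coord j ∘ₗ T = α j • w.coord j := by
    refine w.ext fun i => ?_
    rw [LinearMap.comp_apply, hT, map_smul, LinearMap.smul_apply, w.coord_apply, w.repr_self]
    rcases eq_or_ne j i with h | h
    · rw [h]
    · rw [Finsupp.single_eq_of_ne h, smul_zero, smul_zero]
  exact LinearMap.congr_fun h y

theorem diag_cols (v w : Module.Basis (Fin n) F V) (T : V →ₗ[F] V) (α : Fin n → F)
    (hT : ∀ j, T (w j) = α j • w j) (k : Fin n) (c : Fin n → F)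
    (h : ∀ j, α j * w.repr (v k) j = ∑ l, c l * w.repr (v l) j) (i : Fin n) :
    v.repr (T (v k)) i = c i := by
  have h1 : T (v k) = ∑ l, c l • v l := by
    apply w.repr.injective
    ext j
    rw [repr_diag w T α hT, h, map_sum, Finsupp.finsetSum_apply]
    exact sum_congr rfl fun l _ => by rw [map_smul, Finsupp.smul_apply, smul_eq_mul]
  rw [h1, map_sum, Finsupp.finsetSum_apply, sum_eq_single i]
  · rw [map_smul, v.repr_self, Finsupp.smul_apply, Finsupp.single_eq_same, smul_eq_mul, mul_one]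
  · intro l _ hl
    rw [map_smul, v.repr_self, Finsupp.smul_apply, Finsupp.single_eq_of_ne (Ne.symm hl), smul_zero]
  · intro h
    exact absurd (mem_univ _) h

theorem diag_rows (v w : Module.Basis (Fin n) F V) (T : V →ₗ[F] V) (β : Fin n → F)
    (hT : ∀ k, T (v k) = β k • v k) (i : Fin n) (c : Fin n → F)
    (h : ∀ k, β k * w.repr (v k) i = ∑ l, c l * w.repr (v k) l) (j : Fin n) :
    w.repr (T (w j)) i = c j := by
  have h1 : w.coord i ∘ₗ T = ∑ l, c l • w.coord l := by
    refine v.ext fun k => ?_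
    rw [LinearMap.comp_apply, hT, map_smul, w.coord_apply, smul_eq_mul, h,
      LinearMap.sum_apply]
    exact sum_congr rfl fun l _ => by rw [LinearMap.smul_apply, w.coord_apply, smul_eq_mul]
  have h2 := LinearMap.congr_fun h1 (w j)
  rw [LinearMap.comp_apply, w.coord_apply, LinearMap.sum_apply, sum_eq_single j] at h2
  · rw [h2, LinearMap.smul_apply, w.coord_apply, w.repr_self, Finsupp.single_eq_same, smul_eq_mul,
      mul_one]
  · intro l _ hl
    rw [LinearMap.smul_apply, w.coord_apply, w.repr_self, Finsupp.single_eq_of_ne hl, smul_zero]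
  · intro h
    exact absurd (mem_univ _) h

theorem symm_diag (w : Module.Basis (Fin n) F V) (K : V ≃ₗ[F] V) (α : Fin n → F)
    (hα : ∀ j, α j ≠ 0) (h : ∀ j, K.symm (w j) = α j • w j) (j : Fin n) :
    K (w j) = (α j)⁻¹ • w j := by
  have h1 := congrArg K (h j)
  rw [K.apply_symm_apply, map_smul] at h1
  rw [eq_inv_smul_iff₀ (hα j), ← h1]

/-- the coordinates of a split form are the Newton sums -/
theorem ec_ef {a b : F} (ha : a ≠ 0) (hb : b ≠ 0) (t s f : ℕ → F) (j k l : ℕ) :
    ec (fun i => b * s i) (fun i => a * b * f i) k l * ef (fun i => a * t i) j l =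
      cf f l * ((∏ i ∈ range l, (t j - t i)) * ∏ i ∈ range l, (s k - s i)) := by
  rw [ec, ef, cf, ← prod_mul_distrib, ← prod_mul_distrib, ← prod_mul_distrib]
  refine prod_congr rfl fun i _ => ?_
  by_cases h : f (i + 1) = 0
  · rw [h, mul_zero, div_zero, inv_zero, zero_mul, zero_mul]
  · field_simp

/-- the two eigenbases of a split form from a corner -/
theorem bases {g : GForm F m} {f : ℕ → F} (hf : g.IsPhi f) {a b : F} (ha : a ≠ 0) (hb : b ≠ 0)
    {K Ks : V ≃ₗ[F] V}
    (hS : SplitForm (m + 1) K Ks (fun i => a * g.t i) (fun i => b * g.s i)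
      (fun i => a * b * f i)) :
    ∃ v w : Module.Basis (Fin (m + 1)) F V,
      (∀ j : Fin (m + 1), K.symm (w j) = (a * g.t j) • w j) ∧
      (∀ k : Fin (m + 1), Ks (v k) = (b * g.s k) • v k) ∧
      ∀ j k : Fin (m + 1), w.repr (v k) j = g.G j k := by
  obtain ⟨v, w, h1, h2, h3⟩ := split_bases hS
    (fun i j hij hj h => g.t_inj i j hij (by omega) (mul_left_cancel₀ ha h))
    (fun i j hij hj h => g.s_inj i j hij (by omega) (mul_left_cancel₀ hb h))
    (fun k h1 h2 => mul_ne_zero (mul_ne_zero ha hb) (by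
      obtain ⟨k, rfl⟩ : ∃ k', k = k' + 1 := ⟨k - 1, by omega⟩
      exact IsPhi_ne hf (by omega)))
  refine ⟨v, w, h1, h2, fun j k => ?_⟩
  rw [h3, G_nsum hf (by omega) (by omega), nsum]
  exact sum_congr rfl fun l _ => ec_ef ha hb _ _ _ _ _ _

theorem comb_fin {g : GForm F m} {y c : ℕ → F} (h : Comb g y c) {j : Fin (m + 1)} :
    y j = ∑ l : Fin (m + 1), c l * g.G j l := by
  rw [h j (by omega), ← Fin.sum_univ_eq_sum_range (fun l => c l * g.G j l)]

theorem pair_isInverting {g : GForm F m} (hc : g.Closed) {a b : F} (ha : a ≠ 0) (hb : b ≠ 0)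
    {K Ks : V ≃ₗ[F] V} (v w : Module.Basis (Fin (m + 1)) F V)
    (hw : ∀ j : Fin (m + 1), K.symm (w j) = (a * g.t j) • w j)
    (hv : ∀ k : Fin (m + 1), Ks (v k) = (b * g.s k) • v k)
    (hG : ∀ j k : Fin (m + 1), w.repr (v k) j = g.G j k) : IsInvertingPair (m + 1) K Ks := by
  have hw' := symm_diag w K (fun j => a * g.t j)
    (fun j => mul_ne_zero ha (g.t_ne j (by omega))) hw
  have hv' := symm_diag v Ks.symm (fun k => b * g.s k)
    (fun k => mul_ne_zero hb (g.s_ne k (by omega))) (by
      intro k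
      rw [LinearEquiv.symm_symm]
      exact hv k)
  refine ⟨⟨v, ?_, ?_, ?_⟩, ⟨w, ?_, ?_, ?_⟩⟩
  · intro i j hij
    obtain ⟨κ, hκ⟩ : ∃ κ, (j : ℕ) = κ + 1 := ⟨j - 1, by omega⟩
    obtain ⟨c, hcc, h0⟩ := colD hc (k := κ) (by omega)
    rw [LinearMap.toMatrix_apply]
    rw [diag_cols v w (K : V →ₗ[F] V) (fun j => (a * g.t j)⁻¹) hw' j
      (fun l => a⁻¹ * c l) ?_ i, h0 i (by omega), mul_zero]
    intro i'
    rw [hG, hκ]
    have := comb_fin hcc (j := i')
    rw [mul_inv, mul_assoc, this, mul_sum]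
    exact sum_congr rfl fun l _ => by rw [hG, mul_assoc]
  · intro i j hij
    obtain ⟨c, hcc, h0, -⟩ := colU g (k := j) (by omega)
    rw [LinearMap.toMatrix_apply]
    rw [diag_cols v w (K.symm : V →ₗ[F] V) (fun j => a * g.t j) hw j
      (fun l => a * c l) ?_ i, h0 i (by omega), mul_zero]
    intro i'
    rw [hG]
    have := comb_fin hcc (j := i')
    rw [mul_assoc, this, mul_sum]
    exact sum_congr rfl fun l _ => by rw [hG, mul_assoc]
  · intro i j hij
    rw [LinearMap.toMatrix_apply, LinearEquiv.coe_coe, hv, map_smul, v.repr_self,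
      Finsupp.smul_apply, Finsupp.single_eq_of_ne hij, smul_zero]
  · intro i j hij
    obtain ⟨c, hcc, h0, -⟩ := colU g.swap (k := i) (by omega)
    rw [LinearMap.toMatrix_apply]
    rw [diag_rows v w (Ks : V →ₗ[F] V) (fun k => b * g.s k) hv i
      (fun l => b * c l) ?_ j, h0 j (by omega), mul_zero]
    intro k'
    rw [hG]
    have := comb_fin hcc (j := k')
    simp only [GForm.swap_t, GForm.swap_G] at this
    rw [mul_assoc, this, mul_sum]
    exact sum_congr rfl fun l _ => by rw [hG, mul_assoc]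
  · intro i j hij
    obtain ⟨κ, hκ⟩ : ∃ κ, (i : ℕ) = κ + 1 := ⟨i - 1, by omega⟩
    obtain ⟨c, hcc, h0⟩ := colD hc.swap (k := κ) (by omega)
    rw [LinearMap.toMatrix_apply]
    rw [diag_rows v w (Ks.symm : V →ₗ[F] V) (fun k => (b * g.s k)⁻¹) hv' i
      (fun l => b⁻¹ * c l) ?_ j, h0 j (by omega), mul_zero]
    intro k'
    rw [hG, hκ]
    have := comb_fin hcc (j := k')
    simp only [GForm.swap_t, GForm.swap_G] at this
    rw [mul_inv, mul_assoc, this, mul_sum]
    exact sum_congr rfl fun l _ => by rw [hG, mul_assoc]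
  · intro i j hij
    rw [LinearMap.toMatrix_apply, LinearEquiv.coe_coe, hw', map_smul, w.repr_self,
      Finsupp.smul_apply, Finsupp.single_eq_of_ne hij, smul_zero]

/-- an invariant subspace of a map with simple spectrum contains the eigenvectors of the
components of its vectors -/
theorem mem_of_repr (v : Module.Basis (Fin n) F V) (T : V →ₗ[F] V) (β : Fin n → F)
    (hβ : Function.Injective β) (hT : ∀ k, T (v k) = β k • v k) (U : Submodule F V)
    (hU : ∀ u ∈ U, T u ∈ U) {u : V} (hu : u ∈ U) {k : Fin n} (hk : v.repr u k ≠ 0) :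
    v k ∈ U := by
  classical
  have key : ∀ S : Finset (Fin n), ∀ u ∈ U, (∀ i, i ∈ S → v.repr u i = 0 ∨ i = k) →
      (∀ i, i ∉ S → v.repr u i = 0 ∨ i = k) → v.repr u k ≠ 0 → v k ∈ U := by
    intro S u hu h1 h2 h3
    have : u = v.repr u k • v k := by
      apply v.repr.injective
      ext i
      rw [map_smul, v.repr_self, Finsupp.smul_apply]
      rcases eq_or_ne i k with h | h
      · rw [h, Finsupp.single_eq_same, smul_eq_mul, mul_one]
      · rw [Finsupp.single_eq_of_ne h, smul_zero]
        by_cases hS : i ∈ S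
        · exact (h1 i hS).resolve_right h
        · exact (h2 i hS).resolve_right h
    have h4 : v k = (v.repr u k)⁻¹ • u := by
      rw [eq_inv_smul_iff₀ h3, ← this]
    rw [h4]
    exact U.smul_mem _ hu
  have main : ∀ S : Finset (Fin n), k ∉ S → ∃ u ∈ U, v.repr u k ≠ 0 ∧
      ∀ i ∈ S, v.repr u i = 0 := by
    intro S
    induction S using Finset.induction_on with
    | empty => intro _; exact ⟨u, hu, hk, fun i hi => absurd hi (notMem_empty i)⟩
    | insert i S hi ih =>
      intro hkS
      rw [mem_insert, not_or] at hkS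
      obtain ⟨u', hu', h1, h2⟩ := ih hkS.2
      refine ⟨T u' - β i • u', U.sub_mem (hU _ hu') (U.smul_mem _ hu'), ?_, ?_⟩
      · rw [map_sub, map_smul, Finsupp.sub_apply, Finsupp.smul_apply, repr_diag v T β hT,
          smul_eq_mul, ← sub_mul]
        exact mul_ne_zero (sub_ne_zero.2 fun h => hkS.1 (hβ h)) h1
      · intro j hj
        rw [map_sub, map_smul, Finsupp.sub_apply, Finsupp.smul_apply, repr_diag v T β hT,
          smul_eq_mul, ← sub_mul]
        rcases mem_insert.1 hj with rfl | hj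
        · rw [sub_self, zero_mul]
        · rw [h2 j hj, mul_zero]
  obtain ⟨u', hu', h1, h2⟩ := main (univ.erase k) (notMem_erase k univ)
  exact key ∅ u' hu' (fun i hi => absurd hi (notMem_empty i)) (fun i _ => by
    by_cases h : i = k
    · exact Or.inr h
    · exact Or.inl (h2 i (mem_erase.2 ⟨h, mem_univ i⟩))) h1

theorem inv_symm {V : Type*} [AddCommGroup V] [Module F V] [FiniteDimensional F V]
    (T : V ≃ₗ[F] V) (U : Submodule F V) (h : ∀ u ∈ U, T u ∈ U) : ∀ u ∈ U, T.symm u ∈ U := by
  have h1 : U.map (T : V →ₗ[F] V) ≤ U := by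
    rintro _ ⟨u, hu, rfl⟩
    exact h u hu
  have h2 : U.map (T : V →ₗ[F] V) = U := by
    refine Submodule.eq_of_le_of_finrank_eq h1 ?_
    exact LinearEquiv.finrank_map_eq T U
  intro u hu
  rw [← h2] at hu
  obtain ⟨x, hx, rfl⟩ := hu
  simpa using hx

theorem pair_irred {g : GForm F m} (hc : g.Closed) {a b : F} (ha : a ≠ 0) (hb : b ≠ 0)
    {K Ks : V ≃ₗ[F] V} (v w : Module.Basis (Fin (m + 1)) F V)
    (hw : ∀ j : Fin (m + 1), K.symm (w j) = (a * g.t j) • w j)
    (hv : ∀ k : Fin (m + 1), Ks (v k) = (b * g.s k) • v k)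
    (hG : ∀ j k : Fin (m + 1), w.repr (v k) j = g.G j k) : Irred K Ks := by
  haveI : FiniteDimensional F V := Module.Basis.finiteDimensional_of_finite v
  have injv : Function.Injective (fun k : Fin (m + 1) => b * g.s k) := by
    intro i j h
    have h := mul_left_cancel₀ hb h
    rcases lt_trichotomy i j with h1 | h1 | h1
    · exact absurd h (g.s_inj i j h1 (by omega))
    · exact h1
    · exact absurd h.symm (g.s_inj j i h1 (by omega))
  have injw : Function.Injective (fun k : Fin (m + 1) => a * g.t k) := by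
    intro i j h
    have h := mul_left_cancel₀ ha h
    rcases lt_trichotomy i j with h1 | h1 | h1
    · exact absurd h (g.t_inj i j h1 (by omega))
    · exact h1
    · exact absurd h.symm (g.t_inj j i h1 (by omega))
  refine ⟨⟨v 0, 0, v.ne_zero 0⟩, fun U hK hKs => ?_⟩
  have hKi := inv_symm K U hK
  by_cases hU : U = ⊥
  · exact Or.inl hU
  right
  obtain ⟨u, hu, hu0⟩ := (Submodule.ne_bot_iff U).1 hU
  obtain ⟨k, hk⟩ : ∃ k, v.repr u k ≠ 0 := by
    by_contra h
    push Not at h
    apply hu0
    apply v.repr.injective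
    rw [map_zero]
    ext i
    exact h i
  have hvk := mem_of_repr v (Ks : V →ₗ[F] V) _ injv hv U hKs hu hk
  -- up to `m`
  have up : ∀ p, ∀ k : Fin (m + 1), (k : ℕ) + p = m → v k ∈ U → v (Fin.last m) ∈ U := by
    intro p
    induction p with
    | zero =>
      intro k hk h
      have : k = Fin.last m := Fin.ext (by rw [Fin.val_last]; omega)
      rw [← this]
      exact h
    | succ p ih =>
      intro k hk h
      obtain ⟨c, hcc, -, h0⟩ := colU g (k := k) (by omega)
      refine ih ⟨k + 1, by omega⟩ (by simp only; omega) ?_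
      refine mem_of_repr v (Ks : V →ₗ[F] V) _ injv hv U hKs (hKi _ h) ?_
      have : v.repr ((K.symm : V →ₗ[F] V) (v k)) ⟨k + 1, by omega⟩ = a * c (k + 1) := by
        refine diag_cols v w (K.symm : V →ₗ[F] V) (fun j => a * g.t j) hw k
          (fun l => a * c l) ?_ ⟨k + 1, by omega⟩
        intro i'
        rw [hG]
        have := comb_fin hcc (j := i')
        rw [mul_assoc, this, mul_sum]
        exact sum_congr rfl fun l _ => by rw [hG, mul_assoc]
      rw [LinearEquiv.coe_coe] at this
      rw [this]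
      exact mul_ne_zero ha h0
  have hvm := up (m - k) k (by omega) hvk
  have hall : ∀ j, w j ∈ U := by
    intro j
    refine mem_of_repr w (K.symm : V →ₗ[F] V) _ injw hw U hKi hvm ?_
    rw [hG, Fin.val_last]
    exact hc.G_ne (by omega)
  rw [eq_top_iff, ← w.span_eq, Submodule.span_le]
  rintro _ ⟨j, rfl⟩
  exact hall j

/-- **(b)** -/
theorem pair_of_PA {t s f : ℕ → F} (h : IsPA m t s f) {a b : F} (ha : a ≠ 0) (hb : b ≠ 0)
    {K Ks : V ≃ₗ[F] V}
    (hS : SplitForm (m + 1) K Ks (fun i => a * t i) (fun i => b * s i) (fun i => a * b * f i)) :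
    IsInvertingPair (m + 1) K Ks ∧ Irred K Ks := by
  obtain ⟨g, hc, ht, hs, hf⟩ := h
  have hS' : SplitForm (m + 1) K Ks (fun i => a * g.t i) (fun i => b * g.s i)
      (fun i => a * b * f i) := by
    obtain ⟨x, xA, xB⟩ := hS
    refine ⟨x, fun i => ?_, fun i => ?_⟩
    · rw [xA]
      beta_reduce
      rw [ht i (by omega)]
    · rw [xB]
      beta_reduce
      rw [hs i (by omega)]
  obtain ⟨v, w, hw, hv, hG⟩ := bases hf ha hb hS'
  exact ⟨pair_isInverting hc ha hb v w hw hv hG, pair_irred hc ha hb v w hw hv hG⟩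

end Pool.Agent.Helper31.IPS
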