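import Pool.Agent.Helper31.IPS.Pair
import Pool.Agent.Helper54.IP.ToMat
import Pool.Agent.Helper54.IP.ToG

/-!
TH-P: from an irreducible inverting pair to the parameter array and the split form.
The lemmas `nf_*` are those of `Helper54/IP/Normal.lean`.
-/

namespace Pool.Agent.Helper31.IPS

open Matrix Pool.Agent.Helper54.IP

variable {F : Type*} [Field F]

lemma nf_conj {V : Type*} [AddCommGroup V] [Module F V] {n : ℕ} {v w : Fin n → V}
    {X Y : Matrix (Fin n) (Fin n) F} (T : V →ₗ[F] V) (c : Fin n → F)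
    (hT : ∀ j, T (w j) = c j • w j) (hX : ∀ k, v k = ∑ j, X j k • w j)
    (hY : ∀ j, w j = ∑ k, Y k j • v k) (k : Fin n) :
    T (v k) = ∑ i, (Y * diagonal c * X) i k • v i := by
  have h1 : T (v k) = ∑ j, ∑ i, (Y i j * c j * X j k) • v i := by
    conv_lhs => rw [hX k, map_sum]
    refine Finset.sum_congr rfl fun j _ => ?_
    rw [map_smul, hT]
    conv_lhs => rw [hY j, Finset.smul_sum, Finset.smul_sum]
    refine Finset.sum_congr rfl fun i _ => ?_
    rw [smul_smul, smul_smul]
    congr 1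
    ring
  rw [h1, Finset.sum_comm]
  refine Finset.sum_congr rfl fun i _ => ?_
  rw [Matrix.mul_apply, Finset.sum_smul]
  refine Finset.sum_congr rfl fun j _ => ?_
  rw [Matrix.mul_diagonal]

lemma nf_repr {V : Type*} [AddCommGroup V] [Module F V] {n : ℕ}
    (v : Module.Basis (Fin n) F V) (T : V →ₗ[F] V) (N : Matrix (Fin n) (Fin n) F)
    (h : ∀ k, T (v k) = ∑ i, N i k • v i) (y : V) (i : Fin n) :
    v.repr (T y) i = ∑ k, N i k * v.repr y k := by
  have h2 : LinearMap.toMatrix v v T = N := by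
    ext i k
    rw [LinearMap.toMatrix_apply, h k]
    simp [Finsupp.single_apply]
  have h3 := LinearMap.toMatrix_mulVec_repr v v T y
  rw [h2] at h3
  have h4 := congrFun h3 i
  rw [← h4]
  rfl

/-- triangular systems -/
lemma nf_up {n : ℕ} (T : Fin n → Fin n → F) (h0 : ∀ i l, l < i → T i l = 0)
    (hd : ∀ l, T l l ≠ 0) (c : Fin n → F) (k : ℕ)
    (hc : ∀ i : Fin n, k ≤ (i : ℕ) → ∑ l, c l * T i l = 0) :
    ∀ l : Fin n, k ≤ (l : ℕ) → c l = 0 := by
  have key : ∀ r : ℕ, ∀ l : Fin n, n - 1 - (l : ℕ) = r → k ≤ (l : ℕ) → c l = 0 := by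
    intro r
    induction r using Nat.strong_induction_on with
    | _ r ih =>
      intro l hl hk
      have h1 := hc l hk
      rw [Finset.sum_eq_single l] at h1
      · exact (mul_eq_zero.mp h1).resolve_right (hd l)
      · intro b _ hb
        rcases lt_or_gt_of_ne hb with h | h
        · rw [h0 l b h, mul_zero]
        · have hbl : (l : ℕ) < (b : ℕ) := h
          rw [ih (n - 1 - (b : ℕ)) (by omega) b rfl (by omega), zero_mul]
      · intro h; exact absurd (Finset.mem_univ l) h
  intro l hk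
  exact key _ l rfl hk

lemma nf_down {n : ℕ} (T : Fin n → Fin n → F) (h0 : ∀ i l, i < l → T i l = 0)
    (hd : ∀ l, T l l ≠ 0) (c : Fin n → F) (k : ℕ)
    (hc : ∀ i : Fin n, (i : ℕ) < k → ∑ l, c l * T i l = 0) :
    ∀ l : Fin n, (l : ℕ) < k → c l = 0 := by
  have key : ∀ r : ℕ, ∀ l : Fin n, (l : ℕ) = r → (l : ℕ) < k → c l = 0 := by
    intro r
    induction r using Nat.strong_induction_on with
    | _ r ih =>
      intro l hl hk
      have h1 := hc l hk
      rw [Finset.sum_eq_single l] at h1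
      · exact (mul_eq_zero.mp h1).resolve_right (hd l)
      · intro b _ hb
        rcases lt_or_gt_of_ne hb with h | h
        · have hbl : (b : ℕ) < (l : ℕ) := h
          rw [ih (b : ℕ) (by omega) b rfl (by omega), zero_mul]
        · rw [h0 l b h, mul_zero]
      · intro h; exact absurd (Finset.mem_univ l) h
  intro l hk
  exact key _ l rfl hk

lemma nf_diag {V : Type*} [AddCommGroup V] [Module F V] {n : ℕ}
    (w : Module.Basis (Fin n) F V) (T : V →ₗ[F] V) (c : Fin n → F)
    (h : ∀ k, T (w k) = c k • w k) (y : V) (i : Fin n) :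
    w.repr (T y) i = c i * w.repr y i := by
  have h1 := nf_repr w T (diagonal c) (fun k => by
    rw [h k, Finset.sum_eq_single k]
    · rw [diagonal_apply_eq]
    · intro b _ hb
      rw [diagonal_apply_ne _ hb, zero_smul]
    · intro h; exact absurd (Finset.mem_univ k) h) y i
  rw [h1, Finset.sum_eq_single i]
  · rw [diagonal_apply_eq]
  · intro b _ hb
    rw [diagonal_apply_ne _ (Ne.symm hb), zero_mul]
  · intro h; exact absurd (Finset.mem_univ i) h

lemma nf_inv {V : Type*} [AddCommGroup V] [Module F V] {n : ℕ} (M : Mat F n)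
    (v w : Module.Basis (Fin n) F V) (hX : ∀ k, v k = ∑ j, M.X j k • w j) (j : Fin n) :
    w j = ∑ k, M.Y k j • v k := by
  have h1 : ∑ k, M.Y k j • v k = ∑ i, (M.X * M.Y) i j • w i := by
    have h2 : ∀ k, M.Y k j • v k = ∑ i, (M.X i k * M.Y k j) • w i := by
      intro k
      rw [hX k, Finset.smul_sum]
      refine Finset.sum_congr rfl fun i _ => ?_
      rw [smul_smul]
      congr 1
      ring
    rw [Finset.sum_congr rfl fun k _ => h2 k, Finset.sum_comm]
    refine Finset.sum_congr rfl fun i _ => ?_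
    rw [Matrix.mul_apply, Finset.sum_smul]
  rw [h1, M.XY, Finset.sum_eq_single j]
  · rw [Matrix.one_apply_eq, one_smul]
  · intro b _ hb
    rw [Matrix.one_apply_ne hb, zero_smul]
  · intro h; exact absurd (Finset.mem_univ j) h

lemma nf_split {V : Type*} [AddCommGroup V] [Module F V] {n : ℕ} (hn : 2 ≤ n) (K Ks : V ≃ₗ[F] V)
    (M : Mat F n) (v w : Module.Basis (Fin n) F V)
    (hw : ∀ j, K.symm (w j) = M.a j • w j) (hv : ∀ k, Ks (v k) = M.b k • v k)
    (hX : ∀ k, v k = ∑ j, M.X j k • w j) (α β : ℕ → F)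
    (ha : ∀ i : Fin n, M.a i = α i) (hb : ∀ i : Fin n, M.b i = β i) :
    ∃ (x : Module.Basis (Fin n) F V) (φ : ℕ → F),
      (∀ i : Fin n, K.symm (x i) = α i • x i + if h : (i : ℕ) + 1 < n then x ⟨i + 1, h⟩ else 0) ∧
      (∀ i : Fin n, Ks (x i) = β i • x i
        + if h : 0 < (i : ℕ) then φ i • x ⟨i - 1, by omega⟩ else 0) ∧
      (∀ k, 1 ≤ k → k < n → φ k ≠ 0) := by
  classical
  have h0n : 0 < n := by omega
  -- w in terms of v
  have hY : ∀ j, w j = ∑ k, M.Y k j • v k := nf_inv M v w hX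
  have hAv : ∀ k, (K.symm : V →ₗ[F] V) (v k) = ∑ i, (M.Y * diagonal M.a * M.X) i k • v i :=
    nf_conj (K.symm : V →ₗ[F] V) M.a hw hX hY
  have hBw : ∀ k, (Ks : V →ₗ[F] V) (w k) = ∑ i, (M.X * diagonal M.b * M.Y) i k • w i :=
    nf_conj (Ks : V →ₗ[F] V) M.b hv hY hX
  set xs : ℕ → V := fun k => Nat.rec (v ⟨0, h0n⟩) (fun k y => K.symm y - α k • y) k with hxs
  have xs0 : xs 0 = v ⟨0, h0n⟩ := rfl
  have xsS : ∀ k, xs (k + 1) = K.symm (xs k) - α k • xs k := fun k => rfl
  -- w coordinates
  have wc : ∀ k (j : Fin n), w.repr (xs k) j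
      = M.X j ⟨0, h0n⟩ * ∏ m ∈ Finset.range k, (M.a j - α m) := by
    intro k
    induction k with
    | zero =>
      intro j
      rw [xs0, hX ⟨0, h0n⟩]
      simp [Finsupp.single_apply]
    | succ k ih =>
      intro j
      rw [xsS, map_sub, map_smul]
      have h1 : w.repr (K.symm (xs k)) j = M.a j * w.repr (xs k) j :=
        nf_diag w (K.symm : V →ₗ[F] V) M.a hw (xs k) j
      rw [Finsupp.sub_apply, Finsupp.smul_apply, h1, ih, Finset.prod_range_succ, smul_eq_mul]
      ring
  have wz : ∀ k (j : Fin n), (j : ℕ) < k → w.repr (xs k) j = 0 := by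
    intro k j hj
    rw [wc, Finset.prod_eq_zero (Finset.mem_range.mpr hj), mul_zero]
    rw [ha j, sub_self]
  have xsn : xs n = 0 := by
    have : w.repr (xs n) = 0 := by
      ext j
      rw [wz n j j.2]; rfl
    exact (LinearEquiv.map_eq_zero_iff _).mp this
  -- v coordinates
  have vc : ∀ k, k < n → (∀ i : Fin n, k < (i : ℕ) → v.repr (xs k) i = 0) ∧
      (∀ i : Fin n, (i : ℕ) = k → v.repr (xs k) i ≠ 0) := by
    intro k
    induction k with
    | zero =>
      intro _
      refine ⟨fun i hi => ?_, fun i hi => ?_⟩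
      · rw [xs0, Module.Basis.repr_self, Finsupp.single_apply, if_neg]
        intro h
        rw [← h] at hi
        exact absurd hi (lt_irrefl _)
      · rw [xs0, Module.Basis.repr_self, Finsupp.single_apply, if_pos (Fin.ext hi.symm)]
        exact one_ne_zero
    | succ k ih =>
      intro hk
      obtain ⟨ih1, ih2⟩ := ih (by omega)
      have h1 : ∀ i : Fin n, v.repr (xs (k + 1)) i
          = ∑ l, (M.Y * diagonal M.a * M.X) i l * v.repr (xs k) l - α k * v.repr (xs k) i := by
        intro i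
        rw [xsS, map_sub, map_smul, Finsupp.sub_apply, Finsupp.smul_apply, smul_eq_mul]
        congr 1
        exact nf_repr v (K.symm : V →ₗ[F] V) _ hAv (xs k) i
      refine ⟨fun i hi => ?_, fun i hi => ?_⟩
      · rw [h1, ih1 i (by omega), mul_zero, sub_zero]
        refine Finset.sum_eq_zero fun l _ => ?_
        rcases Nat.lt_or_ge k (l : ℕ) with h | h
        · rw [ih1 l h, mul_zero]
        · rw [M.c1 i l (by omega), zero_mul]
      · rw [h1, ih1 i (by omega), mul_zero, sub_zero, Finset.sum_eq_single (⟨k, by omega⟩ : Fin n)]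
        · exact mul_ne_zero (M.d1 i ⟨k, by omega⟩ hi) (ih2 _ rfl)
        · intro l _ hl
          rcases Nat.lt_or_ge k (l : ℕ) with h | h
          · rw [ih1 l h, mul_zero]
          · have hlk : (l : ℕ) ≠ k := fun h => hl (Fin.ext h)
            rw [M.c1 i l (by omega), zero_mul]
        · intro h; exact absurd (Finset.mem_univ _) h
  -- the basis
  have li : LinearIndependent F (fun i : Fin n => xs i) := by
    rw [Fintype.linearIndependent_iff]
    intro g hg
    have h1 := nf_up (fun i l : Fin n => v.repr (xs l) i)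
      (fun i l h => (vc l l.2).1 i h) (fun l => (vc l l.2).2 l rfl) g 0 (fun i _ => by
        have h2 : v.repr (∑ l, g l • xs l) i = 0 := by rw [hg]; simp
        rw [map_sum, Finsupp.finsetSum_apply] at h2
        rw [← h2]
        refine Finset.sum_congr rfl fun l _ => ?_
        rw [map_smul, Finsupp.smul_apply, smul_eq_mul])
    exact fun i => h1 i (Nat.zero_le _)
  have hcard : Fintype.card (Fin n) = Module.finrank F V := by
    rw [Module.finrank_eq_card_basis v]
  have : Nonempty (Fin n) := ⟨⟨0, h0n⟩⟩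
  set x := basisOfLinearIndependentOfCardEqFinrank li hcard with hx
  have xv : ∀ i : Fin n, x i = xs i := fun i => by
    rw [hx, coe_basisOfLinearIndependentOfCardEqFinrank]
  -- diagonal w coordinates
  have X0 : ∀ j : Fin n, M.X j ⟨0, h0n⟩ ≠ 0 := by
    intro j hj
    have h1 : ∀ y : V, w.repr y j = 0 := by
      intro y
      have h2 : y = ∑ i, x.repr y i • x i := (x.sum_repr y).symm
      rw [h2, map_sum, Finsupp.finsetSum_apply]
      refine Finset.sum_eq_zero fun i _ => ?_
      rw [map_smul, Finsupp.smul_apply, xv, wc, hj, zero_mul, smul_zero]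
    have h3 := h1 (w j)
    rw [Module.Basis.repr_self, Finsupp.single_eq_same] at h3
    exact one_ne_zero h3
  have wd : ∀ j : Fin n, w.repr (xs j) j ≠ 0 := by
    intro j
    rw [wc]
    refine mul_ne_zero (X0 j) (Finset.prod_ne_zero_iff.mpr fun m hm => ?_)
    have hm' : m < (j : ℕ) := Finset.mem_range.mp hm
    rw [sub_ne_zero]
    intro h
    have h2 : M.a j = M.a ⟨m, by omega⟩ := by rw [h, ha ⟨m, by omega⟩]
    have h3 := M.a_inj h2
    rw [h3] at hm'
    exact lt_irrefl _ hm'
  -- B on x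
  have Bx : ∀ k : Fin n, ∃ c : F, Ks (x k) = β k • x k
      + if h : 0 < (k : ℕ) then c • x ⟨k - 1, by omega⟩ else 0 := by
    intro k
    set y : V := Ks (x k) - β k • x k with hy
    have y1 : ∀ i : Fin n, (k : ℕ) ≤ (i : ℕ) → v.repr y i = 0 := by
      intro i hi
      have h1 : v.repr y i = M.b i * v.repr (x k) i - β k * v.repr (x k) i := by
        rw [hy, map_sub, map_smul, Finsupp.sub_apply, Finsupp.smul_apply, smul_eq_mul]
        congr 1
        exact nf_diag v (Ks : V →ₗ[F] V) M.b hv (x k) i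
      rw [h1]
      rcases Nat.eq_or_lt_of_le hi with h | h
      · rw [hb i, ← h, sub_self]
      · rw [xv, (vc k k.2).1 i h, mul_zero, mul_zero, sub_zero]
    have y2 : ∀ i : Fin n, (i : ℕ) + 1 < (k : ℕ) → w.repr y i = 0 := by
      intro i hi
      have h1 : w.repr y i = ∑ l, (M.X * diagonal M.b * M.Y) i l * w.repr (x k) l
          - β k * w.repr (x k) i := by
        rw [hy, map_sub, map_smul, Finsupp.sub_apply, Finsupp.smul_apply, smul_eq_mul]
        congr 1
        exact nf_repr w (Ks : V →ₗ[F] V) _ hBw (x k) i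
      rw [h1, xv, wz k i (by omega), mul_zero, sub_zero]
      refine Finset.sum_eq_zero fun l _ => ?_
      rcases Nat.lt_or_ge (l : ℕ) (k : ℕ) with h | h
      · rw [wz k l h, mul_zero]
      · rw [M.c3 i l (by omega), zero_mul]
    have hyx : y = ∑ i, x.repr y i • x i := (x.sum_repr y).symm
    have z1 : ∀ l : Fin n, (k : ℕ) ≤ (l : ℕ) → x.repr y l = 0 := by
      refine nf_up (fun i l : Fin n => v.repr (xs l) i)
        (fun i l h => (vc l l.2).1 i h) (fun l => (vc l l.2).2 l rfl) (fun l => x.repr y l) k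
        (fun i hi => ?_)
      rw [← y1 i hi]
      conv_rhs => rw [hyx, map_sum, Finsupp.finsetSum_apply]
      refine Finset.sum_congr rfl fun l _ => ?_
      rw [map_smul, Finsupp.smul_apply, smul_eq_mul, xv]
    have z2 : ∀ l : Fin n, (l : ℕ) < (k : ℕ) - 1 → x.repr y l = 0 := by
      refine nf_down (fun i l : Fin n => w.repr (xs l) i)
        (fun i l h => wz l i h) (fun l => wd l) (fun l => x.repr y l) ((k : ℕ) - 1)
        (fun i hi => ?_)
      rw [← y2 i (by omega)]
      conv_rhs => rw [hyx, map_sum, Finsupp.finsetSum_apply]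
      refine Finset.sum_congr rfl fun l _ => ?_
      rw [map_smul, Finsupp.smul_apply, smul_eq_mul, xv]
    by_cases hk : 0 < (k : ℕ)
    · refine ⟨x.repr y ⟨k - 1, by omega⟩, ?_⟩
      rw [dif_pos hk]
      have h1 : y = x.repr y ⟨k - 1, by omega⟩ • x ⟨k - 1, by omega⟩ := by
        conv_lhs => rw [hyx]
        rw [Finset.sum_eq_single (⟨k - 1, by omega⟩ : Fin n)]
        · intro l _ hl
          have hl' : (l : ℕ) ≠ (k : ℕ) - 1 := fun h => hl (Fin.ext h)
          rcases Nat.lt_or_ge (l : ℕ) ((k : ℕ) - 1) with h | h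
          · rw [z2 l h, zero_smul]
          · rw [z1 l (by omega), zero_smul]
        · intro h; exact absurd (Finset.mem_univ _) h
      rw [← h1, hy]
      abel
    · refine ⟨0, ?_⟩
      rw [dif_neg hk, add_zero]
      have h1 : y = 0 := by
        rw [hyx]
        refine Finset.sum_eq_zero fun l _ => ?_
        rw [z1 l (by omega), zero_smul]
      rw [hy, sub_eq_zero] at h1
      exact h1
  choose c hc using Bx
  refine ⟨x, fun k => if h : k < n then c ⟨k, h⟩ else 0, ?_, ?_, ?_⟩
  · intro i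
    have h1 := xsS i
    have h2 : K.symm (x i) = α i • x i + xs (i + 1) := by
      rw [xv, h1]; abel
    rw [h2]
    congr 1
    by_cases h : (i : ℕ) + 1 < n
    · rw [dif_pos h, xv]
    · rw [dif_neg h]
      have h3 : (i : ℕ) + 1 = n := by omega
      rw [h3, xsn]
  · intro i
    rw [hc i]
    simp only [i.2, dif_pos, Fin.eta]
  · intro k h1 h2
    simp only [h2, dif_pos]
    intro h3
    have h4 := hc ⟨k, h2⟩
    have hk0 : 0 < ((⟨k, h2⟩ : Fin n) : ℕ) := h1
    rw [dif_pos hk0, h3, zero_smul, add_zero] at h4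
    have h5 : w.repr (Ks (x ⟨k, h2⟩)) ⟨k - 1, by omega⟩ = 0 := by
      rw [h4, map_smul, Finsupp.smul_apply, xv, wz k ⟨k - 1, by omega⟩ (by simp; omega), smul_zero]
    have h6 : w.repr (Ks (x ⟨k, h2⟩)) ⟨k - 1, by omega⟩
        = ∑ l, (M.X * diagonal M.b * M.Y) ⟨k - 1, by omega⟩ l * w.repr (x ⟨k, h2⟩) l :=
      nf_repr w (Ks : V →ₗ[F] V) _ hBw (x ⟨k, h2⟩) _
    rw [h6, Finset.sum_eq_single (⟨k, h2⟩ : Fin n)] at h5
    · rcases mul_eq_zero.mp h5 with h | h
      · exact M.d3 ⟨k - 1, by omega⟩ ⟨k, h2⟩ (by simp; omega) h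
      · rw [xv] at h
        exact wd ⟨k, h2⟩ h
    · intro l _ hl
      have hl' : (l : ℕ) ≠ k := fun h => hl (Fin.ext h)
      rcases Nat.lt_or_ge (l : ℕ) k with h | h
      · rw [xv, wz k l h, mul_zero]
      · rw [M.c3 ⟨k - 1, by omega⟩ l (by simp; omega), zero_mul]
    · intro h; exact absurd (Finset.mem_univ _) h

/-- the simple spectrum determines the eigenvectors -/
lemma eig_unique {V : Type*} [AddCommGroup V] [Module F V] {n : ℕ} (v : Module.Basis (Fin n) F V)
    (T : V →ₗ[F] V) (β : Fin n → F) (hβ : Function.Injective β) (hT : ∀ k, T (v k) = β k • v k)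
    {y : V} {k : Fin n} (hy : T y = β k • y) : y = v.repr y k • v k := by
  apply v.repr.injective
  ext i
  have h1 := repr_diag v T β hT y i
  rw [hy, map_smul, Finsupp.smul_apply, smul_eq_mul] at h1
  rw [map_smul, v.repr_self, Finsupp.smul_apply]
  rcases eq_or_ne i k with h | h
  · rw [h, Finsupp.single_eq_same, smul_eq_mul, mul_one]
  · rw [Finsupp.single_eq_of_ne h, smul_zero]
    have h2 : (β k - β i) * v.repr y i = 0 := by linear_combination h1
    exact (mul_eq_zero.1 h2).resolve_left (sub_ne_zero.2 fun e => h (hβ e).symm)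

/-- **(a)** -/
theorem PA_of_pair {V : Type*} [AddCommGroup V] [Module F V] {m : ℕ} (hm : 1 ≤ m) {K Ks : V ≃ₗ[F] V}
    (h : IsInvertingPair (m + 1) K Ks) (irr : Irred K Ks) :
    ∃ (a b : F) (t s f : ℕ → F), a ≠ 0 ∧ b ≠ 0 ∧ IsPA m t s f ∧
      SplitForm (m + 1) K Ks (fun i => a * t i) (fun i => b * s i) (fun i => a * b * f i) := by
  obtain ⟨M, v, w, hw, hv, hX⟩ := exists_mat K Ks h irr
  obtain ⟨g, gt, gs, gG, gr, gc⟩ := M.toGForm
  have ha := M.a_ne 0
  have hb := M.b_ne 0
  have ea : ∀ i : Fin (m + 1), M.a i = M.a 0 * g.t i := by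
    intro i
    rw [gt i i.2]
    field_simp
  have eb : ∀ i : Fin (m + 1), M.b i = M.b 0 * g.s i := by
    intro i
    rw [gs i i.2]
    field_simp
  obtain ⟨x, φ, xA, xB, hφ⟩ := nf_split (by omega) K Ks M v w hw hv hX
    (fun i => M.a 0 * g.t i) (fun i => M.b 0 * g.s i) ea eb
  set f : ℕ → F := fun i => φ i / (M.a 0 * M.b 0) with hf
  have hφf : ∀ i, φ i = M.a 0 * M.b 0 * f i := by
    intro i
    rw [hf]
    field_simp
  have f0 : ∀ k, k < m → f (k + 1) ≠ 0 := fun k hk =>
    div_ne_zero (hφ (k + 1) (by omega) (by omega)) (mul_ne_zero ha hb)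
  have hS : SplitForm (m + 1) K Ks (fun i => M.a 0 * g.t i) (fun i => M.b 0 * g.s i)
      (fun i => M.a 0 * M.b 0 * f i) := by
    refine ⟨x, xA, fun i => ?_⟩
    rw [xB]
    beta_reduce
    rw [← hφf]
  have tinj : ∀ i j, i < j → j < m + 1 → M.a 0 * g.t i ≠ M.a 0 * g.t j :=
    fun i j hij hj h => g.t_inj i j hij (by omega) (mul_left_cancel₀ ha h)
  have sinj : ∀ i j, i < j → j < m + 1 → M.b 0 * g.s i ≠ M.b 0 * g.s j :=
    fun i j hij hj h => g.s_inj i j hij (by omega) (mul_left_cancel₀ hb h)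
  obtain ⟨v', w', h1, h2, h3⟩ := split_bases hS tinj sinj
    (fun k h1 h2 => mul_ne_zero (mul_ne_zero ha hb) (by
      obtain ⟨k, rfl⟩ : ∃ k', k = k' + 1 := ⟨k - 1, by omega⟩
      exact f0 k (by omega)))
  have h3' : ∀ j k : Fin (m + 1), w'.repr (v' k) j = nsum m g.t g.s f j k := by
    intro j k
    rw [h3, nsum]
    exact Finset.sum_congr rfl fun l _ => ec_ef ha hb _ _ _ _ _ _
  have n0 : ∀ t s f : ℕ → F, ∀ k, s 0 = s 0 → nsum m t s f 0 k = 1 := by
    intro t s f k _
    rw [nsum, Finset.sum_range_succ', Finset.sum_eq_zero]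
    · simp [cf]
    · intro l _
      rw [prod_zero_of_lt (Nat.succ_pos l), zero_mul, mul_zero]
  have n0' : ∀ j, nsum m g.t g.s f j 0 = 1 := by
    intro j
    rw [nsum_swap]
    exact n0 _ _ _ _ rfl
  -- comparison of the bases
  have injv : Function.Injective (fun k : Fin (m + 1) => M.b 0 * g.s k) := by
    intro i j h
    rcases lt_trichotomy i j with h1 | h1 | h1
    · exact absurd h (sinj i j h1 j.2)
    · exact h1
    · exact absurd h.symm (sinj j i h1 i.2)
  have injw : Function.Injective (fun k : Fin (m + 1) => M.a 0 * g.t k) := by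
    intro i j h
    rcases lt_trichotomy i j with h1 | h1 | h1
    · exact absurd h (tinj i j h1 j.2)
    · exact h1
    · exact absurd h.symm (tinj j i h1 i.2)
  have cv : ∀ k, v k = v'.repr (v k) k • v' k := fun k =>
    eig_unique v' (Ks : V →ₗ[F] V) _ injv h2 (by
      rw [LinearEquiv.coe_coe, hv, eb k])
  have cw : ∀ j, w' j = w.repr (w' j) j • w j := fun j => by
    refine eig_unique w (K.symm : V →ₗ[F] V) M.a M.a_inj hw ?_
    rw [LinearEquiv.coe_coe, h1, ea j]
  have hX' : ∀ j k, M.X j k = w.repr (v k) j := by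
    intro j k
    rw [hX, map_sum, Finsupp.finsetSum_apply, Finset.sum_eq_single j]
    · rw [map_smul, w.repr_self, Finsupp.smul_apply, Finsupp.single_eq_same, smul_eq_mul, mul_one]
    · intro l _ hl
      rw [map_smul, w.repr_self, Finsupp.smul_apply, Finsupp.single_eq_of_ne (Ne.symm hl),
        smul_zero]
    · intro h
      exact absurd (Finset.mem_univ _) h
  have hXS : ∀ j k : Fin (m + 1), M.X j k =
      v'.repr (v k) k * w.repr (w' j) j * nsum m g.t g.s f j k := by
    intro j k
    have e1 : v' k = ∑ i, w'.repr (v' k) i • w' i := (w'.sum_repr (v' k)).symm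
    rw [hX', cv k, map_smul, Finsupp.smul_apply, smul_eq_mul]
    have e2 : w.repr (v' k) j = w'.repr (v' k) j * w.repr (w' j) j := by
      conv_lhs => rw [e1]
      rw [map_sum, Finsupp.finsetSum_apply, Finset.sum_eq_single j]
      · rw [map_smul, Finsupp.smul_apply, smul_eq_mul]
      · intro l _ hl
        rw [cw l, map_smul, map_smul, w.repr_self, Finsupp.smul_apply, Finsupp.smul_apply,
          Finsupp.single_eq_of_ne (Ne.symm hl), smul_zero, smul_zero]
      · intro h
        exact absurd (Finset.mem_univ _) h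
    have e3 : v'.repr (v'.repr (v k) k • v' k) k = v'.repr (v k) k := by
      rw [map_smul, v'.repr_self, Finsupp.smul_apply, Finsupp.single_eq_same, smul_eq_mul, mul_one]
    rw [e3, e2, h3']
    ring
  refine ⟨M.a 0, M.b 0, g.t, g.s, f, ha, hb,
    ⟨g, ⟨gr, gc⟩, fun _ _ => rfl, fun _ _ => rfl, ?_⟩, hS⟩
  refine IsPhi_of_nsum f0 fun j k hj hk => ?_
  rw [gG j k (by omega) (by omega), hXS, hXS, hXS, hXS]
  have z0 : ((0 : Fin (m + 1)) : ℕ) = 0 := rfl
  rw [z0]
  simp only
  rw [n0 _ _ _ _ rfl, n0 _ _ _ _ rfl, n0' j]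
  have p0 : ∀ k, v'.repr (v k) k ≠ 0 := by
    intro k h
    have := cv k
    rw [h, zero_smul] at this
    exact v.ne_zero k this
  have q0 : ∀ j, w.repr (w' j) j ≠ 0 := by
    intro j h
    have := cw j
    rw [h, zero_smul] at this
    exact w'.ne_zero j this
  have := p0 0
  have := q0 0
  have := p0 ⟨k, by omega⟩
  have := q0 ⟨j, by omega⟩
  field_simp

end Pool.Agent.Helper31.IPS
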